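import Mathlib
import Pool.Agent.Helper16.CubicTr2

set_option autoImplicit false

namespace Pool.Agent.Helper29.TR

open MvPolynomial Module Pool.Agent.Helper16

/-- Piece N5. The discriminant is square free. -/
theorem not_sq_dvd {c : Cub (I6 → ℂ)} (hP : c.Iso P0) {f : R3} (hf : Irreducible f) :
    ¬ f ^ 2 ∣ c.disc := by
  rintro ⟨h, hD⟩
  obtain ⟨p, hp0, hfp⟩ := exists_ne_zero_root hf
  let L : (Fin 3 → ℂ) →ₗ[ℂ] ℂ := ∑ k, eval p (pderiv k f) • LinearMap.proj k
  have hL : ∀ τ, L τ = eval p (dv τ f) := by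
    intro τ
    rw [eval_dv]
    simp [L, LinearMap.sum_apply, mul_comm]
  have hker : 2 ≤ finrank ℂ (LinearMap.ker L) := by
    have h1 := LinearMap.finrank_range_add_finrank_ker L
    have h2 : finrank ℂ (LinearMap.range L) ≤ 1 := by
      have := Submodule.finrank_le (LinearMap.range L)
      simpa using this
    simp only [finrank_fintype_fun_eq_card, Fintype.card_fin] at h1
    omega
  obtain ⟨τ, hτL, hτ⟩ : ∃ τ, L τ = 0 ∧ τ ∉ (ℂ ∙ p) := by
    by_contra hcon
    push Not at hcon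
    have h3 : LinearMap.ker L ≤ (ℂ ∙ p) := fun τ hτ => hcon τ (LinearMap.mem_ker.mp hτ)
    have h4 := Submodule.finrank_mono h3
    have h5 : finrank ℂ (ℂ ∙ p : Submodule ℂ (Fin 3 → ℂ)) = 1 := finrank_span_singleton hp0
    rw [h5] at h4
    omega
  refine Cub.transversal hP (G := f) (H := f * h) (by rw [hD]; ring) hp0 hfp
    (by rw [map_mul, hfp, zero_mul]) hτ ?_ ?_
  · rw [← hL]; exact hτL
  · rw [dv_mul, map_add, map_mul, map_mul, hfp, ← hL, hτL]; ring

end Pool.Agent.Helper29.TR
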