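import Pool.Agent.Helper29.TR.Defs
import Pool.Agent.Helper29.TR.St.NodeC

set_option autoImplicit false

namespace Pool.Agent.Helper29.TR

open MvPolynomial Module Pool.Agent.Helper16

private theorem vY_single (a : Fin 3) :
    vY ℂ (Pi.single a.castSucc 1) = E (.inl a) := by
  funext i
  rcases i with i | i
  · simp [E, Pi.single_apply]
  · simp [E]

private theorem vY_single3 : vY ℂ (Pi.single 3 1) = 0 := by
  funext i; rcases i with i | i
  · simp [Pi.single_apply]
    intro h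
    have := congrArg Fin.val h
    simp at this; omega
  · simp

private theorem Nm_entries {c : Cub (I6 → ℂ)} (h : CN c) (z : Fin 3 → ℂ) :
    c.Nm z = !![z 2, -z 1, 0, 0; -z 1, z 0, 0, 0; 0, 0, al c z, be c z / 2;
      0, 0, be c z / 2, ga c z / 3] := by
  have e0 : vY ℂ (Pi.single 0 1) = E (.inl 0) := vY_single 0
  have e1 : vY ℂ (Pi.single 1 1) = E (.inl 1) := vY_single 1
  have e2 : vY ℂ (Pi.single 2 1) = E (.inl 2) := vY_single 2
  have e3 := vY_single3
  have f0 : (Pi.single (0 : Fin 4) (1 : ℂ) : Fin 4 → ℂ) 3 = 0 := by simp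
  have f1 : (Pi.single (1 : Fin 4) (1 : ℂ) : Fin 4 → ℂ) 3 = 0 := by simp
  have f2 : (Pi.single (2 : Fin 4) (1 : ℂ) : Fin 4 → ℂ) 3 = 0 := by simp
  have f3 : (Pi.single (3 : Fin 4) (1 : ℂ) : Fin 4 → ℂ) 3 = 1 := by simp
  have n01 : c.T (E (.inl 0)) (E (.inl 2)) (iZ ℂ z) = 0 :=
    h.a0 _ _ (by simp [E]) (by simp [E]) (by simp) (by simp)
  have n02 : c.T (E (.inl 0)) (iZ ℂ z) (iZ ℂ z) = 0 :=
    h.a0 _ _ (by simp) (by simp) (by simp) (by simp)
  have n11 : c.T (E (.inl 1)) (E (.inl 2)) (iZ ℂ z) = 0 :=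
    h.b0 _ _ (by simp [E]) (by simp [E]) (by simp) (by simp)
  have n12 : c.T (E (.inl 1)) (iZ ℂ z) (iZ ℂ z) = 0 :=
    h.b0 _ _ (by simp) (by simp) (by simp) (by simp)
  ext i j
  rw [Cub.Nm_apply, Cub.nf_complex]
  fin_cases i <;> fin_cases j <;>
    simp [e0, e1, e2, e3, n01, n02, n11, n12, h.aa, h.ab, h.bb, al, be, ga,
      c.s12 (E (.inl 1)) (E (.inl 0)), c.s12 (E (.inl 2)) (E (.inl 0)),
      c.s12 (E (.inl 2)) (E (.inl 1))] <;> ring

/-- Piece C7. The discriminant of the normal form. -/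
theorem CN_disc {c : Cub (I6 → ℂ)} (h : CN c) (z : Fin 3 → ℂ) :
    eval z c.disc = (z 0 * z 2 - z 1 ^ 2) * dl c z := by
  rw [Cub.eval_disc, Nm_entries h, dl]
  simp [Matrix.det_succ_row_zero, Fin.sum_univ_succ, Fin.succAbove]
  ring

/-- the residual quartic as a polynomial -/
private noncomputable def Dq (c : Cub (I6 → ℂ)) : R3 :=
  c.Nm (X : Fin 3 → R3) 2 2 * c.Nm (X : Fin 3 → R3) 3 3 - c.Nm (X : Fin 3 → R3) 2 3 ^ 2

private theorem eval_Nm (c : Cub (I6 → ℂ)) (b : Fin 3 → ℂ) (i j : Fin 4) :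
    eval b (c.Nm (X : Fin 3 → R3) i j) = c.Nm b i j := by
  have h := congrFun (congrFun (c.Nm_map (aeval b) (X : Fin 3 → R3)) i) j
  rw [Matrix.map_apply] at h
  rw [← aeval_eq_eval, h]
  simp

private theorem eval_Dq {c : Cub (I6 → ℂ)} (h : CN c) (b : Fin 3 → ℂ) :
    eval b (Dq c) = dl c b := by
  rw [Dq, map_sub, map_mul, map_pow, eval_Nm, eval_Nm, eval_Nm, Nm_entries h, dl]
  simp
  ring

private theorem dl_smul (c : Cub (I6 → ℂ)) (s : ℂ) (z : Fin 3 → ℂ) :
    dl c (s • z) = s ^ 4 * dl c z := by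
  simp only [dl, al, be, ga, map_smul, LinearMap.smul_apply, smul_eq_mul]
  ring

private theorem disc_eq {c : Cub (I6 → ℂ)} (h : CN c) : c.disc = kap * Dq c := by
  refine MvPolynomial.funext fun z => ?_
  rw [CN_disc h, map_mul, eval_Dq h, kap]
  simp

/-- The residual quartic does not vanish on the conic. -/
theorem CN_dl {c : Cub (I6 → ℂ)} (h : CN c) : ∃ t, dl c (nu t) ≠ 0 := by
  by_contra hcon
  push Not at hcon
  -- the pull back of the quartic to the conic vanishes
  have hφ : aeval ![(X 0 : R3) ^ 2, X 0 * X 1, X 1 ^ 2] (Dq c) = 0 := by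
    have h0 : (X 0 : R3) * aeval ![(X 0 : R3) ^ 2, X 0 * X 1, X 1 ^ 2] (Dq c) = 0 := by
      refine MvPolynomial.funext fun z => ?_
      rw [map_zero, map_mul, eval_X]
      by_cases hz : z 0 = 0
      · rw [hz, zero_mul]
      · have e1 : eval z (aeval ![(X 0 : R3) ^ 2, X 0 * X 1, X 1 ^ 2] (Dq c)) =
            eval (z 0 ^ 2 • nu (z 1 / z 0)) (Dq c) := by
          rw [← aeval_eq_eval, ← aeval_eq_eval]
          change ((aeval z).comp (aeval ![(X 0 : R3) ^ 2, X 0 * X 1, X 1 ^ 2])) (Dq c) = _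
          rw [comp_aeval]
          congr 2
          funext i
          fin_cases i
          · simp [nu]
          · simp [nu]; field_simp
          · simp [nu]; field_simp
        rw [e1, eval_Dq h, dl_smul, hcon, mul_zero, mul_zero]
    exact (mul_eq_zero.mp h0).resolve_left (X_ne_zero 0)
  -- divisibility after multiplication with a power of the first coordinate
  have hX : kap ∣ (X 0 : R3) ^ 4 * Dq c := by
    have e2 : (X 0 : R3) ^ 4 * Dq c = aeval (fun i => (X 0 : R3) * X i) (Dq c) := by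
      refine MvPolynomial.funext fun z => ?_
      have e3 : eval z (aeval (fun i => (X 0 : R3) * X i) (Dq c)) = eval (z 0 • z) (Dq c) := by
        rw [← aeval_eq_eval, ← aeval_eq_eval]
        change ((aeval z).comp (aeval (fun i => (X 0 : R3) * X i))) (Dq c) = _
        rw [comp_aeval]
        congr 2
        funext i
        simp
      rw [e3, map_mul, eval_Dq h, eval_Dq h, dl_smul]
      simp
    rw [← Ideal.mem_span_singleton, ← Ideal.Quotient.eq_zero_iff_mem, e2]
    have e4 : ∀ v : Fin 3 → R3, Ideal.Quotient.mk (Ideal.span {kap}) (aeval v (Dq c)) =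
        aeval (fun i => Ideal.Quotient.mk (Ideal.span {kap}) (v i)) (Dq c) := by
      intro v
      change ((Ideal.Quotient.mkₐ ℂ (Ideal.span {kap})).comp (aeval v)) (Dq c) = _
      rw [comp_aeval]
      rfl
    rw [e4]
    have e5 : (fun i => Ideal.Quotient.mk (Ideal.span {kap}) ((X 0 : R3) * X i)) =
        fun i => Ideal.Quotient.mk (Ideal.span {kap})
          ((![(X 0 : R3) ^ 2, X 0 * X 1, X 1 ^ 2] : Fin 3 → R3) i) := by
      funext i
      rw [Ideal.Quotient.eq, Ideal.mem_span_singleton]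
      fin_cases i
      · simp [pow_two]
      · simp
      · simp [kap]
    rw [e5, ← e4, hφ, map_zero]
  -- the first coordinate is prime and does not divide the conic
  have hnd : ¬ (X 0 : R3) ∣ kap := by
    rintro ⟨q, hq⟩
    have := congrArg (eval ![0, 1, 0]) hq
    simp [kap] at this
  have hprime : Prime (X 0 : R3) := X_prime
  have key : ∀ n : ℕ, kap ∣ (X 0 : R3) ^ n * Dq c → kap ∣ Dq c := by
    intro n
    induction n with
    | zero => intro h1; simpa using h1
    | succ n ih =>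
      rintro ⟨q, hq⟩
      have h1 : (X 0 : R3) ∣ kap * q := ⟨X 0 ^ n * Dq c, by rw [← hq]; ring⟩
      obtain ⟨q', rfl⟩ := (hprime.dvd_or_dvd h1).resolve_left hnd
      refine ih ⟨q', mul_left_cancel₀ (X_ne_zero (0 : Fin 3)) ?_⟩
      calc (X 0 : R3) * (X 0 ^ n * Dq c) = X 0 ^ (n + 1) * Dq c := by ring
        _ = kap * (X 0 * q') := hq
        _ = X 0 * (kap * q') := by ring
  obtain ⟨q, hq⟩ := key 4 hX
  have hk0 : (kap : R3) ≠ 0 := fun h0 => hnd (h0 ▸ dvd_zero _)
  have hku : ¬ IsUnit (kap : R3) := by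
    intro hu
    have := hu.map (eval (![1, 0, 0] : Fin 3 → ℂ))
    simp [kap] at this
  obtain ⟨f, hf, r, hr⟩ := WfDvdMonoid.exists_irreducible_factor hku hk0
  refine not_sq_dvd h.iso hf ⟨r ^ 2 * q, ?_⟩
  rw [disc_eq h, hq, hr]
  ring

end Pool.Agent.Helper29.TR
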