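import Pool.Agent.Helper29.TR.Defs

set_option autoImplicit false

namespace Pool.Agent.Helper29.TR

open MvPolynomial Module Pool.Agent.Helper16

private def shL (t : ℂ) : (I6 → ℂ) →ₗ[ℂ] (I6 → ℂ) where
  toFun x := Sum.elim ![x (.inl 0), t * x (.inl 0) + x (.inl 1), x (.inl 2)]
    ![x (.inr 0), t * x (.inr 0) + x (.inr 1), t ^ 2 * x (.inr 0) + 2 * t * x (.inr 1) + x (.inr 2)]
  map_add' x y := by
    funext i
    rcases i with i | i <;> fin_cases i <;> simp <;> ring
  map_smul' a x := by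
    funext i
    rcases i with i | i <;> fin_cases i <;> simp <;> ring

private theorem shL_0 (t : ℂ) (x : I6 → ℂ) : shL t x (.inl 0) = x (.inl 0) := rfl
private theorem shL_1 (t : ℂ) (x : I6 → ℂ) : shL t x (.inl 1) = t * x (.inl 0) + x (.inl 1) := rfl
private theorem shL_2 (t : ℂ) (x : I6 → ℂ) : shL t x (.inl 2) = x (.inl 2) := rfl
private theorem shL_3 (t : ℂ) (x : I6 → ℂ) : shL t x (.inr 0) = x (.inr 0) := rfl
private theorem shL_4 (t : ℂ) (x : I6 → ℂ) : shL t x (.inr 1) = t * x (.inr 0) + x (.inr 1) := rfl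
private theorem shL_5 (t : ℂ) (x : I6 → ℂ) :
    shL t x (.inr 2) = t ^ 2 * x (.inr 0) + 2 * t * x (.inr 1) + x (.inr 2) := rfl

private theorem shL_comp (t : ℂ) (x : I6 → ℂ) : shL t (shL (-t) x) = x := by
  funext i
  rcases i with i | i <;> fin_cases i
  · show shL t (shL (-t) x) (.inl 0) = x (.inl 0)
    rw [shL_0, shL_0]
  · show shL t (shL (-t) x) (.inl 1) = x (.inl 1)
    rw [shL_1, shL_0, shL_1]; ring
  · show shL t (shL (-t) x) (.inl 2) = x (.inl 2)
    rw [shL_2, shL_2]
  · show shL t (shL (-t) x) (.inr 0) = x (.inr 0)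
    rw [shL_3, shL_3]
  · show shL t (shL (-t) x) (.inr 1) = x (.inr 1)
    rw [shL_4, shL_3, shL_4]; ring
  · show shL t (shL (-t) x) (.inr 2) = x (.inr 2)
    rw [shL_5, shL_3, shL_4, shL_5]; ring

private def shE (t : ℂ) : (I6 → ℂ) ≃ₗ[ℂ] (I6 → ℂ) :=
  { shL t with
    invFun := shL (-t)
    left_inv := fun x => by
      have h := shL_comp (-t) x
      rw [neg_neg] at h
      exact h
    right_inv := fun x => shL_comp t x }

private theorem shE_apply (t : ℂ) (x : I6 → ℂ) : shE t x = shL t x := rfl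


private theorem shL_E0 (t : ℂ) : shL t (E (.inl 0)) = E (.inl 0) + t • E (.inl 1) := by
  funext i
  rcases i with i | i <;> fin_cases i <;> simp [shL, E]

private theorem shL_E1 (t : ℂ) : shL t (E (.inl 1)) = E (.inl 1) := by
  funext i
  rcases i with i | i <;> fin_cases i <;> simp [shL, E]

private theorem shL_E2 (t : ℂ) : shL t (E (.inl 2)) = E (.inl 2) := by
  funext i
  rcases i with i | i <;> fin_cases i <;> simp [shL, E]

private theorem shL_nu (t : ℂ) : shL t (iZ ℂ (nu 0)) = iZ ℂ (nu t) := by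
  funext i
  rcases i with i | i <;> fin_cases i <;> simp [shL, nu]

private def swL : (I6 → ℂ) →ₗ[ℂ] (I6 → ℂ) where
  toFun x := Sum.elim ![x (.inl 1), x (.inl 0), x (.inl 2)] ![x (.inr 2), x (.inr 1), x (.inr 0)]
  map_add' x y := by
    funext i
    rcases i with i | i <;> fin_cases i <;> simp
  map_smul' a x := by
    funext i
    rcases i with i | i <;> fin_cases i <;> simp

private theorem swL_comp (x : I6 → ℂ) : swL (swL x) = x := by
  funext i
  rcases i with i | i <;> fin_cases i <;> rfl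

private def swE : (I6 → ℂ) ≃ₗ[ℂ] (I6 → ℂ) :=
  { swL with
    invFun := swL
    left_inv := swL_comp
    right_inv := swL_comp }

private theorem swE_apply (x : I6 → ℂ) : swE x = swL x := rfl

private theorem swL_E0 : swL (E (.inl 0)) = E (.inl 1) := by
  funext i
  rcases i with i | i <;> fin_cases i <;> simp [swL, E]

private theorem swL_E1 : swL (E (.inl 1)) = E (.inl 0) := by
  funext i
  rcases i with i | i <;> fin_cases i <;> simp [swL, E]

private theorem swL_E2 : swL (E (.inl 2)) = E (.inl 2) := by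
  funext i
  rcases i with i | i <;> fin_cases i <;> simp [swL, E]

private theorem swL_nu : swL (iZ ℂ (nu 0)) = iZ ℂ ![0, 0, 1] := by
  funext i
  rcases i with i | i <;> fin_cases i <;> simp [swL, nu]

/-- Piece C4. Moving the points of the conic. -/
theorem CN_shift {c : Cub (I6 → ℂ)} (h : CN c) (t : ℂ) :
    ∃ e : (I6 → ℂ) ≃ₗ[ℂ] (I6 → ℂ), CN (c.comap e) ∧ dl (c.comap e) (nu 0) = dl c (nu t) := by
  refine ⟨shE t, ⟨?_, ?_, ?_, ?_, ?_, ?_⟩, ?_⟩
  · intro x hx
    rw [Cub.comap_apply]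
    apply h.iso
    rw [mem_P0] at hx ⊢
    have hx' : ∀ k, x (.inr k) = 0 := fun k => by rw [← pZ_apply x k, hx]; rfl
    funext k
    rw [pZ_apply, shE_apply]
    fin_cases k
    · show shL t x (.inr 0) = 0
      rw [shL_3, hx']
    · show shL t x (.inr 1) = 0
      rw [shL_4, hx', hx']; ring
    · show shL t x (.inr 2) = 0
      rw [shL_5, hx', hx', hx']; ring
  · intro x
    rw [Cub.comap_apply, shE_apply, shE_apply, shL_E0]
    simp only [map_add, map_smul, LinearMap.add_apply, LinearMap.smul_apply, smul_eq_mul]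
    rw [c.s12 (E (.inl 1)) (E (.inl 0)), h.aa, h.ab, h.bb, shL_3, shL_4, shL_5]
    ring
  · intro x
    rw [Cub.comap_apply, shE_apply, shE_apply, shE_apply, shL_E0, shL_E1]
    simp only [map_add, map_smul, LinearMap.add_apply, LinearMap.smul_apply, smul_eq_mul]
    rw [h.ab, h.bb, shL_3, shL_4]
    ring
  · intro x
    rw [Cub.comap_apply, shE_apply, shE_apply, shL_E1, h.bb, shL_3]
  · intro u v hu0 hu1 hv0 hv1
    rw [Cub.comap_apply, shE_apply, shE_apply, shE_apply, shL_E0]
    simp only [map_add, map_smul, LinearMap.add_apply, LinearMap.smul_apply, smul_eq_mul]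
    have a1 : shL t u (.inl 0) = 0 := by rw [shL_0, hu0]
    have a2 : shL t u (.inl 1) = 0 := by rw [shL_1, hu0, hu1]; ring
    have a3 : shL t v (.inl 0) = 0 := by rw [shL_0, hv0]
    have a4 : shL t v (.inl 1) = 0 := by rw [shL_1, hv0, hv1]; ring
    rw [h.a0 _ _ a1 a2 a3 a4, h.b0 _ _ a1 a2 a3 a4]
    ring
  · intro u v hu0 hu1 hv0 hv1
    rw [Cub.comap_apply, shE_apply, shE_apply, shE_apply, shL_E1]
    have a1 : shL t u (.inl 0) = 0 := by rw [shL_0, hu0]
    have a2 : shL t u (.inl 1) = 0 := by rw [shL_1, hu0, hu1]; ring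
    have a3 : shL t v (.inl 0) = 0 := by rw [shL_0, hv0]
    have a4 : shL t v (.inl 1) = 0 := by rw [shL_1, hv0, hv1]; ring
    exact h.b0 _ _ a1 a2 a3 a4
  · unfold dl al be ga
    simp only [Cub.comap_apply, shE_apply, shL_E2, shL_nu]

/-- Exchanging the two coordinate points of the conic. -/
theorem CN_swap {c : Cub (I6 → ℂ)} (h : CN c) :
    ∃ e : (I6 → ℂ) ≃ₗ[ℂ] (I6 → ℂ), CN (c.comap e) ∧
      dl (c.comap e) (nu 0) = dl c ![0, 0, 1] := by
  refine ⟨swE, ⟨?_, ?_, ?_, ?_, ?_, ?_⟩, ?_⟩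
  · intro x hx
    rw [Cub.comap_apply]
    apply h.iso
    rw [mem_P0] at hx ⊢
    have hx' : ∀ k, x (.inr k) = 0 := fun k => by rw [← pZ_apply x k, hx]; rfl
    funext k
    rw [pZ_apply, swE_apply]
    fin_cases k
    · show x (.inr 2) = 0
      exact hx' 2
    · show x (.inr 1) = 0
      exact hx' 1
    · show x (.inr 0) = 0
      exact hx' 0
  · intro x
    rw [Cub.comap_apply, swE_apply, swE_apply, swL_E0, h.bb]
    rfl
  · intro x
    rw [Cub.comap_apply, swE_apply, swE_apply, swE_apply, swL_E0, swL_E1, c.s12, h.ab]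
    rfl
  · intro x
    rw [Cub.comap_apply, swE_apply, swE_apply, swL_E1, h.aa]
    rfl
  · intro u v hu0 hu1 hv0 hv1
    rw [Cub.comap_apply, swE_apply, swE_apply, swE_apply, swL_E0]
    exact h.b0 _ _ hu1 hu0 hv1 hv0
  · intro u v hu0 hu1 hv0 hv1
    rw [Cub.comap_apply, swE_apply, swE_apply, swE_apply, swL_E1]
    exact h.a0 _ _ hu1 hu0 hv1 hv0
  · unfold dl al be ga
    simp only [Cub.comap_apply, swE_apply, swL_E2, swL_nu]

end Pool.Agent.Helper29.TR
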