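import Pool.Agent.Helper29.TR.Defs

set_option autoImplicit false

namespace Pool.Agent.Helper29.TR

open MvPolynomial Module Pool.Agent.Helper16

private theorem iZ_nu (t : ℂ) : iZ ℂ (nu t) =
    iZ ℂ ![1, 0, 0] + t • iZ ℂ ![0, 1, 0] + t ^ 2 • iZ ℂ ![0, 0, 1] := by
  rw [← map_smul, ← map_smul, ← map_add, ← map_add]
  congr 1
  funext i
  fin_cases i <;> simp [nu]

/-- Piece C5. The coefficients along the conic are polynomials. -/
theorem CN_polys (c : Cub (I6 → ℂ)) : ∃ α β γ : Polynomial ℂ,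
    α.natDegree ≤ 2 ∧ β.natDegree ≤ 4 ∧ γ.natDegree ≤ 6 ∧
    (∀ t, α.eval t = al c (nu t)) ∧ (∀ t, β.eval t = be c (nu t)) ∧
    (∀ t, γ.eval t = ga c (nu t)) ∧
    α.coeff 2 = al c ![0, 0, 1] ∧ β.coeff 4 = be c ![0, 0, 1] ∧
    γ.coeff 6 = ga c ![0, 0, 1] := by
  obtain ⟨f, hf⟩ : ∃ f, f = iZ ℂ ![1, 0, 0] := ⟨_, rfl⟩
  obtain ⟨g, hg⟩ : ∃ g, g = iZ ℂ ![0, 1, 0] := ⟨_, rfl⟩
  obtain ⟨h, hh⟩ : ∃ h, h = iZ ℂ ![0, 0, 1] := ⟨_, rfl⟩
  obtain ⟨d, hd⟩ : ∃ d, d = E (.inl 2) := ⟨_, rfl⟩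
  refine ⟨Polynomial.C (c.T d d f) + Polynomial.C (c.T d d g) * Polynomial.X +
      Polynomial.C (c.T d d h) * Polynomial.X ^ 2,
    Polynomial.C (c.T d f f) + Polynomial.C (c.T d f g + c.T d g f) * Polynomial.X +
      Polynomial.C (c.T d f h + c.T d g g + c.T d h f) * Polynomial.X ^ 2 +
      Polynomial.C (c.T d g h + c.T d h g) * Polynomial.X ^ 3 +
      Polynomial.C (c.T d h h) * Polynomial.X ^ 4,
    Polynomial.C (c.T f f f) +
      Polynomial.C (c.T f f g + c.T f g f + c.T g f f) * Polynomial.X +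
      Polynomial.C (c.T f f h + c.T f h f + c.T h f f + c.T f g g + c.T g f g + c.T g g f) *
        Polynomial.X ^ 2 +
      Polynomial.C (c.T g g g + c.T f g h + c.T f h g + c.T g f h + c.T g h f + c.T h f g +
        c.T h g f) * Polynomial.X ^ 3 +
      Polynomial.C (c.T f h h + c.T h f h + c.T h h f + c.T g g h + c.T g h g + c.T h g g) *
        Polynomial.X ^ 4 +
      Polynomial.C (c.T g h h + c.T h g h + c.T h h g) * Polynomial.X ^ 5 +
      Polynomial.C (c.T h h h) * Polynomial.X ^ 6, ?_, ?_, ?_, ?_, ?_, ?_, ?_, ?_, ?_⟩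
  · compute_degree
  · compute_degree
  · compute_degree
  · intro t
    unfold al
    rw [iZ_nu, ← hf, ← hg, ← hh, ← hd]
    simp only [map_add, map_smul, LinearMap.add_apply, LinearMap.smul_apply, smul_eq_mul,
      Polynomial.eval_add, Polynomial.eval_mul, Polynomial.eval_C, Polynomial.eval_X,
      Polynomial.eval_pow]
    ring
  · intro t
    unfold be
    rw [iZ_nu, ← hf, ← hg, ← hh, ← hd]
    simp only [map_add, map_smul, LinearMap.add_apply, LinearMap.smul_apply, smul_eq_mul,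
      Polynomial.eval_add, Polynomial.eval_mul, Polynomial.eval_C, Polynomial.eval_X,
      Polynomial.eval_pow]
    ring
  · intro t
    unfold ga
    rw [iZ_nu, ← hf, ← hg, ← hh]
    simp only [map_add, map_smul, LinearMap.add_apply, LinearMap.smul_apply, smul_eq_mul,
      Polynomial.eval_add, Polynomial.eval_mul, Polynomial.eval_C, Polynomial.eval_X,
      Polynomial.eval_pow]
    ring
  · unfold al
    rw [← hh, ← hd]
    simp only [Polynomial.coeff_add, Polynomial.coeff_C_mul, Polynomial.coeff_X_pow,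
      Polynomial.coeff_X, Polynomial.coeff_C]
    norm_num
  · unfold be
    rw [← hh, ← hd]
    simp only [Polynomial.coeff_add, Polynomial.coeff_C_mul, Polynomial.coeff_X_pow,
      Polynomial.coeff_X, Polynomial.coeff_C]
    norm_num
  · unfold ga
    rw [← hh]
    simp only [Polynomial.coeff_add, Polynomial.coeff_C_mul, Polynomial.coeff_X_pow,
      Polynomial.coeff_X, Polynomial.coeff_C]
    norm_num

end Pool.Agent.Helper29.TR
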