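import Mathlib
import Pool.Agent.Helper29.TR.St.ConMove
import Pool.Agent.Helper29.TR.St.ConPoly

set_option autoImplicit false

namespace Pool.Agent.Helper29.TR

open MvPolynomial Module Pool.Agent.Helper16

/-- Piece C6. There is a node on the conic, and it can be moved to the coordinate point. -/
theorem CN_node {c : Cub (I6 → ℂ)} (h : CN c) :
    ∃ e : (I6 → ℂ) ≃ₗ[ℂ] (I6 → ℂ), CN (c.comap e) ∧ dl (c.comap e) (nu 0) = 0 := by
  obtain ⟨α, β, γ, hα, hβ, hγ, h1, h2, h3, h4, h5, h6⟩ := CN_polys c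
  set f : Polynomial ℂ := Polynomial.C (1 / 3 : ℂ) * (α * γ) - Polynomial.C (1 / 4 : ℂ) * (β ^ 2)
    with hf
  have hev : ∀ t, f.eval t = dl c (nu t) := by
    intro t
    rw [hf]
    simp only [Polynomial.eval_sub, Polynomial.eval_mul, Polynomial.eval_C, Polynomial.eval_pow,
      h1, h2, h3, dl]
    ring
  by_cases hr : ∃ t, f.eval t = 0
  · obtain ⟨t, ht⟩ := hr
    obtain ⟨e, he1, he2⟩ := CN_shift h t
    exact ⟨e, he1, by rw [he2, ← hev, ht]⟩
  · have hdeg : f.degree = 0 := by
      by_contra hne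
      obtain ⟨t, ht⟩ := IsAlgClosed.exists_root f hne
      exact hr ⟨t, ht⟩
    have hnat : f.natDegree = 0 := Polynomial.natDegree_eq_of_degree_eq_some hdeg
    have h8 : f.coeff 8 = 0 := Polynomial.coeff_eq_zero_of_natDegree_lt (by omega)
    have hc1 : (α * γ).coeff 8 = al c ![0, 0, 1] * ga c ![0, 0, 1] := by
      have := Polynomial.coeff_mul_add_eq_of_natDegree_le hα hγ
      rw [h4, h6] at this
      exact this
    have hc2 : (β ^ 2).coeff 8 = be c ![0, 0, 1] ^ 2 := by
      have := Polynomial.coeff_mul_add_eq_of_natDegree_le hβ hβ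
      rw [h5] at this
      rw [sq, sq]
      exact this
    have h8' : f.coeff 8 = dl c ![0, 0, 1] := by
      rw [hf, Polynomial.coeff_sub, Polynomial.coeff_C_mul, Polynomial.coeff_C_mul, hc1, hc2, dl]
      ring
    obtain ⟨e, he1, he2⟩ := CN_swap h
    exact ⟨e, he1, by rw [he2, ← h8', h8]⟩

end Pool.Agent.Helper29.TR
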