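import Pool.Agent.Helper29.TR.Defs

set_option autoImplicit false

namespace Pool.Agent.Helper29.TR

open MvPolynomial Module Pool.Agent.Helper16

private theorem cubeE_mem (k : Fin 3) : E (.inl k) ∈ P0 := by
  rw [mem_P0]
  funext i
  simp [E]

/-- Piece C8. The cubic in normal form. -/
theorem CN_cube {c : Cub (I6 → ℂ)} (h : CN c) (x : I6 → ℂ) :
    c.T x x x = 3 * (x (.inr 2) * x (.inl 0) ^ 2 - 2 * x (.inr 1) * x (.inl 0) * x (.inl 1) +
      x (.inr 0) * x (.inl 1) ^ 2) + 3 * x (.inl 2) ^ 2 * al c (pZ ℂ x) +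
      3 * x (.inl 2) * be c (pZ ℂ x) + ga c (pZ ℂ x) := by
  set z : Fin 3 → ℂ := pZ ℂ x with hz
  set r : I6 → ℂ := x (.inl 2) • E (.inl 2) + iZ ℂ z with hr
  set y : I6 → ℂ := x (.inl 0) • E (.inl 0) + x (.inl 1) • E (.inl 1) with hy
  have hx : x = y + r := by
    rw [hy, hr, hz]
    funext i
    rcases i with i | i
    · fin_cases i <;> simp [E]
    · simp [E]
  have r0 : r (.inl 0) = 0 := by rw [hr]; simp [E]
  have r1 : r (.inl 1) = 0 := by rw [hr]; simp [E]
  have rr : ∀ k, r (.inr k) = x (.inr k) := by intro k; rw [hr]; simp [E, hz]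
  have e1 : c.T y y y = 0 := by
    apply h.iso
    rw [hy]
    exact P0.add_mem (P0.smul_mem _ (cubeE_mem 0)) (P0.smul_mem _ (cubeE_mem 1))
  have e2 : c.T y y r = x (.inr 2) * x (.inl 0) ^ 2 - 2 * x (.inr 1) * x (.inl 0) * x (.inl 1) +
      x (.inr 0) * x (.inl 1) ^ 2 := by
    rw [hy]
    simp only [map_add, LinearMap.add_apply, map_smul, LinearMap.smul_apply, smul_eq_mul]
    rw [c.s12 (E (.inl 1)) (E (.inl 0)) r, h.aa, h.ab, h.bb, rr, rr, rr]
    ring
  have e3 : c.T y r r = 0 := by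
    rw [hy]
    simp only [map_add, LinearMap.add_apply, map_smul, LinearMap.smul_apply, smul_eq_mul]
    rw [h.a0 r r r0 r1 r0 r1, h.b0 r r r0 r1 r0 r1]
    ring
  have e4 : c.T r r r = 3 * x (.inl 2) ^ 2 * al c z + 3 * x (.inl 2) * be c z + ga c z := by
    rw [hr, c.cube_add]
    simp only [map_smul, LinearMap.smul_apply, smul_eq_mul]
    rw [h.iso _ (cubeE_mem 2)]
    unfold al be ga
    ring
  have e5 : c.T x x x = c.T (y + r) (y + r) (y + r) := by rw [← hx]
  rw [e5, c.cube_add, e1, e2, e3, e4]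
  ring

end Pool.Agent.Helper29.TR
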