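import Mathlib
import Pool.Agent.Helper29.TR.St.ConCube

set_option autoImplicit false

namespace Pool.Agent.Helper29.TR

open MvPolynomial Module Pool.Agent.Helper16

/-- Piece C9. The fibre over the node splits. -/
theorem CN_split {c : Cub (I6 → ℂ)} (h0 : dl c (nu 0) = 0) :
    ∃ ξ η : ℂ, al c (nu 0) = -ξ ^ 2 ∧ be c (nu 0) = -2 * ξ * η ∧ ga c (nu 0) = -3 * η ^ 2 := by
  have h1 : al c (nu 0) * ga c (nu 0) / 3 - be c (nu 0) ^ 2 / 4 = 0 := h0
  generalize al c (nu 0) = a at *
  generalize be c (nu 0) = b at *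
  generalize ga c (nu 0) = g at *
  by_cases ha : a = 0
  · subst ha
    have hb : b = 0 := by
      have : b ^ 2 = 0 := by linear_combination (-4) * h1
      exact pow_eq_zero_iff (two_ne_zero) |>.1 this
    obtain ⟨η, hη⟩ := IsAlgClosed.exists_pow_nat_eq (-(g / 3)) (n := 2) (by norm_num)
    refine ⟨0, η, by simp, by rw [hb]; ring, ?_⟩
    rw [hη]; ring
  · obtain ⟨ξ, hξ⟩ := IsAlgClosed.exists_pow_nat_eq (-a) (n := 2) (by norm_num)
    have hξ0 : ξ ≠ 0 := by
      rintro rfl
      apply ha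
      have : (-a) = 0 := by rw [← hξ]; ring
      exact neg_eq_zero.1 this
    refine ⟨ξ, -b / (2 * ξ), by rw [hξ]; ring, ?_, ?_⟩
    · field_simp
    · have h2 : a * g = 3 / 4 * b ^ 2 := by linear_combination 3 * h1
      have h3 : a = -ξ ^ 2 := by rw [hξ]; ring
      rw [h3] at h2
      field_simp
      linear_combination (-4) * h2

/-- The change of coordinates adapted to the plane `z₁ = z₂ = 0, y₁ = ξ w + η z₀`. -/
noncomputable def gE (ξ η : ℂ) : (I6 → ℂ) ≃ₗ[ℂ] (I6 → ℂ) where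
  toFun x := Sum.elim ![x (.inl 0), x (.inr 2) + ξ * x (.inl 1) + η * x (.inl 2), x (.inl 1)]
    ![x (.inl 2), x (.inr 0), x (.inr 1)]
  map_add' x y := by
    funext i
    rcases i with i | i <;> fin_cases i <;> simp
    ring
  map_smul' r x := by
    funext i
    rcases i with i | i <;> fin_cases i <;> simp
    ring
  invFun x := Sum.elim ![x (.inl 0), x (.inl 2), x (.inr 0)]
    ![x (.inr 1), x (.inr 2), x (.inl 1) - ξ * x (.inl 2) - η * x (.inr 0)]
  left_inv x := by
    funext i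
    rcases i with i | i <;> fin_cases i <;> simp
    ring
  right_inv x := by
    funext i
    rcases i with i | i <;> fin_cases i <;> simp
    ring

/-- The plane of the splitting fibre lies on the cubic. -/
theorem CN_iso {c : Cub (I6 → ℂ)} (h : CN c) {ξ η : ℂ} (h1 : al c (nu 0) = -ξ ^ 2)
    (h2 : be c (nu 0) = -2 * ξ * η) (h3 : ga c (nu 0) = -3 * η ^ 2) :
    (c.comap (gE ξ η)).Iso P0 := by
  intro x hx
  rw [Cub.comap_apply, CN_cube h]
  have hz := mem_P0.1 hx
  have hz0 : x (.inr 0) = 0 := congrFun hz 0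
  have hz1 : x (.inr 1) = 0 := congrFun hz 1
  have hz2 : x (.inr 2) = 0 := congrFun hz 2
  have hp : pZ ℂ (gE ξ η x) = x (.inl 2) • nu 0 := by
    funext k
    fin_cases k
    · simp [pZ, gE, nu]
    · simp [pZ, gE, nu, hz0]
    · simp [pZ, gE, nu, hz1]
  have e0 : gE ξ η x (.inl 0) = x (.inl 0) := rfl
  have e1 : gE ξ η x (.inl 1) = ξ * x (.inl 1) + η * x (.inl 2) := by
    show x (.inr 2) + ξ * x (.inl 1) + η * x (.inl 2) = _
    rw [hz2]; ring
  have e2 : gE ξ η x (.inl 2) = x (.inl 1) := rfl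
  have f0 : gE ξ η x (.inr 0) = x (.inl 2) := rfl
  have f1 : gE ξ η x (.inr 1) = 0 := hz0
  have f2 : gE ξ η x (.inr 2) = 0 := hz1
  have ha : al c (x (.inl 2) • nu 0) = x (.inl 2) * al c (nu 0) := by
    unfold al
    rw [map_smul (iZ ℂ), map_smul]
    rfl
  have hb : be c (x (.inl 2) • nu 0) = x (.inl 2) ^ 2 * be c (nu 0) := by
    unfold be
    simp only [map_smul, LinearMap.smul_apply, smul_eq_mul]
    ring
  have hg : ga c (x (.inl 2) • nu 0) = x (.inl 2) ^ 3 * ga c (nu 0) := by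
    unfold ga
    simp only [map_smul, LinearMap.smul_apply, smul_eq_mul]
    ring
  rw [hp, ha, hb, hg, e0, e1, e2, f0, f1, f2, h1, h2, h3]
  ring

end Pool.Agent.Helper29.TR
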