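import Mathlib
import Pool.Agent.Helper29.TR.St.ConPlane

set_option autoImplicit false

namespace Pool.Agent.Helper29.TR

open MvPolynomial Module Pool.Agent.Helper16

private noncomputable def PP (p : Polynomial ℂ) : MvPolynomial (Fin 2) ℂ :=
  Polynomial.aeval (X 0 : MvPolynomial (Fin 2) ℂ) p

private theorem PP_eval (p : Polynomial ℂ) (a : Fin 2 → ℂ) :
    (MvPolynomial.aeval a : MvPolynomial (Fin 2) ℂ →ₐ[ℂ] ℂ) (PP p) = p.eval (a 0) := by
  unfold PP
  rw [← Polynomial.aeval_algHom_apply, MvPolynomial.aeval_X, Polynomial.coe_aeval_eq_eval]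

private theorem PP_ne {s : Polynomial ℂ} (hs : s ≠ 0) : PP s ≠ 0 := by
  intro h
  apply hs
  apply Polynomial.funext
  intro r
  have := PP_eval s (fun _ => r)
  rw [h, map_zero] at this
  simpa using this.symm

private theorem al_smul (c : Cub (I6 → ℂ)) (r : ℂ) (z : Fin 3 → ℂ) :
    al c (r • z) = r * al c z := by
  unfold al; simp only [map_smul, smul_eq_mul]

private theorem be_smul (c : Cub (I6 → ℂ)) (r : ℂ) (z : Fin 3 → ℂ) :
    be c (r • z) = r ^ 2 * be c z := by
  unfold be; simp only [map_smul, LinearMap.smul_apply, smul_eq_mul]; ring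

private theorem ga_smul (c : Cub (I6 → ℂ)) (r : ℂ) (z : Fin 3 → ℂ) :
    ga c (r • z) = r ^ 3 * ga c z := by
  unfold ga; simp only [map_smul, LinearMap.smul_apply, smul_eq_mul]; ring

/-- Piece C11. The section of the second projection. -/
theorem CN_section {c : Cub (I6 → ℂ)} (h : CN c) {ξ η : ℂ} (h1 : al c (nu 0) = -ξ ^ 2)
    (h2 : be c (nu 0) = -2 * ξ * η) (h3 : ga c (nu 0) = -3 * η ^ 2) (m w s : Polynomial ℂ)
    (hs : s ≠ 0) (heq : ∀ t, 3 * m.eval t ^ 2 + 3 * al c (nu t) * w.eval t ^ 2 +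
      3 * be c (nu t) * w.eval t * s.eval t + ga c (nu t) * s.eval t ^ 2 = 0) :
    ∃ v : Fin 4 → MvPolynomial (Fin 2) ℂ, v 3 ≠ 0 ∧
      (c.comap (gE ξ η)).nf (![1, X 0, X 1] : Fin 3 → MvPolynomial (Fin 2) ℂ) v v = 0 := by
  have hiso := CN_iso h h1 h2 h3
  let v : Fin 4 → MvPolynomial (Fin 2) ℂ :=
    ![X 1 * PP s * X 0 + PP m + C ξ * PP w + C η * PP s, X 0 * PP w, X 0 * PP s, X 0 ^ 2 * PP s]
  have hv3 : v 3 ≠ 0 := mul_ne_zero (pow_ne_zero 2 (X_ne_zero 0)) (PP_ne hs)
  refine ⟨v, hv3, ?_⟩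
  have key : v 3 * (c.comap (gE ξ η)).nf
      (![1, X 0, X 1] : Fin 3 → MvPolynomial (Fin 2) ℂ) v v = 0 := by
    apply MvPolynomial.funext
    intro a
    rw [← MvPolynomial.coe_aeval_eq_eval, map_zero]
    change (MvPolynomial.aeval a : MvPolynomial (Fin 2) ℂ →ₐ[ℂ] ℂ) _ = 0
    rw [map_mul, Cub.map_nf]
    set vv : Fin 4 → ℂ := fun i => (MvPolynomial.aeval a : MvPolynomial (Fin 2) ℂ →ₐ[ℂ] ℂ) (v i)
      with hvv
    set zz : Fin 3 → ℂ := fun i => (MvPolynomial.aeval a : MvPolynomial (Fin 2) ℂ →ₐ[ℂ] ℂ)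
      ((![1, X 0, X 1] : Fin 3 → MvPolynomial (Fin 2) ℂ) i) with hzz
    have v0 : vv 0 = a 1 * s.eval (a 0) * a 0 + m.eval (a 0) + ξ * w.eval (a 0) +
        η * s.eval (a 0) := by
      simp only [hvv, v, Matrix.cons_val_zero, map_add, map_mul, PP_eval, MvPolynomial.aeval_X]
      congr 1
      · congr 1
        simp
      · simp
    have v1 : vv 1 = a 0 * w.eval (a 0) := by
      simp only [hvv, v, Matrix.cons_val_one, Matrix.cons_val_zero, map_mul, PP_eval,
        MvPolynomial.aeval_X]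
    have v2 : vv 2 = a 0 * s.eval (a 0) := by
      simp only [hvv, v, Matrix.cons_val, map_mul, PP_eval, MvPolynomial.aeval_X]
    have v3 : vv 3 = a 0 ^ 2 * s.eval (a 0) := by
      simp only [hvv, v, Matrix.cons_val, map_mul, map_pow, PP_eval, MvPolynomial.aeval_X]
    have z0 : zz 0 = 1 := by simp [hzz]
    have z1 : zz 1 = a 0 := by simp [hzz]
    have z2 : zz 2 = a 1 := by simp [hzz]
    change vv 3 * _ = 0
    have hT := Cub.T_pt hiso zz vv
    rw [Cub.comap_apply, CN_cube h] at hT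
    have e0 : (gE ξ η (pt zz vv)) (.inl 0) = vv 0 := by
      simp [gE, pt_apply]
    have e1 : (gE ξ η (pt zz vv)) (.inl 1) = a 0 * (vv 0 - m.eval (a 0)) := by
      simp [gE, pt_apply, z2, v0, v1, v2, v3]
      ring
    have e2 : (gE ξ η (pt zz vv)) (.inl 2) = a 0 * w.eval (a 0) := by
      simp [gE, pt_apply, v1]
    have ez : pZ ℂ (gE ξ η (pt zz vv)) = (a 0 * s.eval (a 0)) • nu (a 0) := by
      funext i
      fin_cases i
      · simp [gE, pt_apply, nu, v2]
      · simp [gE, pt_apply, nu, v3, z0]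
        ring
      · simp [gE, pt_apply, nu, v3, z1]
        ring
    have f0 : (gE ξ η (pt zz vv)) (.inr 0) = a 0 * s.eval (a 0) := by
      have := congrFun ez 0
      simpa [nu] using this
    have f1 : (gE ξ η (pt zz vv)) (.inr 1) = a 0 * s.eval (a 0) * a 0 := by
      have := congrFun ez 1
      simpa [nu] using this
    have f2 : (gE ξ η (pt zz vv)) (.inr 2) = a 0 * s.eval (a 0) * a 0 ^ 2 := by
      have := congrFun ez 2
      simpa [nu] using this
    rw [ez, al_smul, be_smul, ga_smul, e0, e1, e2, f0, f1, f2] at hT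
    have hq := heq (a 0)
    have h3' : 3 * (vv 3 * (c.comap (gE ξ η)).nf zz vv vv) = 0 := by
      have hc : (3 : ℂ) * (vv 3 * (c.comap (gE ξ η)).nf zz vv vv) =
        3 * vv 3 * (c.comap (gE ξ η)).nf zz vv vv := by ring
      rw [hc, ← hT]
      linear_combination (a 0 ^ 3 * s.eval (a 0)) * hq
    exact (mul_eq_zero.1 h3').resolve_left (by norm_num)
  exact (mul_eq_zero.1 key).resolve_left hv3

end Pool.Agent.Helper29.TR
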