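import Mathlib
import Pool.Agent.Helper16.CubicHom
import Pool.Agent.Helper16.CubicSing

set_option autoImplicit false

namespace Pool.Agent.Helper29.TR

open MvPolynomial Module Pool.Agent.Helper16

/-- the trilinear form of homogeneous vectors is homogeneous -/
private theorem sh_ext_hom (c : Cub (I6 → ℂ)) {x y z : I6 → R3} {a b d : ℕ}
    (hx : ∀ i, (x i).IsHomogeneous a) (hy : ∀ i, (y i).IsHomogeneous b)
    (hz : ∀ i, (z i).IsHomogeneous d) : (c.ext R3 x y z).IsHomogeneous (a + b + d) := by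
  rw [Cub.ext_apply]
  refine IsHomogeneous.sum _ _ _ fun i _ => IsHomogeneous.sum _ _ _ fun j _ =>
    IsHomogeneous.sum _ _ _ fun k _ => ?_
  have h0 : (algebraMap ℂ R3 (c.t i j k)).IsHomogeneous 0 := isHomogeneous_C _ _
  have h1 := ((h0.mul (hx i)).mul (hy j)).mul (hz k)
  rwa [zero_add] at h1

/-- dehomogenisation at the first coordinate -/
private noncomputable def sh_dh : R3 →ₐ[ℂ] MvPolynomial (Fin 2) ℂ :=
  aeval (Fin.cons 1 X)

private theorem sh_eval_dh (x : Fin 2 → ℂ) (G : R3) :
    eval x (sh_dh G) = eval (Fin.cons 1 x : Fin 3 → ℂ) G := by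
  have : (aeval x : MvPolynomial (Fin 2) ℂ →ₐ[ℂ] ℂ).comp sh_dh =
      aeval (Fin.cons 1 x : Fin 3 → ℂ) := by
    apply MvPolynomial.algHom_ext
    intro i
    refine Fin.cases ?_ (fun j => ?_) i
    · simp [sh_dh]
    · simp [sh_dh]
  have h := DFunLike.congr_fun this G
  simpa [aeval_eq_eval] using h

private theorem sh_dh_inj {G : R3} {n : ℕ} (hG : G.IsHomogeneous n) (h : sh_dh G = 0) :
    G = 0 := by
  have h0 : X 0 * G = 0 := by
    apply MvPolynomial.funext
    intro v
    rw [map_mul, eval_X, map_zero]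
    by_cases hv : v 0 = 0
    · rw [hv, zero_mul]
    · have hv' : v = v 0 • (Fin.cons 1 (fun i => (v 0)⁻¹ * v i.succ) : Fin 3 → ℂ) := by
        funext i
        refine Fin.cases ?_ (fun j => ?_) i
        · simp
        · simp [hv]
      have : eval v G = 0 := by
        rw [hv', eval_smul_hom hG, ← sh_eval_dh, h, map_zero, mul_zero]
      rw [this, mul_zero]
  rcases mul_eq_zero.mp h0 with h1 | h1
  · exact absurd h1 (X_ne_zero 0)
  · exact h1

/-- homogenisation to degree `n` -/
private noncomputable def sh_hm (n : ℕ) (p : MvPolynomial (Fin 2) ℂ) : R3 :=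
  ∑ i ∈ Finset.range (n + 1), X 0 ^ (n - i) * rename Fin.succ (homogeneousComponent i p)

private theorem sh_hm_hom (n : ℕ) (p : MvPolynomial (Fin 2) ℂ) :
    (sh_hm n p).IsHomogeneous n := by
  apply IsHomogeneous.sum
  intro i hi
  have h1 : (X 0 ^ (n - i) : R3).IsHomogeneous (n - i) := isHomogeneous_X_pow _ _
  have h2 : (rename Fin.succ (homogeneousComponent i p) : R3).IsHomogeneous i :=
    (homogeneousComponent_isHomogeneous i p).rename_isHomogeneous
  have h3 := h1.mul h2
  have : n - i + i = n := by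
    have := Finset.mem_range.mp hi; omega
  rwa [this] at h3

private theorem sh_dh_hm {n : ℕ} {p : MvPolynomial (Fin 2) ℂ} (hp : p.totalDegree ≤ n) :
    sh_dh (sh_hm n p) = p := by
  have h1 : ∀ q : MvPolynomial (Fin 2) ℂ, sh_dh (rename Fin.succ q) = q := by
    intro q
    rw [sh_dh, aeval_rename]
    have : ((Fin.cons 1 X : Fin 3 → MvPolynomial (Fin 2) ℂ) ∘ Fin.succ) = X := by
      funext i; simp
    rw [this]; simp
  have h2 : sh_dh (X 0) = 1 := by simp [sh_dh]
  unfold sh_hm
  rw [map_sum]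
  simp only [map_mul, map_pow, h1, h2, one_pow, one_mul]
  have hs := sum_homogeneousComponent p
  have hsub : Finset.range (p.totalDegree + 1) ⊆ Finset.range (n + 1) :=
    Finset.range_mono (by omega)
  rw [← Finset.sum_subset hsub, hs]
  intro i _ hi
  apply homogeneousComponent_eq_zero
  simp only [Finset.mem_range, not_lt] at hi; omega

/-- Piece RC3. A section over the affine chart of the plane can be made homogeneous. -/
theorem section_hom (c : Cub (I6 → ℂ)) (v : Fin 4 → MvPolynomial (Fin 2) ℂ) (h3 : v 3 ≠ 0)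
    (h : c.nf (![1, X 0, X 1] : Fin 3 → MvPolynomial (Fin 2) ℂ) v v = 0) :
    ∃ (N : ℕ) (v' : Fin 4 → R3), (∀ a : Fin 3, (v' a.castSucc).IsHomogeneous (N + 1)) ∧
      (v' 3).IsHomogeneous N ∧ v' 3 ≠ 0 ∧ c.nf (X : Fin 3 → R3) v' v' = 0 := by
  set N : ℕ := ∑ a, (v a).totalDegree with hN
  have hle : ∀ a, (v a).totalDegree ≤ N := fun a =>
    Finset.single_le_sum (f := fun a => (v a).totalDegree) (fun _ _ => Nat.zero_le _)
      (Finset.mem_univ a)
  set v' : Fin 4 → R3 := ![sh_hm (N + 1) (v 0), sh_hm (N + 1) (v 1), sh_hm (N + 1) (v 2),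
    sh_hm N (v 3)] with hv'
  have hc : ∀ a : Fin 3, v' a.castSucc = sh_hm (N + 1) (v a.castSucc) := by
    intro a; fin_cases a <;> rfl
  have hc3 : v' 3 = sh_hm N (v 3) := rfl
  have hd : (fun i => sh_dh (v' i)) = v := by
    funext i
    fin_cases i
    · exact sh_dh_hm ((hle 0).trans (Nat.le_succ N))
    · exact sh_dh_hm ((hle 1).trans (Nat.le_succ N))
    · exact sh_dh_hm ((hle 2).trans (Nat.le_succ N))
    · exact sh_dh_hm (hle 3)
  have hz : (fun i => sh_dh ((X : Fin 3 → R3) i)) =
      (![1, X 0, X 1] : Fin 3 → MvPolynomial (Fin 2) ℂ) := by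
    funext i
    fin_cases i
    · simp [sh_dh]
    · simp only [sh_dh, aeval_X]; rfl
    · simp only [sh_dh, aeval_X]; rfl
  have hh : ∀ a : Fin 3, (v' a.castSucc).IsHomogeneous (N + 1) := fun a => by
    rw [hc]; exact sh_hm_hom _ _
  have hh3 : (v' 3).IsHomogeneous N := by rw [hc3]; exact sh_hm_hom _ _
  refine ⟨N, v', hh, hh3, ?_, ?_⟩
  · intro h0
    have := congrFun hd 3
    simp only [h0, map_zero] at this
    exact h3 this.symm
  · have hY : ∀ i, (vY R3 v' i).IsHomogeneous (N + 1) := by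
      intro i
      rcases i with i | i
      · rw [vY_inl]; exact hh i
      · rw [vY_inr]; exact isHomogeneous_zero _ _ _
    have hZ : ∀ i, (iZ R3 (X : Fin 3 → R3) i).IsHomogeneous 1 := by
      intro i
      rcases i with i | i
      · have : iZ R3 (X : Fin 3 → R3) (.inl i) = 0 := by simp
        rw [this]; exact isHomogeneous_zero _ _ _
      · have : iZ R3 (X : Fin 3 → R3) (.inr i) = X i := by simp
        rw [this]; exact isHomogeneous_X _ _
    have hC : ∀ r : ℂ, (algebraMap ℂ R3 r).IsHomogeneous 0 := fun r => isHomogeneous_C _ _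
    have e1 := sh_ext_hom c hY hY hZ
    have e2 := sh_ext_hom c hY hZ hZ
    have e3 := sh_ext_hom c hZ hZ hZ
    have hom : (c.nf (X : Fin 3 → R3) v' v').IsHomogeneous (2 * N + 3) := by
      rw [Cub.nf_apply]
      refine (IsHomogeneous.add ?_ ?_).add ?_
      · have := e1
        rwa [show N + 1 + (N + 1) + 1 = 2 * N + 3 by ring] at this
      · have := (hC (1/2)).mul ((hh3.mul e2).add (hh3.mul e2))
        rwa [show 0 + (N + (N + 1 + 1 + 1)) = 2 * N + 3 by ring] at this
      · have := (hC (1/3)).mul ((hh3.mul hh3).mul e3)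
        rwa [show 0 + (N + N + (1 + 1 + 1)) = 2 * N + 3 by ring] at this
    apply sh_dh_inj hom
    rw [Cub.map_nf, hz, hd, h]

end Pool.Agent.Helper29.TR
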