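import Mathlib
import Pool.Agent.Helper16.CommonZero

set_option autoImplicit false

namespace Pool.Agent.Helper29.TR

open MvPolynomial Module Pool.Agent.Helper16

/-- Piece K1. `n` quadratic forms in `n + 1` variables have a common nontrivial zero. -/
theorem forms_zero {n : ℕ} (p : Fin n → MvPolynomial (Fin (n + 1)) ℂ)
    (h : ∀ i, (p i).IsHomogeneous 2) :
    ∃ x : Fin (n + 1) → ℂ, x ≠ 0 ∧ ∀ i, eval x (p i) = 0 := by
  refine exists_common_zero p (fun i => ?_) (by simp)
  have h1 := (h i).coeff_eq_zero (d := 0) (by simp)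
  rw [← constantCoeff_eq] at h1
  rw [← h1, constantCoeff_eq, eval_zero, constantCoeff_eq]

end Pool.Agent.Helper29.TR
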