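import Mathlib
import Pool.Agent.Helper29.TR.St.Krull

set_option autoImplicit false

namespace Pool.Agent.Helper29.TR

open MvPolynomial Module Pool.Agent.Helper16

/-- Piece K2. A quadratic map to a space of smaller dimension has a nontrivial zero. -/
theorem quad_zero {V W : Type*} [AddCommGroup V] [Module ℂ V] [FiniteDimensional ℂ V]
    [AddCommGroup W] [Module ℂ W] [FiniteDimensional ℂ W] (β : V →ₗ[ℂ] V →ₗ[ℂ] W)
    (h : finrank ℂ W < finrank ℂ V) : ∃ x : V, x ≠ 0 ∧ β x x = 0 := by
  classical
  set n := finrank ℂ W with hn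
  let bV := Module.finBasis ℂ V
  let bW := Module.finBasis ℂ W
  let v : Fin (n + 1) → V := fun i => bV (Fin.castLE h i)
  have hv : LinearIndependent ℂ v :=
    bV.linearIndependent.comp _ (Fin.castLE_injective h)
  let p : Fin n → MvPolynomial (Fin (n + 1)) ℂ := fun j =>
    ∑ i, ∑ k, C (bW.repr (β (v i) (v k)) j) * (X i * X k)
  have hp : ∀ j, (p j).IsHomogeneous 2 := by
    intro j
    refine MvPolynomial.IsHomogeneous.sum _ _ _ fun i _ => ?_
    refine MvPolynomial.IsHomogeneous.sum _ _ _ fun k _ => ?_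
    have h1 : (X i * X k : MvPolynomial (Fin (n + 1)) ℂ).IsHomogeneous (1 + 1) :=
      (isHomogeneous_X ℂ i).mul (isHomogeneous_X ℂ k)
    have h2 := (isHomogeneous_C (Fin (n + 1)) (bW.repr (β (v i) (v k)) j)).mul h1
    simpa using h2
  obtain ⟨x, hx0, hx⟩ := forms_zero p hp
  refine ⟨∑ i, x i • v i, ?_, ?_⟩
  · intro hz
    apply hx0
    funext i
    exact Fintype.linearIndependent_iff.1 hv x hz i
  · apply bW.repr.injective
    rw [map_zero]
    ext j
    have h1 := hx j
    simp only [p, map_sum, map_mul, eval_C, eval_X] at h1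
    have h2 : bW.repr (β (∑ i, x i • v i) (∑ i, x i • v i)) j =
        ∑ i, ∑ k, bW.repr (β (v i) (v k)) j * (x i * x k) := by
      simp only [map_sum, map_smul, LinearMap.sum_apply, LinearMap.smul_apply,
        Finsupp.coe_finsetSum, Finset.sum_apply, Finsupp.smul_apply, smul_eq_mul, Finset.mul_sum]
      rw [Finset.sum_comm]
      refine Finset.sum_congr rfl fun i _ => Finset.sum_congr rfl fun k _ => ?_
      ring
    rw [h2, h1]
    rfl

/-- A quadratic map between spaces of equal dimension which has only the trivial zero is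
surjective. -/
theorem quad_surj {V W : Type*} [AddCommGroup V] [Module ℂ V] [FiniteDimensional ℂ V]
    [AddCommGroup W] [Module ℂ W] [FiniteDimensional ℂ W] (β : V →ₗ[ℂ] V →ₗ[ℂ] W)
    (h : finrank ℂ W = finrank ℂ V) (h0 : ∀ x, β x x = 0 → x = 0) (w : W) :
    ∃ x, β x x = w := by
  let γ : (V × ℂ) →ₗ[ℂ] (V × ℂ) →ₗ[ℂ] W :=
    LinearMap.mk₂ ℂ (fun a b => β a.1 b.1 - (a.2 * b.2) • w)
      (fun a a' b => by
        simp only [Prod.fst_add, Prod.snd_add, map_add, LinearMap.add_apply, add_mul, add_smul]
        abel)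
      (fun c a b => by
        simp only [Prod.smul_fst, Prod.smul_snd, map_smul, LinearMap.smul_apply, smul_eq_mul,
          smul_sub, smul_smul, mul_assoc])
      (fun a b b' => by
        simp only [Prod.fst_add, Prod.snd_add, map_add, mul_add, add_smul]
        abel)
      (fun c a b => by
        simp only [Prod.smul_fst, Prod.smul_snd, map_smul, smul_eq_mul, smul_sub, smul_smul]
        congr 2
        ring)
  have hdim : finrank ℂ W < finrank ℂ (V × ℂ) := by
    rw [Module.finrank_prod, Module.finrank_self]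
    omega
  obtain ⟨⟨x, t⟩, hne, hz⟩ := quad_zero γ hdim
  have hz' : β x x = (t * t) • w := sub_eq_zero.1 hz
  by_cases ht : t = 0
  · exfalso
    rw [ht, mul_zero, zero_smul] at hz'
    have hx := h0 x hz'
    exact hne (by rw [hx, ht]; rfl)
  · refine ⟨t⁻¹ • x, ?_⟩
    simp only [map_smul, LinearMap.smul_apply]
    rw [hz', smul_smul, smul_smul]
    have : t⁻¹ * t⁻¹ * (t * t) = 1 := by
      field_simp
    rw [this, one_smul]

end Pool.Agent.Helper29.TR
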