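import Mathlib
import Pool.Agent.Helper29.TR.St.QuadZero

set_option autoImplicit false

namespace Pool.Agent.Helper29.TR

open MvPolynomial Module Pool.Agent.Helper16

/-- polynomial with given coefficients -/
private noncomputable def pol (n : ℕ) : (Fin n → ℂ) →ₗ[ℂ] Polynomial ℂ :=
  ∑ i : Fin n, (LinearMap.proj i).smulRight ((Polynomial.X : Polynomial ℂ) ^ (i : ℕ))

private theorem pol_apply (n : ℕ) (v : Fin n → ℂ) :
    pol n v = ∑ i : Fin n, v i • (Polynomial.X : Polynomial ℂ) ^ (i : ℕ) := by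
  simp [pol, LinearMap.sum_apply]

private theorem pol_natDegree (n : ℕ) (v : Fin (n + 1) → ℂ) : (pol (n + 1) v).natDegree ≤ n := by
  rw [pol_apply]
  refine Polynomial.natDegree_sum_le_of_forall_le _ _ fun i _ => ?_
  refine (Polynomial.natDegree_smul_le _ _).trans ?_
  rw [Polynomial.natDegree_X_pow]
  omega

private theorem pol_coeff (n : ℕ) (v : Fin n → ℂ) (j : Fin n) : (pol n v).coeff j = v j := by
  rw [pol_apply, Polynomial.finsetSum_coeff]
  rw [Finset.sum_eq_single j]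
  · simp
  · intro i _ hij
    have : (j : ℕ) ≠ (i : ℕ) := fun h => hij (Fin.ext h.symm)
    simp [Polynomial.coeff_X_pow, this]
  · intro h
    exact absurd (Finset.mem_univ j) h

private theorem pol_eq_zero (n : ℕ) (v : Fin n → ℂ) (h : pol n v = 0) : v = 0 := by
  ext j
  rw [← pol_coeff n v j, h]
  simp

/-- the bilinear map -/
private noncomputable def Bil (α β γ : Polynomial ℂ) :
    ((Fin 4 → ℂ) × (Fin 3 → ℂ) × ℂ) →ₗ[ℂ] ((Fin 4 → ℂ) × (Fin 3 → ℂ) × ℂ) →ₗ[ℂ] Polynomial ℂ :=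
  LinearMap.mk₂ ℂ (fun x y => 3 * pol 4 x.1 * pol 4 y.1 + 3 * α * pol 3 x.2.1 * pol 3 y.2.1 +
      3 * β * pol 3 x.2.1 * Polynomial.C y.2.2 + γ * Polynomial.C x.2.2 * Polynomial.C y.2.2)
    (by
      intro x x' y
      simp only [Prod.fst_add, Prod.snd_add, map_add]
      ring)
    (by
      intro a x y
      simp only [Prod.smul_fst, Prod.smul_snd, map_smul, smul_eq_mul, map_mul,
        Polynomial.smul_eq_C_mul]
      ring)
    (by
      intro x y y'
      simp only [Prod.fst_add, Prod.snd_add, map_add]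
      ring)
    (by
      intro a x y
      simp only [Prod.smul_fst, Prod.smul_snd, map_smul, smul_eq_mul, map_mul,
        Polynomial.smul_eq_C_mul]
      ring)

private theorem Bil_apply (α β γ : Polynomial ℂ) (x y : (Fin 4 → ℂ) × (Fin 3 → ℂ) × ℂ) :
    Bil α β γ x y = 3 * pol 4 x.1 * pol 4 y.1 + 3 * α * pol 3 x.2.1 * pol 3 y.2.1 +
      3 * β * pol 3 x.2.1 * Polynomial.C y.2.2 + γ * Polynomial.C x.2.2 * Polynomial.C y.2.2 :=
  rfl

private theorem nd_mul {p q : Polynomial ℂ} {a b c : ℕ} (hp : p.natDegree ≤ a)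
    (hq : q.natDegree ≤ b) (h : a + b ≤ c) : (p * q).natDegree ≤ c :=
  (Polynomial.natDegree_mul_le_of_le hp hq).trans h

private theorem nd3 (p : Polynomial ℂ) (a : ℕ) (hp : p.natDegree ≤ a) :
    (3 * p).natDegree ≤ a := by
  refine nd_mul (a := 0) (b := a) ?_ hp (by omega)
  have : (3 : Polynomial ℂ) = Polynomial.C 3 := (map_ofNat Polynomial.C 3).symm
  rw [this, Polynomial.natDegree_C]

private theorem Bil_natDegree (α β γ : Polynomial ℂ) (hα : α.natDegree ≤ 2)
    (hβ : β.natDegree ≤ 4) (hγ : γ.natDegree ≤ 6) (x y : (Fin 4 → ℂ) × (Fin 3 → ℂ) × ℂ) :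
    (Bil α β γ x y).natDegree ≤ 6 := by
  rw [Bil_apply]
  have h4 : ∀ v, (pol 4 v).natDegree ≤ 3 := fun v => pol_natDegree 3 v
  have h3 : ∀ v, (pol 3 v).natDegree ≤ 2 := fun v => pol_natDegree 2 v
  refine Polynomial.natDegree_add_le_of_degree_le (Polynomial.natDegree_add_le_of_degree_le
    (Polynomial.natDegree_add_le_of_degree_le ?_ ?_) ?_) ?_
  · exact nd_mul (nd3 _ 3 (h4 _)) (h4 _) (by omega)
  · exact nd_mul (nd_mul (c := 4) (nd3 _ 2 hα) (h3 _) (by omega)) (h3 _) (by omega)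
  · refine nd_mul (nd_mul (c := 6) (nd3 _ 4 hβ) (h3 _) (by omega)) (b := 0) ?_ (by omega)
    rw [Polynomial.natDegree_C]
  · refine nd_mul (nd_mul (c := 6) hγ (b := 0) ?_ (by omega)) (b := 0) ?_ (by omega)
    · rw [Polynomial.natDegree_C]
    · rw [Polynomial.natDegree_C]

/-- Piece C10. A special case of Tsen's theorem. -/
theorem tsen (α β γ : Polynomial ℂ) (hα : α.natDegree ≤ 2) (hβ : β.natDegree ≤ 4)
    (hγ : γ.natDegree ≤ 6) (hne : 4 * α * γ ≠ 3 * β ^ 2) :
    ∃ m w s : Polynomial ℂ, s ≠ 0 ∧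
      3 * m ^ 2 + 3 * α * w ^ 2 + 3 * β * w * s + γ * s ^ 2 = 0 := by
  set L : Polynomial ℂ →ₗ[ℂ] (Fin 7 → ℂ) := LinearMap.pi fun i : Fin 7 => Polynomial.lcoeff ℂ i
    with hL
  obtain ⟨x, hx, h0⟩ := quad_zero ((Bil α β γ).compr₂ L) (by simp)
  have hP : Bil α β γ x x = 0 := by
    ext j
    rw [Polynomial.coeff_zero]
    by_cases hj : j < 7
    · have h1 := congrFun h0 ⟨j, hj⟩
      simpa [hL] using h1
    · exact Polynomial.coeff_eq_zero_of_natDegree_lt
        (lt_of_le_of_lt (Bil_natDegree α β γ hα hβ hγ x x) (by omega))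
  rw [Bil_apply] at hP
  obtain ⟨m₀, w₀, s₀⟩ := x
  simp only at hP
  by_cases hs : s₀ = 0
  · subst hs
    set m := pol 4 m₀ with hm
    set w := pol 3 w₀ with hw
    have hQ : 3 * m ^ 2 + 3 * α * w ^ 2 = 0 := by
      simp only [map_zero, mul_zero, add_zero] at hP
      linear_combination hP
    have h3 : (3 : Polynomial ℂ) ≠ 0 := by norm_num
    by_cases hB : β * w = 0
    · have hm0 : m ≠ 0 := by
        intro hm0
        have hw0 : w ≠ 0 := by
          intro hw0
          apply hx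
          have e1 := pol_eq_zero 4 m₀ hm0
          have e2 := pol_eq_zero 3 w₀ hw0
          rw [e1, e2]
          rfl
        have hα0 : α = 0 := by
          rw [hm0] at hQ
          have : 3 * (α * w ^ 2) = 0 := by linear_combination hQ
          have h5 := (mul_eq_zero.mp this).resolve_left h3
          exact (mul_eq_zero.mp h5).resolve_right (pow_ne_zero 2 hw0)
        have hβ0 : β = 0 := (mul_eq_zero.mp hB).resolve_right hw0
        exact hne (by rw [hα0, hβ0]; ring)
      refine ⟨(3 + γ) * m - 6 * m, (3 + γ) * w, - (6 * m), ?_, ?_⟩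
      · rw [neg_ne_zero]
        exact mul_ne_zero (by norm_num) hm0
      · linear_combination (3 + γ) ^ 2 * hQ - 18 * m * (3 + γ) * hB
    · refine ⟨γ * m, γ * w, - (3 * β * w), ?_, ?_⟩
      · rw [neg_ne_zero, mul_assoc]
        exact mul_ne_zero h3 hB
      · linear_combination γ ^ 2 * hQ
  · refine ⟨pol 4 m₀, pol 3 w₀, Polynomial.C s₀, ?_, ?_⟩
    · rwa [Ne, Polynomial.C_eq_zero]
    · linear_combination hP

end Pool.Agent.Helper29.TR
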