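import Pool.Agent.Helper29.TR.Defs

set_option autoImplicit false

namespace Pool.Agent.Helper29.TR

open MvPolynomial Module Pool.Agent.Helper16

theorem pfdet_four {S : Type*} [CommRing S] (M : Matrix (Fin 4) (Fin 4) S) :
    M.det = M 0 0 * (M 1 1 * (M 2 2 * M 3 3 - M 2 3 * M 3 2) - M 1 2 * (M 2 1 * M 3 3 - M 2 3 * M 3 1)
        + M 1 3 * (M 2 1 * M 3 2 - M 2 2 * M 3 1))
      - M 0 1 * (M 1 0 * (M 2 2 * M 3 3 - M 2 3 * M 3 2) - M 1 2 * (M 2 0 * M 3 3 - M 2 3 * M 3 0)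
        + M 1 3 * (M 2 0 * M 3 2 - M 2 2 * M 3 0))
      + M 0 2 * (M 1 0 * (M 2 1 * M 3 3 - M 2 3 * M 3 1) - M 1 1 * (M 2 0 * M 3 3 - M 2 3 * M 3 0)
        + M 1 3 * (M 2 0 * M 3 1 - M 2 1 * M 3 0))
      - M 0 3 * (M 1 0 * (M 2 1 * M 3 2 - M 2 2 * M 3 1) - M 1 1 * (M 2 0 * M 3 2 - M 2 2 * M 3 0)
        + M 1 2 * (M 2 0 * M 3 1 - M 2 1 * M 3 0)) := by
  rw [Matrix.det_succ_row_zero]
  simp [Fin.sum_univ_succ, Matrix.det_fin_three, Fin.succAbove, Matrix.submatrix_apply]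
  ring

theorem pfdet_five {S : Type*} [CommRing S] (M : Matrix (Fin 5) (Fin 5) S) :
    M.det = M 0 0 * (M.submatrix (Fin.succAbove 0) (Fin.succAbove 0)).det
      - M 0 1 * (M.submatrix (Fin.succAbove 0) (Fin.succAbove 1)).det
      + M 0 2 * (M.submatrix (Fin.succAbove 0) (Fin.succAbove 2)).det
      - M 0 3 * (M.submatrix (Fin.succAbove 0) (Fin.succAbove 3)).det
      + M 0 4 * (M.submatrix (Fin.succAbove 0) (Fin.succAbove 4)).det := by
  rw [Matrix.det_succ_row_zero]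
  simp only [Fin.sum_univ_succ, Fin.sum_univ_zero]
  simp
  ring_nf

/-- Piece P2. The determinant is the square of the Pfaffian. -/
theorem det_eq {S : Type*} [CommRing S] {A : Matrix (Fin 6) (Fin 6) S} (h : Alt A) :
    A.det = pf6 A ^ 2 := by
  obtain ⟨h0, h1⟩ := h
  have e : A = !![0, A 0 1, A 0 2, A 0 3, A 0 4, A 0 5;
      -A 0 1, 0, A 1 2, A 1 3, A 1 4, A 1 5;
      -A 0 2, -A 1 2, 0, A 2 3, A 2 4, A 2 5;
      -A 0 3, -A 1 3, -A 2 3, 0, A 3 4, A 3 5;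
      -A 0 4, -A 1 4, -A 2 4, -A 3 4, 0, A 4 5;
      -A 0 5, -A 1 5, -A 2 5, -A 3 5, -A 4 5, 0] := by
    ext i j
    fin_cases i <;> fin_cases j <;> first | exact h0 _ | exact h1 _ _ | rfl
  unfold pf6 pf4
  generalize A 0 1 = a01 at *
  generalize A 0 2 = a02 at *
  generalize A 0 3 = a03 at *
  generalize A 0 4 = a04 at *
  generalize A 0 5 = a05 at *
  generalize A 1 2 = a12 at *
  generalize A 1 3 = a13 at *
  generalize A 1 4 = a14 at *
  generalize A 1 5 = a15 at *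
  generalize A 2 3 = a23 at *
  generalize A 2 4 = a24 at *
  generalize A 2 5 = a25 at *
  generalize A 3 4 = a34 at *
  generalize A 3 5 = a35 at *
  generalize A 4 5 = a45 at *
  rw [e, Matrix.det_succ_row_zero]
  simp only [Fin.sum_univ_succ, Fin.sum_univ_zero, pfdet_five, pfdet_four, Matrix.submatrix_apply]
  simp [Fin.succAbove]
  ring


end Pool.Agent.Helper29.TR
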