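import Mathlib
import Pool.Agent.Helper29.TR.St.PfDet

set_option autoImplicit false

namespace Pool.Agent.Helper29.TR

open MvPolynomial Module Pool.Agent.Helper16

private theorem pf6_map {R S : Type*} [CommRing R] [CommRing S] (f : R →+* S)
    (A : Matrix (Fin 6) (Fin 6) R) : pf6 (A.map f) = f (pf6 A) := by
  simp only [pf6, pf4, Matrix.map_apply, map_add, map_sub, map_mul]

private theorem alt_congr {R : Type*} [CommRing R] [IsDomain R] [CharZero R]
    (g A : Matrix (Fin 6) (Fin 6) R) (h : Alt A) : Alt (g.transpose * A * g) := by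
  have hA : A.transpose = -A := by
    ext i j
    rw [Matrix.transpose_apply, Matrix.neg_apply]
    exact h.2 i j
  have hT : (g.transpose * A * g).transpose = -(g.transpose * A * g) := by
    rw [Matrix.transpose_mul, Matrix.transpose_mul, Matrix.transpose_transpose, hA,
      Matrix.neg_mul, Matrix.mul_neg, Matrix.mul_assoc]
  have h2 : ∀ i j, (g.transpose * A * g) j i = -(g.transpose * A * g) i j := by
    intro i j
    have := congrFun (congrFun hT i) j
    rwa [Matrix.transpose_apply, Matrix.neg_apply] at this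
  refine ⟨fun i => ?_, h2⟩
  have h3 := h2 i i
  exact add_self_eq_zero.1 (by rw [← sub_neg_eq_add, ← h3, sub_self])

/-- Piece P3. The Pfaffian and congruence. -/
theorem pf_congr (g A : Matrix (Fin 6) (Fin 6) ℂ) (h : Alt A) :
    pf6 (g.transpose * A * g) = g.det * pf6 A := by
  classical
  let σ := (Fin 6 × Fin 6) ⊕ (Fin 6 × Fin 6)
  let G : Matrix (Fin 6) (Fin 6) (MvPolynomial σ ℂ) := Matrix.of fun i j => X (.inl (i, j))
  let B : Matrix (Fin 6) (Fin 6) (MvPolynomial σ ℂ) :=
    Matrix.of fun i j => X (.inr (i, j)) - X (.inr (j, i))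
  have hGij : ∀ i j, G i j = X (.inl (i, j)) := fun i j => rfl
  have hBij : ∀ i j, B i j = X (.inr (i, j)) - X (.inr (j, i)) := fun i j => rfl
  have hB : Alt B := by
    refine ⟨fun i => ?_, fun i j => ?_⟩
    · rw [hBij, sub_self]
    · rw [hBij, hBij, neg_sub]
  clear_value G B
  have hsq : pf6 (G.transpose * B * G) ^ 2 = (G.det * pf6 B) ^ 2 := by
    rw [← det_eq (alt_congr G B hB), Matrix.det_mul, Matrix.det_mul, Matrix.det_transpose,
      det_eq hB]
    ring
  -- evaluation
  have hev : ∀ (g A : Matrix (Fin 6) (Fin 6) ℂ), Alt A → ∃ φ : σ → ℂ,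
      eval φ (pf6 (G.transpose * B * G)) = pf6 (g.transpose * A * g) ∧
        eval φ (G.det * pf6 B) = g.det * pf6 A := by
    intro g A hA
    refine ⟨Sum.elim (fun p => g p.1 p.2) (fun p => A p.1 p.2 / 2), ?_⟩
    set φ : σ → ℂ := Sum.elim (fun p => g p.1 p.2) (fun p => A p.1 p.2 / 2) with hφ
    have hφ1 : ∀ p, φ (.inl p) = g p.1 p.2 := fun p => rfl
    have hφ2 : ∀ p, φ (.inr p) = A p.1 p.2 / 2 := fun p => rfl
    clear_value φ
    have hG : G.map (eval φ) = g := by
      ext i j
      rw [Matrix.map_apply, hGij, eval_X, hφ1]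
    have hB' : B.map (eval φ) = A := by
      ext i j
      rw [Matrix.map_apply, hBij, map_sub, eval_X, eval_X, hφ2, hφ2]
      dsimp only
      rw [hA.2 i j]
      ring
    constructor
    · rw [← pf6_map, Matrix.map_mul, Matrix.map_mul, Matrix.transpose_map, hG, hB']
    · rw [map_mul, ← pf6_map, hB', RingHom.map_det, RingHom.mapMatrix_apply, hG]
  rcases sq_eq_sq_iff_eq_or_eq_neg.1 hsq with h1 | h1
  · obtain ⟨φ, e1, e2⟩ := hev g A h
    rw [← e1, ← e2, h1]
  · exfalso
    let A0 : Matrix (Fin 6) (Fin 6) ℂ :=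
      !![0, 1, 0, 0, 0, 0; -1, 0, 0, 0, 0, 0; 0, 0, 0, 1, 0, 0; 0, 0, -1, 0, 0, 0;
        0, 0, 0, 0, 0, 1; 0, 0, 0, 0, -1, 0]
    have hA0 : Alt A0 := by
      refine ⟨fun i => ?_, fun i j => ?_⟩
      · fin_cases i <;> simp [A0]
      · fin_cases i <;> fin_cases j <;> simp [A0]
    have hpf : pf6 A0 = 1 := by
      simp [pf6, pf4, A0]
    obtain ⟨φ, e1, e2⟩ := hev 1 A0 hA0
    rw [h1, map_neg, e2, Matrix.transpose_one, Matrix.one_mul, Matrix.mul_one, Matrix.det_one,
      hpf, one_mul] at e1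
    norm_num at e1

end Pool.Agent.Helper29.TR
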