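import Mathlib

namespace Pool.Agent.Helper16
end Pool.Agent.Helper16

set_option autoImplicit false

namespace Pool.Agent.Helper29.TR

open MvPolynomial Module Pool.Agent.Helper16

/-- Piece P5. A standard lemma about linear families of linear maps. -/
theorem max_rank {U V W : Type*} [AddCommGroup U] [Module ℂ U] [AddCommGroup V] [Module ℂ V]
    [FiniteDimensional ℂ V] [AddCommGroup W] [Module ℂ W] [FiniteDimensional ℂ W]
    (N : U →ₗ[ℂ] V →ₗ[ℂ] W) (u0 : U)
    (hmax : ∀ u, finrank ℂ (LinearMap.range (N u)) ≤ finrank ℂ (LinearMap.range (N u0)))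
    (x : V) (hx : N u0 x = 0) (u : U) : N u x ∈ LinearMap.range (N u0) := by
  classical
  by_contra hy
  set r := finrank ℂ (LinearMap.range (N u0)) with hr
  -- a basis of the range and preimages
  let b : Basis (Fin r) ℂ (LinearMap.range (N u0)) := Module.finBasis ℂ _
  have hpre : ∀ i, ∃ v, N u0 v = (b i : W) := fun i => (b i).2
  choose xs hxs using hpre
  let c : Option (Fin r) → V := fun o => o.elim x xs
  let f0 : Option (Fin r) → W := fun o => o.elim (N u x) (fun i => (b i : W))
  have hspan : Submodule.span ℂ (Set.range fun i : Fin r => (b i : W)) ≤ LinearMap.range (N u0) := by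
    rw [Submodule.span_le]
    rintro _ ⟨i, rfl⟩
    exact (b i).2
  have hli0 : LinearIndependent ℂ (fun i : Fin r => (b i : W)) := by
    have := b.linearIndependent.map' (LinearMap.range (N u0)).subtype (Submodule.ker_subtype _)
    exact this
  have hli : LinearIndependent ℂ f0 := by
    rw [linearIndependent_option]
    exact ⟨hli0, fun h => hy (hspan h)⟩
  have hinj : Function.Injective (Fintype.linearCombination ℂ f0) := by
    exact hli.fintypeLinearCombination_injective
  obtain ⟨g, hg⟩ := LinearMap.exists_leftInverse_of_injective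
    (Fintype.linearCombination ℂ f0) (LinearMap.ker_eq_bot.2 hinj)
  have hgf : ∀ i, g (f0 i) = Pi.single i 1 := by
    intro i
    have := LinearMap.congr_fun hg (Pi.single i 1)
    simpa [Fintype.linearCombination_apply, Pi.single_apply] using this
  let D : Option (Fin r) → W := fun o => o.elim 0 (fun i => N u (xs i))
  let Mt : Matrix (Option (Fin r)) (Option (Fin r)) ℂ := Matrix.of fun i j => - (g (D i) j)
  obtain ⟨t, ht⟩ : ∃ t : ℂ, Mt.charpoly.eval t ≠ 0 := by
    by_contra hcon
    push Not at hcon
    exact Mt.charpoly_monic.ne_zero (Polynomial.funext (by simpa using hcon))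
  rw [Matrix.eval_charpoly] at ht
  -- the family
  let ft : Option (Fin r) → W := fun i => t • f0 i + D i
  have hgt : ∀ i, g (ft i) = (Matrix.scalar (Option (Fin r)) t - Mt) i := by
    intro i
    ext j
    simp only [ft, map_add, map_smul, hgf, Mt, Matrix.sub_apply, Matrix.scalar_apply,
      Matrix.diagonal_apply, Matrix.of_apply, Pi.add_apply, Pi.smul_apply, smul_eq_mul,
      Pi.single_apply, mul_ite, mul_one, mul_zero, sub_neg_eq_add, eq_comm]
  have hlt : LinearIndependent ℂ ft := by
    apply LinearIndependent.of_comp g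
    have h1 : (g ∘ ft) = (Matrix.scalar (Option (Fin r)) t - Mt).row := by
      funext i
      exact hgt i
    rw [h1]
    exact Matrix.linearIndependent_rows_of_isUnit
      ((Matrix.isUnit_iff_isUnit_det _).2 (isUnit_iff_ne_zero.2 ht))
  have hmem : ∀ i, ft i ∈ LinearMap.range (N (t • u0 + u)) := by
    intro o
    cases o with
    | none =>
      refine ⟨t • x, ?_⟩
      simp [ft, f0, D, hx]
    | some i =>
      refine ⟨xs i, ?_⟩
      simp [ft, f0, D, hxs]
  have h2 : finrank ℂ (Submodule.span ℂ (Set.range ft)) = Fintype.card (Option (Fin r)) :=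
    finrank_span_eq_card hlt
  have h3 : Submodule.span ℂ (Set.range ft) ≤ LinearMap.range (N (t • u0 + u)) := by
    rw [Submodule.span_le]
    rintro _ ⟨i, rfl⟩
    exact hmem i
  have h4 := Submodule.finrank_mono h3
  have h5 := hmax (t • u0 + u)
  rw [h2] at h4
  simp at h4
  omega

end Pool.Agent.Helper29.TR
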