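import Pool.Agent.Helper29.TR.Defs

set_option autoImplicit false
set_option linter.unusedSimpArgs false

namespace Pool.Agent.Helper29.TR

open MvPolynomial Module Pool.Agent.Helper16

/-- Piece P1. The Pfaffian adjugate is alternating. -/
theorem pst_alt {S : Type*} [CommRing S] (A : Matrix (Fin 6) (Fin 6) S) : Alt (pst A) := by
  constructor
  · intro i
    fin_cases i <;> rfl
  · intro i j
    fin_cases i <;> fin_cases j <;> simp [pst]

theorem mul_pst {S : Type*} [CommRing S] {A : Matrix (Fin 6) (Fin 6) S} (h : Alt A) :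
    A * pst A = pf6 A • (1 : Matrix (Fin 6) (Fin 6) S) := by
  have a10 : A 1 0 = -A 0 1 := h.2 0 1
  have a20 : A 2 0 = -A 0 2 := h.2 0 2
  have a30 : A 3 0 = -A 0 3 := h.2 0 3
  have a40 : A 4 0 = -A 0 4 := h.2 0 4
  have a50 : A 5 0 = -A 0 5 := h.2 0 5
  have a21 : A 2 1 = -A 1 2 := h.2 1 2
  have a31 : A 3 1 = -A 1 3 := h.2 1 3
  have a41 : A 4 1 = -A 1 4 := h.2 1 4
  have a51 : A 5 1 = -A 1 5 := h.2 1 5
  have a32 : A 3 2 = -A 2 3 := h.2 2 3
  have a42 : A 4 2 = -A 2 4 := h.2 2 4
  have a52 : A 5 2 = -A 2 5 := h.2 2 5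
  have a43 : A 4 3 = -A 3 4 := h.2 3 4
  have a53 : A 5 3 = -A 3 5 := h.2 3 5
  have a54 : A 5 4 = -A 4 5 := h.2 4 5
  have a00 : A 0 0 = 0 := h.1 0
  have a11 : A 1 1 = 0 := h.1 1
  have a22 : A 2 2 = 0 := h.1 2
  have a33 : A 3 3 = 0 := h.1 3
  have a44 : A 4 4 = 0 := h.1 4
  have a55 : A 5 5 = 0 := h.1 5
  ext i j
  fin_cases i <;> fin_cases j <;>
    simp [Matrix.mul_apply, Fin.sum_univ_six, pst, pf4, pf6, a10, a20, a30, a40, a50, a21, a31, a41, a51, a32, a42, a52, a43, a53, a54, a00, a11, a22, a33, a44, a55] <;> ring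

theorem pst_mul {S : Type*} [CommRing S] {A : Matrix (Fin 6) (Fin 6) S} (h : Alt A) :
    pst A * A = pf6 A • (1 : Matrix (Fin 6) (Fin 6) S) := by
  have h1 : A.transpose = -A := by ext i j; exact h.2 i j
  have h2 : (pst A).transpose = -(pst A) := by ext i j; exact (pst_alt A).2 i j
  have h3 := congrArg Matrix.transpose (mul_pst h)
  rw [Matrix.transpose_mul, h1, h2, Matrix.transpose_smul, Matrix.transpose_one] at h3
  rw [← h3, neg_mul_neg]

/-- A kernel vector is in the span of the columns of the Pfaffian adjugate.  (Up to sign the left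
side is `(A u) l * A m n + (A u) m * A n l + (A u) n * A l m` with `l, m, n` the other indices.) -/
theorem wedge {S : Type*} [CommRing S] {A : Matrix (Fin 6) (Fin 6) S} (h : Alt A) (u : Fin 6 → S)
    (hu : A.mulVec u = 0) (i j k : Fin 6) :
    u i * pst A j k + u j * pst A k i + u k * pst A i j = 0 := by
  have a10 : A 1 0 = -A 0 1 := h.2 0 1
  have a20 : A 2 0 = -A 0 2 := h.2 0 2
  have a30 : A 3 0 = -A 0 3 := h.2 0 3
  have a40 : A 4 0 = -A 0 4 := h.2 0 4
  have a50 : A 5 0 = -A 0 5 := h.2 0 5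
  have a21 : A 2 1 = -A 1 2 := h.2 1 2
  have a31 : A 3 1 = -A 1 3 := h.2 1 3
  have a41 : A 4 1 = -A 1 4 := h.2 1 4
  have a51 : A 5 1 = -A 1 5 := h.2 1 5
  have a32 : A 3 2 = -A 2 3 := h.2 2 3
  have a42 : A 4 2 = -A 2 4 := h.2 2 4
  have a52 : A 5 2 = -A 2 5 := h.2 2 5
  have a43 : A 4 3 = -A 3 4 := h.2 3 4
  have a53 : A 5 3 = -A 3 5 := h.2 3 5
  have a54 : A 5 4 = -A 4 5 := h.2 4 5
  have a00 : A 0 0 = 0 := h.1 0
  have a11 : A 1 1 = 0 := h.1 1
  have a22 : A 2 2 = 0 := h.1 2
  have a33 : A 3 3 = 0 := h.1 3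
  have a44 : A 4 4 = 0 := h.1 4
  have a55 : A 5 5 = 0 := h.1 5
  have g0 : 0 * u 0 + A 0 1 * u 1 + A 0 2 * u 2 + A 0 3 * u 3 + A 0 4 * u 4 + A 0 5 * u 5 = 0 := by
    have := congrFun hu 0
    simp only [Matrix.mulVec, dotProduct, Fin.sum_univ_six, Pi.zero_apply, a10, a20, a30, a40, a50, a21, a31, a41, a51, a32, a42, a52, a43, a53, a54, a00, a11, a22, a33, a44, a55] at this
    linear_combination this
  have g1 : (-A 0 1) * u 0 + 0 * u 1 + A 1 2 * u 2 + A 1 3 * u 3 + A 1 4 * u 4 + A 1 5 * u 5 = 0 := by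
    have := congrFun hu 1
    simp only [Matrix.mulVec, dotProduct, Fin.sum_univ_six, Pi.zero_apply, a10, a20, a30, a40, a50, a21, a31, a41, a51, a32, a42, a52, a43, a53, a54, a00, a11, a22, a33, a44, a55] at this
    linear_combination this
  have g2 : (-A 0 2) * u 0 + (-A 1 2) * u 1 + 0 * u 2 + A 2 3 * u 3 + A 2 4 * u 4 + A 2 5 * u 5 = 0 := by
    have := congrFun hu 2
    simp only [Matrix.mulVec, dotProduct, Fin.sum_univ_six, Pi.zero_apply, a10, a20, a30, a40, a50, a21, a31, a41, a51, a32, a42, a52, a43, a53, a54, a00, a11, a22, a33, a44, a55] at this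
    linear_combination this
  have g3 : (-A 0 3) * u 0 + (-A 1 3) * u 1 + (-A 2 3) * u 2 + 0 * u 3 + A 3 4 * u 4 + A 3 5 * u 5 = 0 := by
    have := congrFun hu 3
    simp only [Matrix.mulVec, dotProduct, Fin.sum_univ_six, Pi.zero_apply, a10, a20, a30, a40, a50, a21, a31, a41, a51, a32, a42, a52, a43, a53, a54, a00, a11, a22, a33, a44, a55] at this
    linear_combination this
  have g4 : (-A 0 4) * u 0 + (-A 1 4) * u 1 + (-A 2 4) * u 2 + (-A 3 4) * u 3 + 0 * u 4 + A 4 5 * u 5 = 0 := by
    have := congrFun hu 4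
    simp only [Matrix.mulVec, dotProduct, Fin.sum_univ_six, Pi.zero_apply, a10, a20, a30, a40, a50, a21, a31, a41, a51, a32, a42, a52, a43, a53, a54, a00, a11, a22, a33, a44, a55] at this
    linear_combination this
  have g5 : (-A 0 5) * u 0 + (-A 1 5) * u 1 + (-A 2 5) * u 2 + (-A 3 5) * u 3 + (-A 4 5) * u 4 + 0 * u 5 = 0 := by
    have := congrFun hu 5
    simp only [Matrix.mulVec, dotProduct, Fin.sum_univ_six, Pi.zero_apply, a10, a20, a30, a40, a50, a21, a31, a41, a51, a32, a42, a52, a43, a53, a54, a00, a11, a22, a33, a44, a55] at this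
    linear_combination this
  have h012 : u 0 * pst A 1 2 + u 1 * pst A 2 0 + u 2 * pst A 0 1 = 0 := by
    simp only [pst, pf4, Matrix.of_apply, Matrix.cons_val', Matrix.cons_val, Matrix.cons_val_zero, Matrix.cons_val_one]
    linear_combination (A 4 5) * g3 + (-A 3 5) * g4 + (A 3 4) * g5
  have h013 : u 0 * pst A 1 3 + u 1 * pst A 3 0 + u 3 * pst A 0 1 = 0 := by
    simp only [pst, pf4, Matrix.of_apply, Matrix.cons_val', Matrix.cons_val, Matrix.cons_val_zero, Matrix.cons_val_one]
    linear_combination (-A 4 5) * g2 + (A 2 5) * g4 + (-A 2 4) * g5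
  have h014 : u 0 * pst A 1 4 + u 1 * pst A 4 0 + u 4 * pst A 0 1 = 0 := by
    simp only [pst, pf4, Matrix.of_apply, Matrix.cons_val', Matrix.cons_val, Matrix.cons_val_zero, Matrix.cons_val_one]
    linear_combination (A 3 5) * g2 + (-A 2 5) * g3 + (A 2 3) * g5
  have h015 : u 0 * pst A 1 5 + u 1 * pst A 5 0 + u 5 * pst A 0 1 = 0 := by
    simp only [pst, pf4, Matrix.of_apply, Matrix.cons_val', Matrix.cons_val, Matrix.cons_val_zero, Matrix.cons_val_one]
    linear_combination (-A 3 4) * g2 + (A 2 4) * g3 + (-A 2 3) * g4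
  have h023 : u 0 * pst A 2 3 + u 2 * pst A 3 0 + u 3 * pst A 0 2 = 0 := by
    simp only [pst, pf4, Matrix.of_apply, Matrix.cons_val', Matrix.cons_val, Matrix.cons_val_zero, Matrix.cons_val_one]
    linear_combination (A 4 5) * g1 + (-A 1 5) * g4 + (A 1 4) * g5
  have h024 : u 0 * pst A 2 4 + u 2 * pst A 4 0 + u 4 * pst A 0 2 = 0 := by
    simp only [pst, pf4, Matrix.of_apply, Matrix.cons_val', Matrix.cons_val, Matrix.cons_val_zero, Matrix.cons_val_one]
    linear_combination (-A 3 5) * g1 + (A 1 5) * g3 + (-A 1 3) * g5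
  have h025 : u 0 * pst A 2 5 + u 2 * pst A 5 0 + u 5 * pst A 0 2 = 0 := by
    simp only [pst, pf4, Matrix.of_apply, Matrix.cons_val', Matrix.cons_val, Matrix.cons_val_zero, Matrix.cons_val_one]
    linear_combination (A 3 4) * g1 + (-A 1 4) * g3 + (A 1 3) * g4
  have h034 : u 0 * pst A 3 4 + u 3 * pst A 4 0 + u 4 * pst A 0 3 = 0 := by
    simp only [pst, pf4, Matrix.of_apply, Matrix.cons_val', Matrix.cons_val, Matrix.cons_val_zero, Matrix.cons_val_one]
    linear_combination (A 2 5) * g1 + (-A 1 5) * g2 + (A 1 2) * g5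
  have h035 : u 0 * pst A 3 5 + u 3 * pst A 5 0 + u 5 * pst A 0 3 = 0 := by
    simp only [pst, pf4, Matrix.of_apply, Matrix.cons_val', Matrix.cons_val, Matrix.cons_val_zero, Matrix.cons_val_one]
    linear_combination (-A 2 4) * g1 + (A 1 4) * g2 + (-A 1 2) * g4
  have h045 : u 0 * pst A 4 5 + u 4 * pst A 5 0 + u 5 * pst A 0 4 = 0 := by
    simp only [pst, pf4, Matrix.of_apply, Matrix.cons_val', Matrix.cons_val, Matrix.cons_val_zero, Matrix.cons_val_one]
    linear_combination (A 2 3) * g1 + (-A 1 3) * g2 + (A 1 2) * g3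
  have h123 : u 1 * pst A 2 3 + u 2 * pst A 3 1 + u 3 * pst A 1 2 = 0 := by
    simp only [pst, pf4, Matrix.of_apply, Matrix.cons_val', Matrix.cons_val, Matrix.cons_val_zero, Matrix.cons_val_one]
    linear_combination (-A 4 5) * g0 + (A 0 5) * g4 + (-A 0 4) * g5
  have h124 : u 1 * pst A 2 4 + u 2 * pst A 4 1 + u 4 * pst A 1 2 = 0 := by
    simp only [pst, pf4, Matrix.of_apply, Matrix.cons_val', Matrix.cons_val, Matrix.cons_val_zero, Matrix.cons_val_one]
    linear_combination (A 3 5) * g0 + (-A 0 5) * g3 + (A 0 3) * g5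
  have h125 : u 1 * pst A 2 5 + u 2 * pst A 5 1 + u 5 * pst A 1 2 = 0 := by
    simp only [pst, pf4, Matrix.of_apply, Matrix.cons_val', Matrix.cons_val, Matrix.cons_val_zero, Matrix.cons_val_one]
    linear_combination (-A 3 4) * g0 + (A 0 4) * g3 + (-A 0 3) * g4
  have h134 : u 1 * pst A 3 4 + u 3 * pst A 4 1 + u 4 * pst A 1 3 = 0 := by
    simp only [pst, pf4, Matrix.of_apply, Matrix.cons_val', Matrix.cons_val, Matrix.cons_val_zero, Matrix.cons_val_one]
    linear_combination (-A 2 5) * g0 + (A 0 5) * g2 + (-A 0 2) * g5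
  have h135 : u 1 * pst A 3 5 + u 3 * pst A 5 1 + u 5 * pst A 1 3 = 0 := by
    simp only [pst, pf4, Matrix.of_apply, Matrix.cons_val', Matrix.cons_val, Matrix.cons_val_zero, Matrix.cons_val_one]
    linear_combination (A 2 4) * g0 + (-A 0 4) * g2 + (A 0 2) * g4
  have h145 : u 1 * pst A 4 5 + u 4 * pst A 5 1 + u 5 * pst A 1 4 = 0 := by
    simp only [pst, pf4, Matrix.of_apply, Matrix.cons_val', Matrix.cons_val, Matrix.cons_val_zero, Matrix.cons_val_one]
    linear_combination (-A 2 3) * g0 + (A 0 3) * g2 + (-A 0 2) * g3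
  have h234 : u 2 * pst A 3 4 + u 3 * pst A 4 2 + u 4 * pst A 2 3 = 0 := by
    simp only [pst, pf4, Matrix.of_apply, Matrix.cons_val', Matrix.cons_val, Matrix.cons_val_zero, Matrix.cons_val_one]
    linear_combination (A 1 5) * g0 + (-A 0 5) * g1 + (A 0 1) * g5
  have h235 : u 2 * pst A 3 5 + u 3 * pst A 5 2 + u 5 * pst A 2 3 = 0 := by
    simp only [pst, pf4, Matrix.of_apply, Matrix.cons_val', Matrix.cons_val, Matrix.cons_val_zero, Matrix.cons_val_one]
    linear_combination (-A 1 4) * g0 + (A 0 4) * g1 + (-A 0 1) * g4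
  have h245 : u 2 * pst A 4 5 + u 4 * pst A 5 2 + u 5 * pst A 2 4 = 0 := by
    simp only [pst, pf4, Matrix.of_apply, Matrix.cons_val', Matrix.cons_val, Matrix.cons_val_zero, Matrix.cons_val_one]
    linear_combination (A 1 3) * g0 + (-A 0 3) * g1 + (A 0 1) * g3
  have h345 : u 3 * pst A 4 5 + u 4 * pst A 5 3 + u 5 * pst A 3 4 = 0 := by
    simp only [pst, pf4, Matrix.of_apply, Matrix.cons_val', Matrix.cons_val, Matrix.cons_val_zero, Matrix.cons_val_one]
    linear_combination (-A 1 2) * g0 + (A 0 2) * g1 + (-A 0 1) * g2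
  have hP := (pst_alt A).2
  have hD := (pst_alt A).1
  have key : ∀ i j k : Fin 6, i < j → j < k →
      u i * pst A j k + u j * pst A k i + u k * pst A i j = 0 := by
    intro i j k hij hjk
    fin_cases i <;> fin_cases j <;>
      first
        | exact absurd hij (by decide)
        | (fin_cases k <;>
            first
              | exact absurd hjk (by decide)
              | exact h012
              | exact h013
              | exact h014
              | exact h015
              | exact h023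
              | exact h024
              | exact h025
              | exact h034
              | exact h035
              | exact h045
              | exact h123
              | exact h124
              | exact h125
              | exact h134
              | exact h135
              | exact h145
              | exact h234
              | exact h235
              | exact h245
              | exact h345)
  rcases lt_trichotomy i j with hij | hij | hij
  · rcases lt_trichotomy j k with hjk | hjk | hjk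
    · exact key i j k hij hjk
    · subst hjk; rw [hD j, hP i j]; ring
    · rcases lt_trichotomy i k with hik | hik | hik
      · have := key i k j hik hjk; rw [hP k j, hP i k, hP j i] at *; linear_combination -this
      · subst hik; rw [hD i, hP i j]; ring
      · have := key k i j hik hij; linear_combination this
  · subst hij; rw [hD i, hP i k]; ring
  · rcases lt_trichotomy j k with hjk | hjk | hjk
    · rcases lt_trichotomy i k with hik | hik | hik
      · have := key j i k hij hik; linear_combination -this + u i * hP k j + u j * hP i k + u k * hP j i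
      · subst hik; rw [hD i, hP i j]; ring
      · have := key j k i hjk hik; linear_combination this
    · subst hjk; rw [hD j, hP i j]; ring
    · have := key k j i hjk hij; linear_combination -this + u i * hP k j + u j * hP i k + u k * hP j i

end Pool.Agent.Helper29.TR
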