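import Mathlib
import Pool.Agent.Helper29.TR.St.PfId

set_option autoImplicit false

namespace Pool.Agent.Helper29.TR

open MvPolynomial Module Pool.Agent.Helper16

private theorem pf6_add_sub (A B : Matrix (Fin 6) (Fin 6) ℂ) (h : pst A = 0) :
    pf6 (A + B) - pf6 (A - B) = 2 * pf6 B := by
  have e : ∀ i j, pst A i j = 0 := fun i j => by rw [h]; rfl
  have h01 : pf4 A 2 3 4 5 = 0 := by have := e 1 0; simpa [pst] using this
  have h02 : pf4 A 1 3 4 5 = 0 := by have := e 0 2; simpa [pst] using this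
  have h03 : pf4 A 1 2 4 5 = 0 := by have := e 3 0; simpa [pst] using this
  have h04 : pf4 A 1 2 3 5 = 0 := by have := e 0 4; simpa [pst] using this
  have h05 : pf4 A 1 2 3 4 = 0 := by have := e 5 0; simpa [pst] using this
  have h12 : pf4 A 0 3 4 5 = 0 := by have := e 2 1; simpa [pst] using this
  have h13 : pf4 A 0 2 4 5 = 0 := by have := e 1 3; simpa [pst] using this
  have h14 : pf4 A 0 2 3 5 = 0 := by have := e 4 1; simpa [pst] using this
  have h15 : pf4 A 0 2 3 4 = 0 := by have := e 1 5; simpa [pst] using this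
  have h23 : pf4 A 0 1 4 5 = 0 := by have := e 3 2; simpa [pst] using this
  have h24 : pf4 A 0 1 3 5 = 0 := by have := e 2 4; simpa [pst] using this
  have h25 : pf4 A 0 1 3 4 = 0 := by have := e 5 2; simpa [pst] using this
  have h34 : pf4 A 0 1 2 5 = 0 := by have := e 4 3; simpa [pst] using this
  have h35 : pf4 A 0 1 2 4 = 0 := by have := e 3 5; simpa [pst] using this
  have h45 : pf4 A 0 1 2 3 = 0 := by have := e 5 4; simpa [pst] using this
  simp only [pf4] at h01 h02 h03 h04 h05 h12 h13 h14 h15 h23 h24 h25 h34 h35 h45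
  simp only [pf6, pf4, Matrix.add_apply, Matrix.sub_apply]
  linear_combination (2 * B 0 1) * h01 - (2 * B 0 2) * h02 + (2 * B 0 3) * h03
    - (2 * B 0 4) * h04 + (2 * B 0 5) * h05 + (2 * B 1 2) * h12 - (2 * B 1 3) * h13
    + (2 * B 1 4) * h14 - (2 * B 1 5) * h15 + (2 * B 2 3) * h23 - (2 * B 2 4) * h24
    + (2 * B 2 5) * h25 + (2 * B 3 4) * h34 - (2 * B 3 5) * h35 + (2 * B 4 5) * h45

/-- Piece P4. The matrices of a Pfaffian presentation of a smooth cubic have rank at least four. -/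
theorem pst_ne_zero {c : Cub (I6 → ℂ)} (d : PfD c) {x : I6 → ℂ} (hx : x ≠ 0) :
    pst (d.M x) ≠ 0 := by
  intro h
  obtain ⟨y, hy⟩ := c.ns x hx
  apply hy
  have h1 := pf6_add_sub (d.M x) (d.M y) h
  rw [← map_add, ← map_sub, d.pf, d.pf, d.pf] at h1
  have h2 := c.cube_add x y
  have h3 := c.cube_add x (-y)
  rw [← sub_eq_add_neg] at h3
  simp only [map_neg, LinearMap.neg_apply, neg_neg] at h3
  rw [h2, h3] at h1
  have h4 : d.κ * c.T x x y = 0 := by linear_combination (1 / 6) * h1
  exact (mul_eq_zero.mp h4).resolve_left d.hκ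

theorem ker_le_two {c : Cub (I6 → ℂ)} (d : PfD c) {x : I6 → ℂ} (hx : x ≠ 0)
    {u : Fin 3 → (Fin 6 → ℂ)} (hu : LinearIndependent ℂ u) :
    ¬ ∀ i, (d.M x).mulVec (u i) = 0 := by
  intro hk
  obtain ⟨j, k, hjk⟩ : ∃ j k, pst (d.M x) j k ≠ 0 := by
    by_contra hcon
    push Not at hcon
    exact pst_ne_zero d hx (by ext j k; exact hcon j k)
  let f : (Fin 6 → ℂ) →ₗ[ℂ] (Fin 2 → ℂ) :=
    LinearMap.pi ![LinearMap.proj j, LinearMap.proj k]
  have hdep : ¬ LinearIndependent ℂ (f ∘ u) := by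
    intro hli
    have := hli.fintype_card_le_finrank
    simp at this
  rw [Fintype.not_linearIndependent_iff] at hdep
  obtain ⟨g, hg, i0, hi0⟩ := hdep
  set w : Fin 6 → ℂ := ∑ i, g i • u i with hw
  have hfw : f w = 0 := by
    rw [hw, map_sum]
    simpa using hg
  have hwj : w j = 0 := by simpa [f] using congrFun hfw 0
  have hwk : w k = 0 := by simpa [f] using congrFun hfw 1
  have hMw : (d.M x).mulVec w = 0 := by
    rw [hw, Matrix.mulVec_sum]
    refine Finset.sum_eq_zero fun i _ => ?_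
    rw [Matrix.mulVec_smul, hk i, smul_zero]
  have hw0 : w = 0 := by
    funext i
    have h := wedge (d.alt x) w hMw i j k
    rw [hwj, hwk] at h
    simp only [zero_mul, add_zero] at h
    exact (mul_eq_zero.mp h).resolve_right hjk
  rw [Fintype.linearIndependent_iff] at hu
  exact hi0 (hu g (by rw [← hw, hw0]) i0)

end Pool.Agent.Helper29.TR
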