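import Mathlib
import Pool.Agent.Helper29.TR.St.PfSmooth
import Pool.Agent.Helper29.TR.St.MaxRank

set_option autoImplicit false

namespace Pool.Agent.Helper29.TR

open MvPolynomial Module Pool.Agent.Helper16

private noncomputable def Nl {c : Cub (I6 → ℂ)} (d : PfD c) :
    (Fin 6 → ℂ) →ₗ[ℂ] (I6 → ℂ) →ₗ[ℂ] (Fin 6 → ℂ) :=
  LinearMap.mk₂ ℂ (fun u x => (d.M x).mulVec u)
    (fun u u' x => Matrix.mulVec_add _ _ _)
    (fun a u x => Matrix.mulVec_smul _ _ _)
    (fun u x x' => by
      show (d.M (x + x')).mulVec u = _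
      rw [map_add, Matrix.add_mulVec])
    (fun a u x => by
      show (d.M (a • x)).mulVec u = _
      rw [map_smul, Matrix.smul_mulVec])

private theorem Nl_apply {c : Cub (I6 → ℂ)} (d : PfD c) (u : Fin 6 → ℂ) (x : I6 → ℂ) :
    Nl d u x = (d.M x).mulVec u := rfl

private theorem alt_dot {A : Matrix (Fin 6) (Fin 6) ℂ} (h : Alt A) (v w : Fin 6 → ℂ) :
    v ⬝ᵥ A.mulVec w = -(A.mulVec v ⬝ᵥ w) := by
  have hT : A.transpose = -A := by
    ext i j
    rw [Matrix.transpose_apply, Matrix.neg_apply]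
    exact h.2 i j
  rw [Matrix.dotProduct_mulVec, ← Matrix.mulVec_transpose, hT, Matrix.neg_mulVec,
    neg_dotProduct]

private theorem alt_self {A : Matrix (Fin 6) (Fin 6) ℂ} (h : Alt A) (v : Fin 6 → ℂ) :
    v ⬝ᵥ A.mulVec v = 0 := by
  have h1 := alt_dot h v v
  rw [dotProduct_comm (A.mulVec v) v] at h1
  linear_combination (1 / 2) * h1

private theorem ker_finrank {c : Cub (I6 → ℂ)} (d : PfD c) {x : I6 → ℂ} (hx : x ≠ 0) :
    finrank ℂ (LinearMap.ker (d.M x).mulVecLin) ≤ 2 := by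
  by_contra hcon
  push Not at hcon
  obtain ⟨f, hf⟩ := exists_linearIndependent_of_le_finrank
    (R := ℂ) (M := LinearMap.ker (d.M x).mulVecLin) (n := 3) hcon
  refine ker_le_two d hx (u := fun i => (f i : Fin 6 → ℂ)) ?_ ?_
  · exact hf.map' (Submodule.subtype _) (Submodule.ker_subtype _)
  · intro i
    have := (f i).2
    rwa [LinearMap.mem_ker, Matrix.mulVecLin_apply] at this

private theorem no_pencil {c : Cub (I6 → ℂ)} (d : PfD c) (U : Submodule ℂ (Fin 6 → ℂ))
    (hU : finrank ℂ U ≤ 4) {x0 x1 : I6 → ℂ} (hind : LinearIndependent ℂ ![x0, x1])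
    (h0 : LinearMap.range (d.M x0).mulVecLin ≤ U) (h1 : LinearMap.range (d.M x1).mulVecLin ≤ U) :
    False := by
  have hx0 : x0 ≠ 0 := by simpa using hind.ne_zero 0
  have hx1 : x1 ≠ 0 := by simpa using hind.ne_zero 1
  have key : ∀ x : I6 → ℂ, x ≠ 0 → LinearMap.range (d.M x).mulVecLin ≤ U →
      LinearMap.range (d.M x).mulVecLin = U ∧ 4 ≤ finrank ℂ U := by
    intro x hx h
    have a1 := ker_finrank d hx
    have a2 := LinearMap.finrank_range_add_finrank_ker (d.M x).mulVecLin
    have a3 : finrank ℂ (Fin 6 → ℂ) = 6 := by simp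
    have a4 := Submodule.finrank_mono h
    refine ⟨Submodule.eq_of_le_of_finrank_le h ?_, ?_⟩ <;> omega
  obtain ⟨e0, f0⟩ := key x0 hx0 h0
  obtain ⟨e1, -⟩ := key x1 hx1 h1
  have hker : ∀ y z : I6 → ℂ, LinearMap.range (d.M y).mulVecLin = U →
      LinearMap.range (d.M z).mulVecLin = U → ∀ v, (d.M y).mulVec v = 0 →
      (d.M z).mulVec v = 0 := by
    intro y z hy hz v hv
    have hall : ∀ w, (d.M z).mulVec v ⬝ᵥ w = 0 := by
      intro w
      have hw : (d.M z).mulVec w ∈ LinearMap.range (d.M y).mulVecLin := by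
        rw [hy, ← hz]
        exact ⟨w, rfl⟩
      obtain ⟨w', hw'⟩ := hw
      rw [Matrix.mulVecLin_apply] at hw'
      have h2 := alt_dot (d.alt z) v w
      rw [← hw', alt_dot (d.alt y) v w', hv, zero_dotProduct] at h2
      linear_combination h2
    exact dotProduct_eq_zero _ hall
  -- factor `M x0` through `M x1`
  set A := (d.M x0).mulVecLin with hA
  set B := (d.M x1).mulVecLin with hB
  have hle : LinearMap.ker B ≤ LinearMap.ker A := by
    intro v hv
    rw [LinearMap.mem_ker] at hv ⊢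
    rw [hB, Matrix.mulVecLin_apply] at hv
    rw [hA, Matrix.mulVecLin_apply]
    exact hker x1 x0 e1 e0 v hv
  have hrange : ∀ y : LinearMap.range B,
      ((LinearMap.ker B).liftQ A hle) (B.quotKerEquivRange.symm y) ∈ LinearMap.range B := by
    intro y
    obtain ⟨v, hv⟩ := (Submodule.Quotient.mk_surjective (LinearMap.ker B))
      (B.quotKerEquivRange.symm y)
    rw [← hv, Submodule.liftQ_apply, e1, ← e0]
    exact ⟨v, rfl⟩
  let ψ : LinearMap.range B →ₗ[ℂ] LinearMap.range B :=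
    (((LinearMap.ker B).liftQ A hle) ∘ₗ B.quotKerEquivRange.symm.toLinearMap).codRestrict
      (LinearMap.range B) hrange
  have hnt : Nontrivial (LinearMap.range B) := by
    have : 0 < finrank ℂ (LinearMap.range B) := by rw [e1]; omega
    exact finrank_pos_iff.mp this
  obtain ⟨τ, hτ⟩ := Module.End.exists_eigenvalue (K := ℂ) (V := LinearMap.range B) ψ
  obtain ⟨y, hy⟩ := hτ.exists_hasEigenvector
  obtain ⟨cv, hcv⟩ : ∃ cv, B cv = (y : Fin 6 → ℂ) := y.2
  have hy' : y = ⟨B cv, ⟨cv, rfl⟩⟩ := Subtype.ext hcv.symm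
  have hBc : B cv ≠ 0 := by
    rw [hcv]
    intro h
    exact hy.2 (Subtype.ext h)
  have hsym : B.quotKerEquivRange.symm ⟨B cv, ⟨cv, rfl⟩⟩ = Submodule.Quotient.mk cv := by
    rw [LinearEquiv.symm_apply_eq]
    rfl
  have hAc : A cv = τ • B cv := by
    have h2 := hy.apply_eq_smul
    have h3 := congrArg (fun z : LinearMap.range B => (z : Fin 6 → ℂ)) h2
    have h4 : ((ψ y : LinearMap.range B) : Fin 6 → ℂ) = A cv := by
      rw [hy']
      show ((LinearMap.ker B).liftQ A hle) (B.quotKerEquivRange.symm ⟨B cv, ⟨cv, rfl⟩⟩) = A cv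
      rw [hsym, Submodule.liftQ_apply]
    rw [h4] at h3
    rw [h3, hcv]
    rfl
  -- the vector `x0 - τ x1`
  have hne : x0 - τ • x1 ≠ 0 := by
    intro h
    have h2 := (LinearIndependent.pair_iff.mp hind) 1 (-τ) (by
      rw [one_smul, neg_smul, ← sub_eq_add_neg]; exact h)
    exact one_ne_zero h2.1
  have h3 := ker_finrank d hne
  have hM : (d.M (x0 - τ • x1)).mulVecLin = A - τ • B := by
    apply LinearMap.ext
    intro v
    rw [LinearMap.sub_apply, LinearMap.smul_apply, hA, hB, Matrix.mulVecLin_apply,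
      Matrix.mulVecLin_apply, Matrix.mulVecLin_apply, map_sub, map_smul, Matrix.sub_mulVec,
      Matrix.smul_mulVec]
  rw [hM] at h3
  have hlt : LinearMap.ker B < LinearMap.ker (A - τ • B) := by
    refine lt_of_le_of_ne ?_ ?_
    · intro v hv
      have hv2 := hle hv
      rw [LinearMap.mem_ker] at hv hv2 ⊢
      rw [LinearMap.sub_apply, LinearMap.smul_apply, hv, hv2]
      simp
    · intro h
      have hc : cv ∈ LinearMap.ker (A - τ • B) := by
        rw [LinearMap.mem_ker, LinearMap.sub_apply, LinearMap.smul_apply, hAc, sub_self]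
      rw [← h, LinearMap.mem_ker] at hc
      exact hBc hc
  have h4 := Submodule.finrank_lt_finrank_of_lt hlt
  have h5 := LinearMap.finrank_range_add_finrank_ker B
  have h6 : finrank ℂ (Fin 6 → ℂ) = 6 := by simp
  rw [e1] at h5
  omega

/-- Piece P6. There is a vector which is in the kernel of only one matrix of the family. -/
theorem exists_u0 {c : Cub (I6 → ℂ)} (d : PfD c) :
    ∃ (u0 : Fin 6 → ℂ) (x0 : I6 → ℂ), u0 ≠ 0 ∧ x0 ≠ 0 ∧ (d.M x0).mulVec u0 = 0 ∧
      ∀ x, (d.M x).mulVec u0 = 0 → ∃ r : ℂ, x = r • x0 := by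
  have hbd : ∀ u, finrank ℂ (LinearMap.range (Nl d u)) ≤ 6 := by
    intro u
    have := Submodule.finrank_le (LinearMap.range (Nl d u))
    simpa using this
  obtain ⟨u0, hu0⟩ : ∃ u0, ∀ u, finrank ℂ (LinearMap.range (Nl d u)) ≤
      finrank ℂ (LinearMap.range (Nl d u0)) := by
    have hb : BddAbove (Set.range fun u => finrank ℂ (LinearMap.range (Nl d u))) := by
      refine ⟨6, ?_⟩
      rintro _ ⟨u, rfl⟩
      exact hbd u
    obtain ⟨u0, h⟩ := Nat.sSup_mem (Set.range_nonempty
      (fun u => finrank ℂ (LinearMap.range (Nl d u)))) hb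
    refine ⟨u0, fun u => ?_⟩
    have h2 := le_csSup hb (Set.mem_range_self u)
    rw [← h] at h2
    exact h2
  have hrk := LinearMap.finrank_range_add_finrank_ker (Nl d u0)
  have h6 : finrank ℂ (I6 → ℂ) = 6 := by simp [I6]
  have h6' : finrank ℂ (Fin 6 → ℂ) = 6 := by simp
  rw [h6] at hrk
  rcases Nat.lt_trichotomy (finrank ℂ (LinearMap.range (Nl d u0))) 5 with h | h | h
  · exfalso
    have hk : 2 ≤ finrank ℂ (LinearMap.ker (Nl d u0)) := by omega
    obtain ⟨f, hf⟩ := exists_linearIndependent_of_le_finrank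
      (R := ℂ) (M := LinearMap.ker (Nl d u0)) (n := 2) hk
    have hf' : LinearIndependent ℂ ![((f 0 : LinearMap.ker (Nl d u0)) : I6 → ℂ),
        ((f 1 : LinearMap.ker (Nl d u0)) : I6 → ℂ)] := by
      have h1 := hf.map' (Submodule.subtype _) (Submodule.ker_subtype _)
      have h2 : (⇑(Submodule.subtype (LinearMap.ker (Nl d u0))) ∘ f) =
          ![((f 0 : LinearMap.ker (Nl d u0)) : I6 → ℂ),
            ((f 1 : LinearMap.ker (Nl d u0)) : I6 → ℂ)] := by
        funext i
        fin_cases i <;> rfl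
      rwa [h2] at h1
    have hr : ∀ i, LinearMap.range (d.M ((f i : LinearMap.ker (Nl d u0)) : I6 → ℂ)).mulVecLin ≤
        LinearMap.range (Nl d u0) := by
      intro i
      rintro _ ⟨v, rfl⟩
      have h1 := max_rank (Nl d) u0 hu0 (f i : I6 → ℂ) (LinearMap.mem_ker.mp (f i).2) v
      rwa [Nl_apply] at h1
    exact no_pencil d _ (by omega) hf' (hr 0) (hr 1)
  · have hk : finrank ℂ (LinearMap.ker (Nl d u0)) = 1 := by omega
    obtain ⟨v, hv, hall⟩ := finrank_eq_one_iff'.mp hk
    refine ⟨u0, v, ?_, ?_, ?_, ?_⟩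
    · rintro rfl
      rw [map_zero, LinearMap.range_zero, finrank_bot] at h
      omega
    · intro h0
      exact hv (Subtype.ext h0)
    · exact LinearMap.mem_ker.mp v.2
    · intro x hx
      obtain ⟨r, hr⟩ := hall ⟨x, LinearMap.mem_ker.mpr hx⟩
      exact ⟨r, (congrArg Subtype.val hr).symm⟩
  · exfalso
    have hu0' : u0 ≠ 0 := by
      rintro rfl
      rw [map_zero, LinearMap.range_zero, finrank_bot] at h
      omega
    have htop : LinearMap.range (Nl d u0) = ⊤ := by
      refine Submodule.eq_top_of_finrank_eq ?_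
      have := hbd u0
      rw [h6']
      omega
    obtain ⟨i, hi⟩ := Function.ne_iff.mp hu0'
    have hmem : (Pi.single i 1 : Fin 6 → ℂ) ∈ LinearMap.range (Nl d u0) := by
      rw [htop]; trivial
    obtain ⟨x, hx⟩ := hmem
    have h1 := alt_self (d.alt x) u0
    rw [Nl_apply] at hx
    rw [hx, dotProduct_single, mul_one] at h1
    exact hi h1

end Pool.Agent.Helper29.TR
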