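import Mathlib
import Pool.Agent.Helper29.TR.St.PfCong
import Pool.Agent.Helper29.TR.St.PfPoint

set_option autoImplicit false

namespace Pool.Agent.Helper29.TR

open MvPolynomial Module Pool.Agent.Helper16

namespace PfMoveAux

/-- a permutation of `Fin 6` with prescribed values at `0` and `5` -/
theorem exists_perm {i j : Fin 6} (hij : i ≠ j) : ∃ σ : Equiv.Perm (Fin 6), σ 0 = i ∧ σ 5 = j := by
  have h0 : Equiv.swap (0 : Fin 6) i 0 = i := Equiv.swap_apply_left _ _
  have h1 : Equiv.swap (0 : Fin 6) i 5 ≠ i := by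
    intro h
    rw [← h0] at h
    have h2 := (Equiv.swap (0 : Fin 6) i).injective h
    rw [h0] at h
    exact absurd h2 (by decide)
  refine ⟨(Equiv.swap 0 i).trans (Equiv.swap (Equiv.swap (0 : Fin 6) i 5) j), ?_, ?_⟩
  · rw [Equiv.trans_apply, h0]
    exact Equiv.swap_apply_of_ne_of_ne h1.symm hij
  · rw [Equiv.trans_apply]
    exact Equiv.swap_apply_left _ _

/-- two vectors with a nonzero minor are the columns `0` and `5` of an invertible matrix -/
theorem exists_mat {u w : Fin 6 → ℂ} {i j : Fin 6} (hij : i ≠ j)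
    (h : u i * w j - u j * w i ≠ 0) :
    ∃ g : Matrix (Fin 6) (Fin 6) ℂ, g.det ≠ 0 ∧ g.mulVec (Pi.single 0 1) = u ∧
      g.mulVec (Pi.single 5 1) = w := by
  obtain ⟨σ, h0, h5⟩ := exists_perm hij
  have hi : ∀ b : Fin 6, b ≠ 0 → i ≠ σ b := by
    intro b hb hh
    rw [← h0] at hh
    exact hb (σ.injective hh).symm
  have hj : ∀ b : Fin 6, b ≠ 5 → j ≠ σ b := by
    intro b hb hh
    rw [← h5] at hh
    exact hb (σ.injective hh).symm
  refine ⟨Matrix.of fun a b => if b = 0 then u a else if b = 5 then w a else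
    if a = σ b then 1 else 0, ?_, ?_, ?_⟩
  · intro hdet
    obtain ⟨v, hv0, hv⟩ := Matrix.exists_mulVec_eq_zero_iff.2 hdet
    have hrow : ∀ a, u a * v 0 + w a * v 5 + ((if a = σ 1 then v 1 else 0) +
        (if a = σ 2 then v 2 else 0) + (if a = σ 3 then v 3 else 0) +
        (if a = σ 4 then v 4 else 0)) = 0 := by
      intro a
      have h1 := congrFun hv a
      simp [Matrix.mulVec, dotProduct, Fin.sum_univ_six] at h1
      linear_combination h1
    have ri := hrow i
    have rj := hrow j
    rw [if_neg (hi 1 (by decide)), if_neg (hi 2 (by decide)), if_neg (hi 3 (by decide)),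
      if_neg (hi 4 (by decide))] at ri
    rw [if_neg (hj 1 (by decide)), if_neg (hj 2 (by decide)), if_neg (hj 3 (by decide)),
      if_neg (hj 4 (by decide))] at rj
    have e0 : v 0 = 0 := by
      have h1 : (u i * w j - u j * w i) * v 0 = 0 := by
        linear_combination w j * ri - w i * rj
      exact (mul_eq_zero.1 h1).resolve_left h
    have e5 : v 5 = 0 := by
      have h1 : (u i * w j - u j * w i) * v 5 = 0 := by
        linear_combination u i * rj - u j * ri
      exact (mul_eq_zero.1 h1).resolve_left h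
    have inj : ∀ a b : Fin 6, a ≠ b → ¬ σ a = σ b := fun a b hab hh => hab (σ.injective hh)
    have e1 : v 1 = 0 := by
      have h1 := hrow (σ 1)
      rw [e0, e5, if_pos rfl, if_neg (inj 1 2 (by decide)), if_neg (inj 1 3 (by decide)),
        if_neg (inj 1 4 (by decide))] at h1
      linear_combination h1
    have e2 : v 2 = 0 := by
      have h1 := hrow (σ 2)
      rw [e0, e5, if_neg (inj 2 1 (by decide)), if_pos rfl, if_neg (inj 2 3 (by decide)),
        if_neg (inj 2 4 (by decide))] at h1
      linear_combination h1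
    have e3 : v 3 = 0 := by
      have h1 := hrow (σ 3)
      rw [e0, e5, if_neg (inj 3 1 (by decide)), if_neg (inj 3 2 (by decide)), if_pos rfl,
        if_neg (inj 3 4 (by decide))] at h1
      linear_combination h1
    have e4 : v 4 = 0 := by
      have h1 := hrow (σ 4)
      rw [e0, e5, if_neg (inj 4 1 (by decide)), if_neg (inj 4 2 (by decide)),
        if_neg (inj 4 3 (by decide)), if_pos rfl] at h1
      linear_combination h1
    apply hv0
    ext a
    fin_cases a <;> simp [e0, e1, e2, e3, e4, e5]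
  · ext a
    simp
  · ext a
    simp

theorem alt_congr (g A : Matrix (Fin 6) (Fin 6) ℂ) (h : Alt A) : Alt (g.transpose * A * g) := by
  have hA : A.transpose = -A := by
    ext i j
    rw [Matrix.transpose_apply, Matrix.neg_apply]
    exact h.2 i j
  have h1 : (g.transpose * A * g).transpose = -(g.transpose * A * g) := by
    rw [Matrix.transpose_mul, Matrix.transpose_mul, Matrix.transpose_transpose, hA,
      Matrix.neg_mul, Matrix.mul_neg, Matrix.mul_assoc]
  have h2 : ∀ i j, (g.transpose * A * g) j i = -(g.transpose * A * g) i j := by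
    intro i j
    have h3 := congrFun (congrFun h1 i) j
    rwa [Matrix.transpose_apply, Matrix.neg_apply] at h3
  refine ⟨fun i => ?_, h2⟩
  have h3 := h2 i i
  linear_combination (1 / 2 : ℂ) * h3

/-- change of basis in the six-dimensional space of the matrices -/
noncomputable def move {c : Cub (I6 → ℂ)} (d : PfD c) (g : Matrix (Fin 6) (Fin 6) ℂ)
    (hg : g.det ≠ 0) : PfD c where
  M :=
    { toFun := fun x => g.transpose * d.M x * g
      map_add' := fun x y => by rw [map_add, Matrix.mul_add, Matrix.add_mul]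
      map_smul' := fun r x => by
        rw [map_smul, Matrix.mul_smul, Matrix.smul_mul, RingHom.id_apply] }
  alt := fun x => alt_congr g _ (d.alt x)
  κ := g.det * d.κ
  hκ := mul_ne_zero hg d.hκ
  pf := fun x => by
    change pf6 (g.transpose * d.M x * g) = _
    rw [pf_congr g _ (d.alt x), d.pf, mul_assoc]

theorem move_mulVec {c : Cub (I6 → ℂ)} (d : PfD c) (g : Matrix (Fin 6) (Fin 6) ℂ)
    (hg : g.det ≠ 0) (x : I6 → ℂ) (v : Fin 6 → ℂ) :
    ((move d g hg).M x).mulVec v = g.transpose.mulVec ((d.M x).mulVec (g.mulVec v)) := by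
  change (g.transpose * d.M x * g).mulVec v = _
  rw [← Matrix.mulVec_mulVec, ← Matrix.mulVec_mulVec]

/-- an alternating nonzero matrix has a column which is not a multiple of a given vector -/
theorem exists_col {P : Matrix (Fin 6) (Fin 6) ℂ} (hP : Alt P) (hP0 : P ≠ 0) (u : Fin 6 → ℂ)
    (hu : u ≠ 0) : ∃ k i j : Fin 6, i ≠ j ∧ u i * P j k - u j * P i k ≠ 0 := by
  by_contra hcon
  push Not at hcon
  have hall : ∀ k i j, u i * P j k = u j * P i k := by
    intro k i j
    by_cases hij : i = j
    · rw [hij]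
    · exact sub_eq_zero.1 (hcon k i j hij)
  obtain ⟨i, hi⟩ := Function.ne_iff.1 hu
  rw [Pi.zero_apply] at hi
  -- every column is a multiple of `u`
  have hcol : ∀ a k, u i * P a k = u a * P i k := fun a k => hall k i a
  have hrow : ∀ k, P i k = 0 := by
    intro k
    have h1 := hcol k i
    rw [hP.1 i, mul_zero] at h1
    have h2 : P k i = 0 := (mul_eq_zero.1 h1).resolve_left hi
    rw [hP.2 k i, h2, neg_zero]
  apply hP0
  ext a k
  have h1 := hcol a k
  rw [hrow k, mul_zero] at h1
  exact (mul_eq_zero.1 h1).resolve_left hi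

end PfMoveAux

open PfMoveAux

/-- Piece P7. Special position. -/
theorem exists_special {c : Cub (I6 → ℂ)} (d : PfD c) :
    ∃ (d' : PfD c) (x0 : I6 → ℂ), x0 ≠ 0 ∧
      (d'.M x0).mulVec (Pi.single 0 1) = 0 ∧ (d'.M x0).mulVec (Pi.single 5 1) = 0 ∧
      ∀ x, (d'.M x).mulVec (Pi.single 0 1) = 0 → ∃ r : ℂ, x = r • x0 := by
  obtain ⟨u0, x0, hu0, hx0, h1, h2⟩ := exists_u0 d
  have hpf : pf6 (d.M x0) = 0 := by
    have h3 := congrArg (fun A : Matrix (Fin 6) (Fin 6) ℂ => A.mulVec u0) (pst_mul (d.alt x0))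
    simp only [← Matrix.mulVec_mulVec, h1, Matrix.mulVec_zero, Matrix.smul_mulVec,
      Matrix.one_mulVec] at h3
    exact (smul_eq_zero.1 h3.symm).resolve_right hu0
  obtain ⟨k, i, j, hij, hm⟩ := exists_col (pst_alt (d.M x0)) (pst_ne_zero d hx0) u0 hu0
  obtain ⟨g, hg, hg0, hg5⟩ := exists_mat (u := u0) (w := fun a => pst (d.M x0) a k) hij hm
  have hw : (d.M x0).mulVec (fun a => pst (d.M x0) a k) = 0 := by
    ext a
    have h3 := congrFun (congrFun (mul_pst (d.alt x0)) a) k
    rw [hpf, zero_smul] at h3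
    exact h3
  refine ⟨move d g hg, x0, hx0, ?_, ?_, ?_⟩
  · rw [move_mulVec, hg0, h1, Matrix.mulVec_zero]
  · rw [move_mulVec, hg5, hw, Matrix.mulVec_zero]
  · intro x hx
    rw [move_mulVec, hg0] at hx
    apply h2
    by_contra hne
    have h3 := Matrix.exists_mulVec_eq_zero_iff.1 ⟨_, hne, hx⟩
    rw [Matrix.det_transpose] at h3
    exact hg h3

end Pool.Agent.Helper29.TR
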