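import Mathlib

namespace Pool.Agent.Helper16
end Pool.Agent.Helper16

set_option autoImplicit false

namespace Pool.Agent.Helper29.TR

open MvPolynomial Module Pool.Agent.Helper16

/-- the `(i, j)` entry of the adjugate nonzero: two kernel vectors are proportional. -/
private theorem ker_prop {K : Type*} [Field K] {n : ℕ} (N : Matrix (Fin n) (Fin n) K)
    (i j : Fin n) (hij : N.adjugate i j ≠ 0) (x y : Fin n → K) (hx : x ≠ 0)
    (h1 : N.mulVec x = 0) (h2 : N.mulVec y = 0) : x i ≠ 0 ∧ ∀ m, y m = y i / x i * x m := by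
  rw [Matrix.adjugate_apply] at hij
  have key : ∀ z : Fin n → K, N.mulVec z = 0 → z i = 0 → z = 0 := by
    intro z hz hzi
    by_contra hne
    apply hij
    rw [← Matrix.exists_mulVec_eq_zero_iff]
    refine ⟨z, hne, ?_⟩
    funext k
    rw [Matrix.mulVec, Pi.zero_apply]
    by_cases hk : k = j
    · subst hk
      rw [Matrix.updateRow_self, single_dotProduct, one_mul, hzi]
    · rw [Matrix.updateRow_ne hk]
      exact congrFun hz k
  have hxi : x i ≠ 0 := fun h => hx (key x h1 h)
  refine ⟨hxi, fun m => ?_⟩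
  have h3 := key (y - (y i / x i) • x) (by
    rw [Matrix.mulVec_sub, Matrix.mulVec_smul, h1, h2, smul_zero, sub_zero]) (by
    rw [Pi.sub_apply, Pi.smul_apply, smul_eq_mul, div_mul_cancel₀ _ hxi, sub_self])
  have h4 := congrFun h3 m
  rw [Pi.sub_apply, Pi.smul_apply, smul_eq_mul, Pi.zero_apply, sub_eq_zero] at h4
  exact h4

/-- Piece P8. The first column of the adjugate of a matrix of corank one. -/
theorem adj_col {K : Type*} [Field K] (N : Matrix (Fin 6) (Fin 6) K) (hN : N.adjugate ≠ 0)
    (x u : Fin 6 → K) (hx : x ≠ 0) (h1 : N.mulVec x = 0) (h2 : Matrix.vecMul u N = 0)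
    (hu : u 0 = 1) : ∃ τ : K, τ ≠ 0 ∧ ∀ m, N.adjugate m 0 = τ * x m := by
  have hdet : N.det = 0 := Matrix.exists_mulVec_eq_zero_iff.1 ⟨x, hx, h1⟩
  obtain ⟨i, j, hij⟩ : ∃ i j, N.adjugate i j ≠ 0 := by
    by_contra h
    push Not at h
    exact hN (Matrix.ext h)
  have hcol : ∀ k, N.mulVec (fun m => N.adjugate m k) = 0 := by
    intro k
    funext l
    have h3 := congrFun (congrFun (Matrix.mul_adjugate N) l) k
    rw [hdet, zero_smul, Matrix.mul_apply] at h3
    exact h3
  have hrow : ∀ m, N.transpose.mulVec (fun k => N.adjugate m k) = 0 := by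
    intro m
    funext l
    have h3 := congrFun (congrFun (Matrix.adjugate_mul N) m) l
    rw [hdet, zero_smul, Matrix.mul_apply] at h3
    rw [Matrix.mulVec_transpose]
    exact h3
  have hu0 : u ≠ 0 := fun h => one_ne_zero (hu.symm.trans (congrFun h 0))
  have hT : N.transpose.adjugate j i ≠ 0 := by
    rw [← Matrix.adjugate_transpose, Matrix.transpose_apply]
    exact hij
  obtain ⟨hxi, hc⟩ := ker_prop N i j hij x (fun m => N.adjugate m 0) hx h1 (hcol 0)
  refine ⟨N.adjugate i 0 / x i, ?_, hc⟩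
  intro h0
  have hz : ∀ m, N.adjugate m 0 = 0 := fun m => by rw [hc m, h0, zero_mul]
  obtain ⟨huj, hr⟩ := ker_prop N.transpose j i hT u (fun k => N.adjugate i k) hu0
    (by rw [Matrix.mulVec_transpose]; exact h2) (hrow i)
  have h5 := hr 0
  rw [hz i, hu, mul_one] at h5
  apply hij
  have h6 : N.adjugate i j / u j = 0 := h5.symm
  rcases div_eq_zero_iff.1 h6 with h7 | h7
  · exact h7
  · exact absurd h7 huj

/-- A complex matrix with one-dimensional kernel has a nonzero adjugate. -/
theorem adj_ne_zero (N : Matrix (Fin 6) (Fin 6) ℂ) (x0 : Fin 6 → ℂ)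
    (h : ∀ x, N.mulVec x = 0 → ∃ r : ℂ, x = r • x0) : N.adjugate ≠ 0 := by
  intro hadj
  have hdet : N.det = 0 := by
    by_contra hd
    have h1 := Matrix.mul_adjugate N
    rw [hadj, Matrix.mul_zero] at h1
    have h2 := congrFun (congrFun h1 0) 0
    rw [Matrix.zero_apply, Matrix.smul_apply, Matrix.one_apply_eq, smul_eq_mul, mul_one] at h2
    exact hd h2.symm
  obtain ⟨v, hv, hNv⟩ := Matrix.exists_mulVec_eq_zero_iff.2 hdet
  obtain ⟨r, hr⟩ := h v hNv
  have hx0 : x0 ≠ 0 := by
    rintro rfl
    exact hv (by rw [hr, smul_zero])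
  obtain ⟨i, hi⟩ : ∃ i, x0 i ≠ 0 := by
    by_contra hc
    push Not at hc
    exact hx0 (funext hc)
  have hsurj : ∀ j, ∃ y : Fin 6 → ℂ, N.mulVec y = Pi.single j 1 := by
    intro j
    have h1 : (N.updateRow j (Pi.single i 1)).det = 0 := by
      rw [← Matrix.adjugate_apply, hadj, Matrix.zero_apply]
    obtain ⟨y, hy, hNy⟩ := Matrix.exists_mulVec_eq_zero_iff.2 h1
    have hyi : y i = 0 := by
      have h2 := congrFun hNy j
      rw [Matrix.mulVec, Matrix.updateRow_self, single_dotProduct, one_mul, Pi.zero_apply] at h2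
      exact h2
    have hyk : ∀ k, k ≠ j → N.mulVec y k = 0 := by
      intro k hk
      have h2 := congrFun hNy k
      rw [Matrix.mulVec, Matrix.updateRow_ne hk, Pi.zero_apply] at h2
      exact h2
    have hc : N.mulVec y j ≠ 0 := by
      intro hcj
      have h3 : N.mulVec y = 0 := by
        funext k
        by_cases hk : k = j
        · rw [hk, hcj, Pi.zero_apply]
        · rw [hyk k hk, Pi.zero_apply]
      obtain ⟨s, hs⟩ := h y h3
      have h4 : s = 0 := by
        have h5 := congrFun hs i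
        rw [hyi, Pi.smul_apply, smul_eq_mul] at h5
        rcases mul_eq_zero.1 h5.symm with h6 | h6
        · exact h6
        · exact absurd h6 hi
      exact hy (by rw [hs, h4, zero_smul])
    refine ⟨(N.mulVec y j)⁻¹ • y, ?_⟩
    rw [Matrix.mulVec_smul]
    funext k
    by_cases hk : k = j
    · subst hk
      rw [Pi.smul_apply, smul_eq_mul, inv_mul_cancel₀ hc, Pi.single_eq_same]
    · rw [Pi.smul_apply, hyk k hk, smul_zero, Pi.single_eq_of_ne hk]
  choose g hg using hsurj
  have hone : N * (Matrix.of fun a b => g b a) = 1 := by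
    ext a b
    have h2 := congrFun (hg b) a
    rw [Matrix.mul_apply]
    rw [Matrix.mulVec, dotProduct] at h2
    rw [Matrix.one_apply, ← Pi.single_apply]
    exact h2
  have h3 := congrArg Matrix.det hone
  rw [Matrix.det_mul, hdet, zero_mul, Matrix.det_one] at h3
  exact zero_ne_one h3

end Pool.Agent.Helper29.TR
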