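import Mathlib
import Pool.Agent.Helper16.CubicGen
import Pool.Agent.Helper29.TR.St.PfSmooth
import Pool.Agent.Helper29.TR.St.AdjRank

set_option autoImplicit false

namespace Pool.Agent.Helper29.TR

open MvPolynomial Module Pool.Agent.Helper16

section aux

variable {S S' : Type*} [CommRing S] [CommRing S']

private theorem pf4_map (φ : S →+* S') (A : Matrix (Fin 6) (Fin 6) S) (k l m n : Fin 6) :
    φ (pf4 A k l m n) = pf4 (A.map φ) k l m n := by
  simp only [pf4, map_add, map_sub, map_mul, Matrix.map_apply]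

private theorem pf6_map (φ : S →+* S') (A : Matrix (Fin 6) (Fin 6) S) :
    φ (pf6 A) = pf6 (A.map φ) := by
  simp only [pf6, map_add, map_sub, map_mul, Matrix.map_apply, pf4_map]

private theorem pst_map (φ : S →+* S') (A : Matrix (Fin 6) (Fin 6) S) (i j : Fin 6) :
    φ (pst A i j) = pst (A.map φ) i j := by
  fin_cases i <;> fin_cases j <;>
    simp [pst, pf4_map]

variable [Algebra ℂ S] [Algebra ℂ S'] {c : Cub (I6 → ℂ)} (d : PfD c)

private theorem dext_apply (x : I6 → S) (i j : Fin 6) :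
    d.ext x i j = ∑ m, algebraMap ℂ S (d.M (E m) i j) * x m := rfl

private theorem dN_apply (u : Fin 6 → S) (i j : Fin 6) :
    d.N u i j = ∑ k, algebraMap ℂ S (d.M (E (finSumFinEquiv.symm j)) i k) * u k := rfl

private theorem dext_map (φ : S →ₐ[ℂ] S') (x : I6 → S) :
    (d.ext x).map (φ : S →+* S') = d.ext (fun i => φ (x i)) := by
  ext i j
  rw [Matrix.map_apply, dext_apply, dext_apply]
  simp

private theorem dN_map (φ : S →ₐ[ℂ] S') (u : Fin 6 → S) :
    (d.N u).map (φ : S →+* S') = d.N (fun i => φ (u i)) := by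
  ext i j
  rw [Matrix.map_apply, dN_apply, dN_apply]
  simp

private theorem dext_C (x : I6 → ℂ) : d.ext x = d.M x := by
  ext i j
  rw [dext_apply]
  have h1 : x = ∑ m, x m • E m := Cub.pi_sum x
  conv_rhs => rw [h1, map_sum]
  rw [Matrix.sum_apply]
  refine Finset.sum_congr rfl fun m _ => ?_
  rw [map_smul, Matrix.smul_apply, smul_eq_mul, mul_comm]
  rfl

private theorem dext_alt (x : I6 → S) : Alt (d.ext x) := by
  constructor
  · intro i
    rw [dext_apply]
    refine Finset.sum_eq_zero fun m _ => ?_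
    rw [(d.alt (E m)).1 i, map_zero, zero_mul]
  · intro i j
    rw [dext_apply, dext_apply, ← Finset.sum_neg_distrib]
    refine Finset.sum_congr rfl fun m _ => ?_
    rw [(d.alt (E m)).2 i j, map_neg, neg_mul]

private theorem pf_dext (x : I6 → S) :
    pf6 (d.ext x) = algebraMap ℂ S d.κ * c.ext S x x x := by
  have h1 : pf6 (d.ext (X : I6 → RI)) = algebraMap ℂ RI d.κ * c.ext RI X X X := by
    apply MvPolynomial.funext
    intro p
    have e1 := pf6_map ((aeval p : RI →ₐ[ℂ] ℂ) : RI →+* ℂ) (d.ext (X : I6 → RI))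
    rw [dext_map] at e1
    simp only [aeval_X] at e1
    have e2 : (eval p) (pf6 (d.ext (X : I6 → RI))) = pf6 (d.M p) := by
      rw [← dext_C, ← e1]
      rfl
    rw [e2, d.pf, map_mul]
    have e3 := c.map_ext (aeval p : RI →ₐ[ℂ] ℂ) X X X
    simp only [aeval_X] at e3
    rw [Cub.ext_complex] at e3
    have e4 : (eval p) (c.ext RI X X X) = c.T p p p := by
      rw [← e3]
      rfl
    rw [e4]
    congr 1
    rw [MvPolynomial.algebraMap_eq, eval_C]
  have h2 := congrArg (aeval x : RI →ₐ[ℂ] S) h1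
  have e1 := pf6_map ((aeval x : RI →ₐ[ℂ] S) : RI →+* S) (d.ext (X : I6 → RI))
  rw [dext_map] at e1
  simp only [aeval_X] at e1
  rw [map_mul, c.map_ext, AlgHom.commutes] at h2
  simp only [aeval_X] at h2
  rw [← h2, ← e1]
  rfl

/-- `N(u) x = M(x) u` -/
private theorem dN_mulVec (u : Fin 6 → S) (x : I6 → S) :
    (d.N u).mulVec (fun j => x (finSumFinEquiv.symm j)) = (d.ext x).mulVec u := by
  funext i
  simp only [Matrix.mulVec, dotProduct, dN_apply, dext_apply, Finset.sum_mul]
  rw [Finset.sum_comm]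
  refine Finset.sum_congr rfl fun k _ => ?_
  rw [← Equiv.sum_comp (finSumFinEquiv (m := 3) (n := 3))]
  refine Finset.sum_congr rfl fun m _ => ?_
  rw [Equiv.symm_apply_apply]
  ring

private theorem dN_vecMul (u : Fin 6 → S) : Matrix.vecMul u (d.N u) = 0 := by
  funext j
  simp only [Matrix.vecMul, dotProduct, dN_apply, Pi.zero_apply]
  obtain ⟨h0, h1⟩ := d.alt (E (finSumFinEquiv.symm j))
  simp only [Fin.sum_univ_six, h0, h1 0 1, h1 0 2, h1 0 3, h1 0 4, h1 0 5, h1 1 2, h1 1 3, h1 1 4,
    h1 1 5, h1 2 3, h1 2 4, h1 2 5, h1 3 4, h1 3 5, h1 4 5, map_neg, map_zero]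
  ring

private theorem dN_smul (a : S) (u : Fin 6 → S) : d.N (a • u) = a • d.N u := by
  ext i j
  rw [Matrix.smul_apply, dN_apply, dN_apply, smul_eq_mul, Finset.mul_sum]
  refine Finset.sum_congr rfl fun k _ => ?_
  rw [Pi.smul_apply, smul_eq_mul]
  ring

end aux

private theorem dext_hom {c : Cub (I6 → ℂ)} (d : PfD c) (i j : Fin 6) :
    (d.ext (X : I6 → RI) i j).IsHomogeneous 1 := by
  rw [dext_apply]
  refine IsHomogeneous.sum _ _ _ fun m _ => ?_
  have := (isHomogeneous_C I6 (d.M (E m) i j)).mul (isHomogeneous_X ℂ m)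
  simpa using this

private theorem pf4_hom {A : Matrix (Fin 6) (Fin 6) RI} (h : ∀ i j, (A i j).IsHomogeneous 1)
    (k l m n : Fin 6) : (pf4 A k l m n).IsHomogeneous 2 := by
  unfold pf4
  exact (((h k l).mul (h m n)).sub ((h k m).mul (h l n))).add ((h k n).mul (h l m))

private theorem pst_hom {A : Matrix (Fin 6) (Fin 6) RI} (h : ∀ i j, (A i j).IsHomogeneous 1)
    (i j : Fin 6) : (pst A i j).IsHomogeneous 2 := by
  have hp := pf4_hom h
  have hn : ∀ k l m n : Fin 6, (-pf4 A k l m n).IsHomogeneous 2 := fun k l m n => (hp k l m n).neg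
  fin_cases i <;> fin_cases j <;>
    first
      | exact isHomogeneous_zero _ _ _
      | exact hp _ _ _ _
      | exact hn _ _ _ _

private theorem det_hom {n : ℕ} {e : ℕ} (A : Matrix (Fin n) (Fin n) RI)
    (h : ∀ i j, (A i j).IsHomogeneous e) : A.det.IsHomogeneous (n * e) := by
  rw [Matrix.det_apply']
  refine IsHomogeneous.sum _ _ _ fun σ _ => ?_
  have h1 : (∏ i, A (σ i) i).IsHomogeneous (∑ _i : Fin n, e) :=
    IsHomogeneous.prod _ _ _ fun i _ => h (σ i) i
  have h2 : (∑ _i : Fin n, e) = n * e := by simp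
  rw [h2] at h1
  have h3 : ((Equiv.Perm.sign σ : ℤ) : RI).IsHomogeneous 0 := by
    have := isHomogeneous_C I6 (((Equiv.Perm.sign σ : ℤ) : ℂ))
    simpa using this
  have h4 := h3.mul h1
  rw [zero_add] at h4
  exact h4

private theorem adj_hom {n : ℕ} {e : ℕ} (A : Matrix (Fin (n + 1)) (Fin (n + 1)) RI)
    (h : ∀ i j, (A i j).IsHomogeneous e) (i j : Fin (n + 1)) :
    (A.adjugate i j).IsHomogeneous (n * e) := by
  rw [Matrix.adjugate_fin_succ_eq_det_submatrix]
  have h1 := det_hom (A.submatrix (Fin.succAbove j) (Fin.succAbove i)) (e := e)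
    (fun a b => h _ _)
  have h3 : (((-1 : RI) ^ (j + i : ℕ))).IsHomogeneous 0 := by
    have := (isHomogeneous_C I6 ((-1 : ℂ) ^ (j + i : ℕ)))
    simpa using this
  have h4 := h3.mul h1
  rw [zero_add] at h4
  exact h4

/-- Piece P9. A Pfaffian presentation in special position shows that the function field is
generated by four elements (helper16's `Cub.Rat4`, see `CubicGen.lean`). -/
theorem rat4_of_special {c : Cub (I6 → ℂ)} (d : PfD c) {x0 : I6 → ℂ} (hx0 : x0 ≠ 0)
    (h0 : (d.M x0).mulVec (Pi.single 0 1) = 0) (h5 : (d.M x0).mulVec (Pi.single 5 1) = 0)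
    (hu : ∀ x, (d.M x).mulVec (Pi.single 0 1) = 0 → ∃ r : ℂ, x = r • x0) :
    c.Rat4 := by
  classical
  -- the matrix at the special point
  have c0 : ∀ i, d.M x0 i 0 = 0 := by
    intro i
    have := congrFun h0 i
    rwa [Matrix.mulVec_single_one] at this
  have c5 : ∀ i, d.M x0 i 5 = 0 := by
    intro i
    have := congrFun h5 i
    rwa [Matrix.mulVec_single_one] at this
  have r0 : ∀ i, d.M x0 0 i = 0 := fun i => by
    rw [(d.alt x0).2 i 0, c0, neg_zero]
  have r5 : ∀ i, d.M x0 5 i = 0 := fun i => by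
    rw [(d.alt x0).2 i 5, c5, neg_zero]
  have hz : ∀ i, i ≠ 0 → pst (d.M x0) i 5 = 0 := by
    intro i hi
    fin_cases i
    · exact absurd rfl hi
    all_goals simp [pst, pf4, r0]
  have hT : c.T x0 x0 x0 = 0 := by
    have h1 := d.pf x0
    have h2 : pf6 (d.M x0) = 0 := by
      simp [pf6, r0]
    rw [h2] at h1
    exact (mul_eq_zero.1 h1.symm).resolve_left d.hκ
  have hne := pst_ne_zero d hx0
  have hb : pst (d.M x0) 0 5 ≠ 0 := by
    intro h
    apply hne
    ext i j
    have hA := pst_alt (d.M x0)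
    have h50 : pst (d.M x0) 5 0 = 0 := by rw [hA.2 0 5, h, neg_zero]
    fin_cases i <;> fin_cases j <;>
      first
        | exact h
        | exact h50
        | simp [pst, pf4, r0, c5]
  intro K _ _ x hx
  -- evaluation of homogeneous polynomials
  have key : ∀ (G : RI) (n : ℕ), G.IsHomogeneous n → eval x0 G ≠ 0 → aeval x G ≠ 0 := by
    intro G n hG h1 h2
    exact h1 (hx.gen G n hG h2 x0 hT)
  have hev : ∀ (p : I6 → ℂ) (i j : Fin 6),
      eval p (pst (d.ext (X : I6 → RI)) i j) = pst (d.M p) i j := by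
    intro p i j
    have e1 := pst_map ((aeval p : RI →ₐ[ℂ] ℂ) : RI →+* ℂ) (d.ext (X : I6 → RI)) i j
    rw [dext_map] at e1
    simp only [aeval_X] at e1
    rw [← dext_C, ← e1]
    rfl
  have hevK : ∀ (i j : Fin 6),
      aeval x (pst (d.ext (X : I6 → RI)) i j) = pst (d.ext x) i j := by
    intro i j
    have e1 := pst_map ((aeval x : RI →ₐ[ℂ] K) : RI →+* K) (d.ext (X : I6 → RI)) i j
    rw [dext_map] at e1
    simp only [aeval_X] at e1
    rw [← e1]
    rfl
  set v : Fin 6 → K := fun i => pst (d.ext x) i 5 with hv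
  have hv0 : v 0 ≠ 0 := by
    have := key (pst (d.ext (X : I6 → RI)) 0 5) 2 (pst_hom (dext_hom d) 0 5) (by rw [hev]; exact hb)
    rwa [hevK] at this
  have hv5 : v 5 = 0 := (pst_alt (d.ext x)).1 5
  have hpf : pf6 (d.ext x) = 0 := by
    rw [pf_dext, hx.zero, mul_zero]
  have hAv : (d.ext x).mulVec v = 0 := by
    have h1 := mul_pst (dext_alt d x)
    rw [hpf, zero_smul] at h1
    funext i
    have h2 := congrFun (congrFun h1 i) 5
    rw [Matrix.mul_apply] at h2
    exact h2
  set u : Fin 6 → K := (v 0)⁻¹ • v with hu'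
  have hu0 : u 0 = 1 := by
    rw [hu', Pi.smul_apply, smul_eq_mul, inv_mul_cancel₀ hv0]
  have hu5 : u 5 = 0 := by
    rw [hu', Pi.smul_apply, hv5, smul_zero]
  have hAu : (d.ext x).mulVec u = 0 := by
    rw [hu', Matrix.mulVec_smul, hAv, smul_zero]
  -- the adjugate of `N(v)` is not zero
  have hadj : (d.N v).adjugate ≠ 0 := by
    set VV : Fin 6 → RI := fun i => pst (d.ext (X : I6 → RI)) i 5 with hVV
    have hNhom : ∀ i j, (d.N VV i j).IsHomogeneous 2 := by
      intro i j
      rw [dN_apply]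
      refine IsHomogeneous.sum _ _ _ fun k _ => ?_
      have h1 := (isHomogeneous_C I6 (d.M (E (finSumFinEquiv.symm j)) i k)).mul
        (pst_hom (dext_hom d) k 5)
      rw [zero_add] at h1
      exact h1
    have hN0 : d.N (fun i => eval x0 (VV i)) = pst (d.M x0) 0 5 • d.N (Pi.single 0 1) := by
      rw [← dN_smul]
      congr 1
      funext i
      rw [hVV]
      simp only
      rw [hev, Pi.smul_apply]
      by_cases hi : i = 0
      · subst hi
        rw [Pi.single_eq_same, smul_eq_mul, mul_one]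
      · rw [hz i hi, Pi.single_eq_of_ne hi, smul_zero]
    have hA1 : (d.N (Pi.single 0 1 : Fin 6 → ℂ)).adjugate ≠ 0 := by
      apply adj_ne_zero _ (fun j => x0 (finSumFinEquiv.symm j))
      intro y hy
      have h1 := dN_mulVec d (Pi.single 0 1 : Fin 6 → ℂ)
        (fun m : I6 => y ((finSumFinEquiv (m := 3) (n := 3)) m))
      have h2 : (fun j : Fin 6 => (fun m : I6 => y ((finSumFinEquiv (m := 3) (n := 3)) m))
          (finSumFinEquiv.symm j)) = y := by
        funext j
        exact congrArg y (Equiv.apply_symm_apply _ j)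
      rw [h2, hy, dext_C] at h1
      obtain ⟨r, hr⟩ := hu _ h1.symm
      refine ⟨r, ?_⟩
      funext j
      have h3 := congrFun hr (finSumFinEquiv.symm j)
      simp only [Equiv.apply_symm_apply] at h3
      exact h3
    have hA2 : (d.N (fun i => eval x0 (VV i))).adjugate ≠ 0 := by
      rw [hN0, Matrix.adjugate_smul]
      intro h
      rcases smul_eq_zero.1 h with h | h
      · exact pow_ne_zero _ hb h
      · exact hA1 h
    obtain ⟨i, j, hij⟩ : ∃ i j, (d.N (fun i => eval x0 (VV i))).adjugate i j ≠ 0 := by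
      by_contra hc
      push Not at hc
      exact hA2 (Matrix.ext hc)
    have hE : eval x0 ((d.N VV).adjugate i j) = (d.N (fun i => eval x0 (VV i))).adjugate i j := by
      have h1 := RingHom.map_adjugate ((aeval x0 : RI →ₐ[ℂ] ℂ) : RI →+* ℂ) (d.N VV)
      have h2 := congrFun (congrFun h1 i) j
      rw [RingHom.mapMatrix_apply, RingHom.mapMatrix_apply, dN_map] at h2
      exact h2
    have hK : aeval x ((d.N VV).adjugate i j) = (d.N v).adjugate i j := by
      have h1 := RingHom.map_adjugate ((aeval x : RI →ₐ[ℂ] K) : RI →+* K) (d.N VV)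
      have h2 := congrFun (congrFun h1 i) j
      rw [RingHom.mapMatrix_apply, RingHom.mapMatrix_apply, dN_map] at h2
      have h3 : (fun i => (aeval x) (VV i)) = v := by
        funext k
        rw [hVV, hv]
        exact hevK k 5
      rw [h3] at h2
      exact h2
    have h1 := key _ (5 * 2) (adj_hom (n := 5) (d.N VV) hNhom i j) (by rw [hE]; exact hij)
    rw [hK] at h1
    intro h2
    rw [h2] at h1
    exact h1 rfl
  have hadju : (d.N u).adjugate ≠ 0 := by
    rw [hu', dN_smul, Matrix.adjugate_smul]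
    intro h
    rcases smul_eq_zero.1 h with h | h
    · exact pow_ne_zero _ (inv_ne_zero hv0) h
    · exact hadj h
  have hxne : (fun j => x (finSumFinEquiv.symm j)) ≠ (0 : Fin 6 → K) := by
    intro h
    have hx0' : x = 0 := by
      funext m
      have := congrFun h (finSumFinEquiv m)
      simpa using this
    obtain ⟨m, hm⟩ : ∃ m, x0 m ≠ 0 := by
      by_contra hc
      push Not at hc
      exact hx0 (funext hc)
    have h1 := key (X m) 1 (isHomogeneous_X ℂ m) (by rw [eval_X]; exact hm)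
    rw [aeval_X, hx0'] at h1
    exact h1 rfl
  obtain ⟨τ, hτ, hτ'⟩ := adj_col (d.N u) hadju (fun j => x (finSumFinEquiv.symm j)) u hxne
    (by rw [dN_mulVec, hAu]) (dN_vecMul d u) hu0
  refine ⟨fun i => u (Fin.succ (Fin.castSucc i)), τ, hτ, fun m => ?_⟩
  set L := IntermediateField.adjoin ℂ (Set.range fun i : Fin 4 => u (Fin.succ (Fin.castSucc i)))
    with hL
  have hmemu : ∀ i, u i ∈ L := by
    intro i
    fin_cases i
    · change u 0 ∈ L
      rw [hu0]; exact one_mem _
    · exact IntermediateField.subset_adjoin _ _ ⟨0, rfl⟩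
    · exact IntermediateField.subset_adjoin _ _ ⟨1, rfl⟩
    · exact IntermediateField.subset_adjoin _ _ ⟨2, rfl⟩
    · exact IntermediateField.subset_adjoin _ _ ⟨3, rfl⟩
    · change u 5 ∈ L
      rw [hu5]; exact zero_mem _
  let u' : Fin 6 → L := fun i => ⟨u i, hmemu i⟩
  have h1 := RingHom.map_adjugate ((L.val : L →ₐ[ℂ] K) : L →+* K) (d.N u')
  have h2 := congrFun (congrFun h1 (finSumFinEquiv m)) 0
  rw [RingHom.mapMatrix_apply, RingHom.mapMatrix_apply, dN_map] at h2
  have h3 : (fun i => L.val (u' i)) = u := by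
    funext i
    rfl
  rw [h3, hτ'] at h2
  simp only [Equiv.symm_apply_apply] at h2
  rw [← h2]
  exact ((d.N u').adjugate (finSumFinEquiv m) 0).2

end Pool.Agent.Helper29.TR
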