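import Pool.Agent.Helper29.TR.Defs

set_option autoImplicit false

namespace Pool.Agent.Helper29.TR

open MvPolynomial Module Pool.Agent.Helper16

/-- the graph map -/
private noncomputable def gr (K : (Fin 3 → ℂ) →ₗ[ℂ] (Fin 3 → ℂ)) :
    (Fin 3 → ℂ) →ₗ[ℂ] (I6 → ℂ) :=
  (iY ℂ).comp (Complex.I • K) + iZ ℂ

private theorem gr_apply (K : (Fin 3 → ℂ) →ₗ[ℂ] (Fin 3 → ℂ)) (z : Fin 3 → ℂ) :
    gr K z = Complex.I • iY ℂ (K z) + iZ ℂ z := by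
  simp [gr]

private theorem pZ_gr (K : (Fin 3 → ℂ) →ₗ[ℂ] (Fin 3 → ℂ)) (z : Fin 3 → ℂ) :
    pZ ℂ (gr K z) = z := by
  rw [gr_apply, map_add, map_smul, pZ_iY, pZ_iZ, smul_zero, zero_add]

/-- Piece E10. The first alternative: a plane disjoint from the base plane. -/
theorem plane_of_split {c : Cub (I6 → ℂ)} (hP : c.Iso P0)
    (hs : ∀ y z z', c.T (iY ℂ y) (iZ ℂ z) (iZ ℂ z') = 0)
    (K : (Fin 3 → ℂ) →ₗ[ℂ] (Fin 3 → ℂ))
    (h : ∀ z, c.T (iZ ℂ z) (iZ ℂ z) (iZ ℂ z) =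
      3 * c.T (iY ℂ (K z)) (iY ℂ (K z)) (iZ ℂ z)) :
    ∃ A B : Submodule ℂ (I6 → ℂ), c.Pl A ∧ c.Pl B ∧ A ⊓ B = ⊥ := by
  refine ⟨LinearMap.range (gr K), P0, ⟨?_, ?_⟩, ⟨finrank_P0, hP⟩, ?_⟩
  · rw [LinearMap.finrank_range_of_inj]
    · simp
    · intro a b hab
      have := congrArg (pZ ℂ) hab
      rwa [pZ_gr, pZ_gr] at this
  · rintro x ⟨z, rfl⟩
    rw [gr_apply, Cub.cube_add]
    have h1 : c.T (iY ℂ (K z)) (iY ℂ (K z)) (iY ℂ (K z)) = 0 := hP _ (iY_mem _)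
    simp only [map_smul, LinearMap.smul_apply, smul_eq_mul, hs, h1, h z]
    linear_combination (3 * c.T (iY ℂ (K z)) (iY ℂ (K z)) (iZ ℂ z)) * Complex.I_mul_I
  · rw [eq_bot_iff]
    rintro x ⟨⟨z, rfl⟩, hx⟩
    have hx' : pZ ℂ (gr K z) = 0 := mem_P0.mp hx
    rw [pZ_gr] at hx'
    rw [hx', map_zero]
    exact Submodule.zero_mem _

private noncomputable def aL (c : Cub (I6 → ℂ)) (i j : Fin 3) : (I6 → ℂ) →ₗ[ℂ] ℂ :=
  (c.T (iY ℂ (Pi.single i 1)) (iY ℂ (Pi.single j 1))).comp ((iZ ℂ).comp (pZ ℂ))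

private noncomputable def kL (K : (Fin 3 → ℂ) →ₗ[ℂ] (Fin 3 → ℂ)) (i : Fin 3) :
    (I6 → ℂ) →ₗ[ℂ] ℂ :=
  (LinearMap.proj i).comp (K.comp (pZ ℂ))

private noncomputable def yL (i : Fin 3) : (I6 → ℂ) →ₗ[ℂ] ℂ :=
  (LinearMap.proj i).comp (pY ℂ)

private noncomputable def entM (c : Cub (I6 → ℂ)) (K : (Fin 3 → ℂ) →ₗ[ℂ] (Fin 3 → ℂ)) (s : ℂ) :
    Matrix (Fin 6) (Fin 6) ((I6 → ℂ) →ₗ[ℂ] ℂ) :=
  !![0, -yL 2, yL 1, s • aL c 0 0, s • aL c 0 1 - kL K 2, s • aL c 0 2 + kL K 1;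
     yL 2, 0, -yL 0, s • aL c 0 1 + kL K 2, s • aL c 1 1, s • aL c 1 2 - kL K 0;
     -yL 1, yL 0, 0, s • aL c 0 2 - kL K 1, s • aL c 1 2 + kL K 0, s • aL c 2 2;
     -(s • aL c 0 0), -(s • aL c 0 1 + kL K 2), -(s • aL c 0 2 - kL K 1), 0, yL 2, -yL 1;
     -(s • aL c 0 1 - kL K 2), -(s • aL c 1 1), -(s • aL c 1 2 + kL K 0), -yL 2, 0, yL 0;
     -(s • aL c 0 2 + kL K 1), -(s • aL c 1 2 - kL K 0), -(s • aL c 2 2), yL 1, -yL 0, 0]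

private noncomputable def MM (c : Cub (I6 → ℂ)) (K : (Fin 3 → ℂ) →ₗ[ℂ] (Fin 3 → ℂ)) (s : ℂ) :
    (I6 → ℂ) →ₗ[ℂ] Matrix (Fin 6) (Fin 6) ℂ where
  toFun x := Matrix.of fun i j => entM c K s i j x
  map_add' x y := by
    ext i j
    simp
  map_smul' a x := by
    ext i j
    simp

private theorem iY_eq (y : Fin 3 → ℂ) : iY ℂ y = y 0 • iY ℂ (Pi.single 0 1) +
    y 1 • iY ℂ (Pi.single 1 1) + y 2 • iY ℂ (Pi.single 2 1) := by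
  rw [← map_smul, ← map_smul, ← map_smul, ← map_add, ← map_add]
  congr 1
  funext i
  fin_cases i <;> simp

/-- The second alternative: a Pfaffian presentation.  The matrix is
`![[y]ₓ, B; -Bᵗ, -[y]ₓ]` with `B = s A(z) + [K z]ₓ` (`crs` is the skew matrix of a vector);
its Pfaffian is `-(det B + yᵗ B y) = -(s/3) T(x, x, x)`. -/
theorem pf_of_split {c : Cub (I6 → ℂ)} (hP : c.Iso P0)
    (hs : ∀ y z z', c.T (iY ℂ y) (iZ ℂ z) (iZ ℂ z') = 0)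
    (K : (Fin 3 → ℂ) →ₗ[ℂ] (Fin 3 → ℂ)) (s : ℂ) (hs0 : s ≠ 0)
    (h : ∀ z, c.T (iZ ℂ z) (iZ ℂ z) (iZ ℂ z) =
      3 * (s ^ 2 * (Am c z).det + c.T (iY ℂ (K z)) (iY ℂ (K z)) (iZ ℂ z))) :
    Nonempty (PfD c) := by
  refine ⟨⟨MM c K s, ?_, -s / 3, by
    intro h0
    apply hs0
    linear_combination (-3) * h0, ?_⟩⟩
  · intro x
    constructor
    · intro i
      fin_cases i <;> simp [MM, entM]
    · intro i j
      fin_cases i <;> fin_cases j <;> simp [MM, entM]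
  · intro x
    have hT : c.T x x x = 3 * c.T (iY ℂ (pY ℂ x)) (iY ℂ (pY ℂ x)) (iZ ℂ (pZ ℂ x)) +
        c.T (iZ ℂ (pZ ℂ x)) (iZ ℂ (pZ ℂ x)) (iZ ℂ (pZ ℂ x)) := by
      have h1 : c.T (iY ℂ (pY ℂ x)) (iY ℂ (pY ℂ x)) (iY ℂ (pY ℂ x)) = 0 := hP _ (iY_mem _)
      conv_lhs => rw [decomp x]
      rw [Cub.cube_add, h1, hs]
      ring
    rw [hT, h (pZ ℂ x), Matrix.det_fin_three]
    have hA : ∀ i j, Am c (pZ ℂ x) i j = aL c i j x := by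
      intro i j
      simp [Am, aL, Cub.ext_complex]
    have hk : ∀ i, K (pZ ℂ x) i = kL K i x := fun i => rfl
    have hy : ∀ i, (pY ℂ x) i = yL i x := fun i => rfl
    have hsym : ∀ i j, aL c i j x = aL c j i x := by
      intro i j
      simp only [aL, LinearMap.comp_apply]
      exact c.s12 _ _ _
    have hq : ∀ y : Fin 3 → ℂ, c.T (iY ℂ y) (iY ℂ y) (iZ ℂ (pZ ℂ x)) =
        y 0 * y 0 * aL c 0 0 x + y 1 * y 1 * aL c 1 1 x + y 2 * y 2 * aL c 2 2 x +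
        2 * (y 0 * y 1 * aL c 0 1 x) + 2 * (y 0 * y 2 * aL c 0 2 x) +
        2 * (y 1 * y 2 * aL c 1 2 x) := by
      intro y
      have e1 := hsym 1 0
      have e2 := hsym 2 0
      have e3 := hsym 2 1
      rw [iY_eq y]
      simp only [map_add, map_smul, LinearMap.add_apply, LinearMap.smul_apply, smul_eq_mul]
      change y 0 * (y 0 * aL c 0 0 x + y 1 * aL c 1 0 x + y 2 * aL c 2 0 x) +
        y 1 * (y 0 * aL c 0 1 x + y 1 * aL c 1 1 x + y 2 * aL c 2 1 x) +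
        y 2 * (y 0 * aL c 0 2 x + y 1 * aL c 1 2 x + y 2 * aL c 2 2 x) = _
      rw [e1, e2, e3]
      ring
    rw [hq, hq]
    simp only [hA, hk, hy]
    rw [hsym 1 0, hsym 2 0, hsym 2 1]
    have hent : ∀ i j, MM c K s x i j = entM c K s i j x := fun i j => rfl
    simp only [pf6, pf4, hent]
    simp [entM]
    ring

end Pool.Agent.Helper29.TR
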