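import Mathlib
import Pool.Agent.Helper16.CubicBez
import Pool.Agent.Helper16.CubicSing

set_option autoImplicit false

namespace Pool.Agent.Helper29.TR

open MvPolynomial Module Pool.Agent.Helper16

/-- Piece M1. A linear form without common zeros with two coprime forms. -/
theorem exists_lin_avoid {f g : R3} {m n : ℕ} (hf : f.IsHomogeneous m) (hg : g.IsHomogeneous n)
    (hrel : IsRelPrime f g) (hg0 : g ≠ 0) :
    ∃ l : (Fin 3 → ℂ) →ₗ[ℂ] ℂ, l ≠ 0 ∧ ∀ z, l z = 0 → eval z f = 0 → eval z g = 0 → z = 0 := by
  classical
  let P : ℕ → Prop := fun N => ∃ z : Fin N → (Fin 3 → ℂ), (∀ i, z i ≠ 0) ∧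
    (∀ i j, i ≠ j → z i ∉ (ℂ ∙ z j)) ∧ (∀ i, eval (z i) f = 0) ∧ (∀ i, eval (z i) g = 0)
  have hP0 : P 0 := ⟨fun i => i.elim0, fun i => i.elim0, fun i => i.elim0, fun i => i.elim0,
    fun i => i.elim0⟩
  have hbd : ∀ N, P N → N ≤ m * n := by
    rintro N ⟨z, h0, hz, h1, h2⟩
    exact bezout hf hg hrel hg0 z h0 hz h1 h2
  set N := Nat.findGreatest P (m * n) with hN
  have hPN : P N := Nat.findGreatest_spec (Nat.zero_le _) hP0
  have hmax : ∀ M, P M → M ≤ N := fun M hM => Nat.le_findGreatest (hbd M hM) hM
  obtain ⟨z, h0, hz, h1, h2⟩ := hPN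
  have hcov : ∀ w, w ≠ 0 → eval w f = 0 → eval w g = 0 → ∃ i, w ∈ (ℂ ∙ z i) := by
    intro w hw hwf hwg
    by_contra hcon
    push Not at hcon
    have hcon' : ∀ i, z i ∉ (ℂ ∙ w) := by
      intro i hi
      rw [Submodule.mem_span_singleton] at hi
      obtain ⟨a, ha⟩ := hi
      have ha0 : a ≠ 0 := by
        rintro rfl
        exact h0 i (by rw [← ha, zero_smul])
      apply hcon i
      rw [Submodule.mem_span_singleton]
      exact ⟨a⁻¹, by rw [← ha, smul_smul, inv_mul_cancel₀ ha0, one_smul]⟩
    have : P (N + 1) := by
      refine ⟨Fin.snoc z w, ?_, ?_, ?_, ?_⟩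
      · intro i
        induction i using Fin.lastCases with
        | last => simpa using hw
        | cast i => simpa using h0 i
      · intro i j hij
        induction i using Fin.lastCases with
        | last =>
          induction j using Fin.lastCases with
          | last => exact absurd rfl hij
          | cast j => simpa using hcon j
        | cast i =>
          induction j using Fin.lastCases with
          | last => simpa using hcon' i
          | cast j =>
            have : i ≠ j := fun h => hij (by rw [h])
            simpa using hz i j this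
      · intro i
        induction i using Fin.lastCases with
        | last => simpa using hwf
        | cast i => simpa using h1 i
      · intro i
        induction i using Fin.lastCases with
        | last => simpa using hwg
        | cast i => simpa using h2 i
    have := hmax _ this
    omega
  obtain ⟨l, hl⟩ := Module.exists_dual_forall_apply_ne_zero (K := ℂ)
    (Option.elim · (Pi.single (0 : Fin 3) (1 : ℂ)) z) (by
      rintro (_ | i)
      · intro h
        have := congrFun h 0
        simp at this
      · exact h0 i)
  refine ⟨l, ?_, ?_⟩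
  · rintro rfl
    exact hl none (by simp)
  · intro w hlw hwf hwg
    by_contra hw
    obtain ⟨i, hi⟩ := hcov w hw hwf hwg
    rw [Submodule.mem_span_singleton] at hi
    obtain ⟨a, ha⟩ := hi
    have ha0 : a ≠ 0 := by
      rintro rfl
      exact hw (by rw [← ha, zero_smul])
    have : a * l (z i) = 0 := by
      rw [← ha, map_smul, smul_eq_mul] at hlw
      exact hlw
    rcases mul_eq_zero.mp this with h | h
    · exact ha0 h
    · exact hl (some i) h

end Pool.Agent.Helper29.TR
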