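import Pool.Agent.Helper29.TR.Defs

set_option autoImplicit false

namespace Pool.Agent.Helper29.TR

open MvPolynomial Module Pool.Agent.Helper16

/-- Piece E1. The minors vanish at the singular points of the discriminant. -/
theorem adj_eq_zero {c : Cub (I6 → ℂ)} (hP : c.Iso P0) {b : Fin 3 → ℂ} (hb : b ≠ 0)
    (h0 : eval b c.disc = 0) (h1 : ∀ k, eval b (pderiv k c.disc) = 0) (i j : Fin 4) :
    eval b ((c.Nm (X : Fin 3 → R3)).adjugate i j) = 0 := by
  obtain ⟨v, v', hli, hv, hv'⟩ := Cub.sing hP hb h0 h1
  rw [c.eval_adj, Matrix.adjugate_fin_succ_eq_det_submatrix]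
  rw [Cub.rad_iff] at hv hv'
  have hdet : ((c.Nm b).submatrix j.succAbove i.succAbove).det = 0 := by
    obtain ⟨u, hu0, hui, hu⟩ : ∃ u : Fin 4 → ℂ, u ≠ 0 ∧ u i = 0 ∧ (c.Nm b).mulVec u = 0 := by
      rw [LinearIndependent.pair_iff] at hli
      by_cases hvi : v i = 0
      · refine ⟨v, ?_, hvi, hv⟩
        rintro rfl
        have := hli 1 0 (by simp)
        simp at this
      · refine ⟨v' i • v - v i • v', ?_, by simp [mul_comm], ?_⟩
        · intro h
          have := hli (v' i) (-(v i)) (by rw [neg_smul, ← sub_eq_add_neg]; exact h)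
          exact hvi (neg_eq_zero.mp this.2)
        · rw [Matrix.mulVec_sub, Matrix.mulVec_smul, Matrix.mulVec_smul, hv, hv']
          simp
    rw [← Matrix.exists_mulVec_eq_zero_iff]
    refine ⟨fun k => u (i.succAbove k), ?_, ?_⟩
    · intro h
      apply hu0
      funext m
      refine Fin.succAboveCases i ?_ ?_ m
      · exact hui
      · intro k
        exact congrFun h k
    · funext k
      have h2 := congrFun hu (j.succAbove k)
      simp only [Matrix.mulVec, dotProduct, Matrix.submatrix_apply, Pi.zero_apply] at h2 ⊢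
      rw [Fin.sum_univ_succAbove _ i, hui, mul_zero, zero_add] at h2
      exact h2
  rw [hdet, mul_zero]

end Pool.Agent.Helper29.TR
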