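import Pool.Agent.Helper29.TR.Defs

set_option autoImplicit false

namespace Pool.Agent.Helper29.TR

open MvPolynomial Module Pool.Agent.Helper16

private theorem quint_zero (c0 c1 c2 c3 c4 c5 : ℂ)
    (h : ∀ t : ℂ, c0 + c1 * t + c2 * t ^ 2 + c3 * t ^ 3 + c4 * t ^ 4 + c5 * t ^ 5 = 0) :
    c0 = 0 ∧ c1 = 0 ∧ c2 = 0 ∧ c3 = 0 ∧ c4 = 0 ∧ c5 = 0 := by
  have h0 := h 0
  have h1 := h 1
  have h2 := h (-1)
  have h3 := h 2
  have h4 := h (-2)
  have h5 := h 3
  have e0 : c0 = 0 := by linear_combination h0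
  subst e0
  -- even part: c2 + c4 = 0 , 4 c2 + 16 c4 = 0
  have e4 : c4 = 0 := by
    linear_combination (1/24) * (h3 + h4) - (1/6) * (h1 + h2)
  subst e4
  have e2 : c2 = 0 := by linear_combination (1/2) * (h1 + h2)
  subst e2
  -- odd part: c1 + c3 + c5 = 0, 2 c1 + 8 c3 + 32 c5 = 0, 3 c1 + 27 c3 + 243 c5 = 0
  have e5 : c5 = 0 := by
    have a1 : c1 + c3 + c5 = 0 := by linear_combination h1
    have a2 : c1 + 4 * c3 + 16 * c5 = 0 := by linear_combination (1/2) * h3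
    have a3 : c1 + 9 * c3 + 81 * c5 = 0 := by linear_combination (1/3) * h5
    linear_combination (1/40) * a3 - (1/15) * a2 + (1/24) * a1
  subst e5
  have e3 : c3 = 0 := by
    linear_combination (1/6) * h3 - (1/3) * h1
  subst e3
  exact ⟨rfl, by linear_combination h1, rfl, rfl, rfl, rfl⟩

section

variable (c : Cub (I6 → ℂ)) (a b : Fin 3 → ℂ)

private noncomputable def ez (i : Fin 3) : I6 → ℂ := iZ ℂ (Pi.single i 1)

private theorem iZ_vec (x y z : ℂ) : iZ ℂ ![x, y, z] = x • ez 0 + y • ez 1 + z • ez 2 := by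
  funext i
  rcases i with i | i
  · simp [ez]
  · fin_cases i <;> simp [ez]

private theorem T_nu (u v : I6 → ℂ) (t : ℂ) :
    c.T u v (iZ ℂ (nu t)) = c.T u v (ez 0) + t * c.T u v (ez 1) + t ^ 2 * c.T u v (ez 2) := by
  unfold nu
  rw [iZ_vec]
  simp only [map_add, map_smul, smul_eq_mul, one_mul]

end

/-- Piece C3. The normal form. -/
theorem exists_CN (c : Cub (I6 → ℂ)) (hP : c.Iso P0) (a b : Fin 3 → ℂ)
    (haa : ∀ z, c.T (iY ℂ a) (iY ℂ a) (iZ ℂ z) = z 2)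
    (hab : ∀ z, c.T (iY ℂ a) (iY ℂ b) (iZ ℂ z) = - z 1)
    (hbb : ∀ z, c.T (iY ℂ b) (iY ℂ b) (iZ ℂ z) = z 0)
    (h1 : ∀ t y, c.T (iY ℂ (a + t • b)) (iY ℂ y) (iZ ℂ (nu t)) = 0)
    (h2 : ∀ t, c.T (iY ℂ (a + t • b)) (iZ ℂ (nu t)) (iZ ℂ (nu t)) = 0) :
    ∃ e : (I6 → ℂ) ≃ₗ[ℂ] (I6 → ℂ), CN (c.comap e) := by
  classical
  -- independence of `a`, `b`
  have hind : ∀ x y : ℂ, x • a + y • b = 0 → x = 0 ∧ y = 0 := by
    intro x y hxy
    have key : ∀ z : Fin 3 → ℂ, x ^ 2 * z 2 - 2 * x * y * z 1 + y ^ 2 * z 0 = 0 := by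
      intro z
      have h3 : c.T (iY ℂ (x • a + y • b)) (iY ℂ (x • a + y • b)) (iZ ℂ z) = 0 := by
        rw [hxy]; simp
      simp only [map_add, map_smul, LinearMap.add_apply, LinearMap.smul_apply, smul_eq_mul] at h3
      rw [c.s12 (iY ℂ b) (iY ℂ a), haa, hab, hbb] at h3
      linear_combination h3
    have k2 := key (Pi.single 2 1)
    have k0 := key (Pi.single 0 1)
    simp at k2 k0
    exact ⟨k2, k0⟩
  -- the third vector
  obtain ⟨d', hd'⟩ : ∃ d' : Fin 3 → ℂ, d' ∉ Submodule.span ℂ ({a, b} : Set (Fin 3 → ℂ)) := by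
    by_contra hcon
    push Not at hcon
    have htop : Submodule.span ℂ ({a, b} : Set (Fin 3 → ℂ)) = ⊤ :=
      Submodule.eq_top_iff'.mpr hcon
    have hle := finrank_span_le_card (R := ℂ) ({a, b} : Set (Fin 3 → ℂ))
    rw [htop, finrank_top, finrank_fin_fun] at hle
    have h4 : (({a, b} : Set (Fin 3 → ℂ)).toFinset).card ≤ 2 := by
      rw [Set.toFinset_insert, Set.toFinset_singleton]
      exact Finset.card_le_two
    omega
  -- coefficients of h1
  have hlin : ∀ y, c.T (iY ℂ a) (iY ℂ y) (ez 0) = 0 ∧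
      c.T (iY ℂ a) (iY ℂ y) (ez 1) + c.T (iY ℂ b) (iY ℂ y) (ez 0) = 0 ∧
      c.T (iY ℂ a) (iY ℂ y) (ez 2) + c.T (iY ℂ b) (iY ℂ y) (ez 1) = 0 ∧
      c.T (iY ℂ b) (iY ℂ y) (ez 2) = 0 := by
    intro y
    have h3 := quint_zero (c.T (iY ℂ a) (iY ℂ y) (ez 0))
      (c.T (iY ℂ a) (iY ℂ y) (ez 1) + c.T (iY ℂ b) (iY ℂ y) (ez 0))
      (c.T (iY ℂ a) (iY ℂ y) (ez 2) + c.T (iY ℂ b) (iY ℂ y) (ez 1))
      (c.T (iY ℂ b) (iY ℂ y) (ez 2)) 0 0 (by
        intro t
        have h4 := h1 t y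
        rw [T_nu] at h4
        simp only [map_add, map_smul, LinearMap.add_apply, LinearMap.smul_apply,
          smul_eq_mul] at h4
        linear_combination h4)
    exact ⟨h3.1, h3.2.1, h3.2.2.1, h3.2.2.2.1⟩
  obtain ⟨l0, l1, l2, l3⟩ := hlin d'
  -- coefficients of h2
  obtain ⟨q0, q1, q2, q3, q4, q5⟩ := quint_zero
    (c.T (iY ℂ a) (ez 0) (ez 0))
    (2 * c.T (iY ℂ a) (ez 0) (ez 1) + c.T (iY ℂ b) (ez 0) (ez 0))
    (2 * c.T (iY ℂ a) (ez 0) (ez 2) + c.T (iY ℂ a) (ez 1) (ez 1) +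
      2 * c.T (iY ℂ b) (ez 0) (ez 1))
    (2 * c.T (iY ℂ a) (ez 1) (ez 2) + c.T (iY ℂ b) (ez 1) (ez 1) +
      2 * c.T (iY ℂ b) (ez 0) (ez 2))
    (c.T (iY ℂ a) (ez 2) (ez 2) + 2 * c.T (iY ℂ b) (ez 1) (ez 2))
    (c.T (iY ℂ b) (ez 2) (ez 2)) (by
      intro t
      have h4 := h2 t
      rw [T_nu, c.s23 _ _ (ez 0), c.s23 _ _ (ez 1), c.s23 _ _ (ez 2), T_nu, T_nu, T_nu] at h4
      simp only [map_add, map_smul, LinearMap.add_apply, LinearMap.smul_apply,
          smul_eq_mul] at h4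
      rw [c.s23 _ (ez 1) (ez 0), c.s23 _ (ez 2) (ez 0), c.s23 _ (ez 2) (ez 1),
        c.s23 _ (ez 1) (ez 0), c.s23 _ (ez 2) (ez 0), c.s23 _ (ez 2) (ez 1)] at h4
      linear_combination h4)
  set D : Fin 3 → ℂ := d' + (-(c.T (iY ℂ a) (iY ℂ d') (ez 2))) • a +
    (c.T (iY ℂ a) (iY ℂ d') (ez 1)) • b with hD
  let xs : Fin 3 → ℂ := ![-(c.T (iY ℂ a) (ez 0) (ez 2)), c.T (iY ℂ b) (ez 1) (ez 1) / 2,
    -(c.T (iY ℂ a) (ez 2) (ez 2)) / 2]
  let ys : Fin 3 → ℂ := ![c.T (iY ℂ a) (ez 0) (ez 1), c.T (iY ℂ a) (ez 1) (ez 1) / 2,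
    -(c.T (iY ℂ b) (ez 0) (ez 2))]
  let e' : Fin 3 → (I6 → ℂ) := fun i => ez i + iY ℂ (xs i • a + ys i • b)
  have h3Y : ∀ u v w : Fin 3 → ℂ, c.T (iY ℂ u) (iY ℂ v) (iY ℂ w) = 0 := fun u v w =>
    hP.three (iY_mem u) (iY_mem v) (iY_mem w)
  have haz : ∀ i, c.T (iY ℂ a) (iY ℂ a) (ez i) = (Pi.single i 1 : Fin 3 → ℂ) 2 := fun i => haa _
  have habz : ∀ i, c.T (iY ℂ a) (iY ℂ b) (ez i) = -(Pi.single i 1 : Fin 3 → ℂ) 1 := fun i => hab _
  have hbaz : ∀ i, c.T (iY ℂ b) (iY ℂ a) (ez i) = -(Pi.single i 1 : Fin 3 → ℂ) 1 := fun i => by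
    rw [c.s12]; exact hab _
  have hbz : ∀ i, c.T (iY ℂ b) (iY ℂ b) (ez i) = (Pi.single i 1 : Fin 3 → ℂ) 0 := fun i => hbb _
  -- T(a, D, e_i) = T(b, D, e_i) = 0
  have hDa : ∀ i, c.T (iY ℂ a) (iY ℂ D) (ez i) = 0 := by
    intro i
    rw [hD]
    simp only [map_add, map_smul, LinearMap.add_apply, LinearMap.smul_apply, smul_eq_mul, haz,
      habz]
    fin_cases i
    · simp [l0]
    · simp
    · simp
  have hDb : ∀ i, c.T (iY ℂ b) (iY ℂ D) (ez i) = 0 := by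
    intro i
    rw [hD]
    simp only [map_add, map_smul, LinearMap.add_apply, LinearMap.smul_apply, smul_eq_mul, hbaz,
      hbz]
    fin_cases i
    · simp
      linear_combination l1
    · simp
      linear_combination l2
    · simp [l3]
  have sw : ∀ w : I6 → ℂ, ∀ i j, c.T w (ez i) (ez j) = c.T w (ez j) (ez i) := fun w i j =>
    c.s23 _ _ _
  have hAe : ∀ i j, c.T (iY ℂ a) (e' i) (e' j) = 0 := by
    intro i j
    have h5 : c.T (iY ℂ a) (e' i) (e' j) = c.T (iY ℂ a) (ez i) (ez j) +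
        (xs j * (Pi.single i 1 : Fin 3 → ℂ) 2 - ys j * (Pi.single i 1 : Fin 3 → ℂ) 1) +
        (xs i * (Pi.single j 1 : Fin 3 → ℂ) 2 - ys i * (Pi.single j 1 : Fin 3 → ℂ) 1) := by
      simp only [e', map_add, map_smul, LinearMap.add_apply, LinearMap.smul_apply, smul_eq_mul,
        h3Y, haz, habz]
      rw [c.s23 _ (ez i) (iY ℂ a), c.s23 _ (ez i) (iY ℂ b), haz, habz]
      ring
    rw [h5]
    have s10 := sw (iY ℂ a) 1 0
    have s20 := sw (iY ℂ a) 2 0
    have s21 := sw (iY ℂ a) 2 1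
    fin_cases i <;> fin_cases j <;> simp [xs, ys]
    all_goals first
      | exact q0
      | ring1
      | linear_combination s10
      | linear_combination s20
      | linear_combination (1/2) * q3
      | linear_combination (1/2) * q3 + s21
  have hBe : ∀ i j, c.T (iY ℂ b) (e' i) (e' j) = 0 := by
    intro i j
    have h5 : c.T (iY ℂ b) (e' i) (e' j) = c.T (iY ℂ b) (ez i) (ez j) +
        (-(xs j * (Pi.single i 1 : Fin 3 → ℂ) 1) + ys j * (Pi.single i 1 : Fin 3 → ℂ) 0) +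
        (-(xs i * (Pi.single j 1 : Fin 3 → ℂ) 1) + ys i * (Pi.single j 1 : Fin 3 → ℂ) 0) := by
      simp only [e', map_add, map_smul, LinearMap.add_apply, LinearMap.smul_apply, smul_eq_mul,
        h3Y, hbaz, hbz]
      rw [c.s23 _ (ez i) (iY ℂ a), c.s23 _ (ez i) (iY ℂ b), hbaz, hbz]
      ring
    rw [h5]
    have s10 := sw (iY ℂ b) 1 0
    have s20 := sw (iY ℂ b) 2 0
    have s21 := sw (iY ℂ b) 2 1
    fin_cases i <;> fin_cases j <;> simp [xs, ys]
    all_goals first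
      | exact q5
      | ring1
      | linear_combination q1
      | linear_combination (1/2) * q2
      | linear_combination (1/2) * q2 + s10
      | linear_combination s20
      | linear_combination (1/2) * q4
      | linear_combination (1/2) * q4 + s21
  -- the linear equivalence
  let f : (I6 → ℂ) →ₗ[ℂ] (I6 → ℂ) :=
    (LinearMap.proj (.inl 0)).smulRight (iY ℂ a) + (LinearMap.proj (.inl 1)).smulRight (iY ℂ b) +
      (LinearMap.proj (.inl 2)).smulRight (iY ℂ D) +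
      ((LinearMap.proj (.inr 0)).smulRight (e' 0) + (LinearMap.proj (.inr 1)).smulRight (e' 1) +
      (LinearMap.proj (.inr 2)).smulRight (e' 2))
  have hf : ∀ x, f x = x (.inl 0) • iY ℂ a + x (.inl 1) • iY ℂ b + x (.inl 2) • iY ℂ D +
      (x (.inr 0) • e' 0 + x (.inr 1) • e' 1 + x (.inr 2) • e' 2) := fun x => rfl
  have hpe : ∀ i, pZ ℂ (e' i) = Pi.single i 1 := by
    intro i
    simp only [e', map_add, pZ_iY, add_zero, ez, pZ_iZ]
  have hpf : ∀ x, pZ ℂ (f x) = pZ ℂ x := by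
    intro x
    rw [hf]
    simp only [map_add, map_smul, pZ_iY, hpe, smul_zero, zero_add]
    funext i
    fin_cases i <;> simp
  have hinj : Function.Injective f := by
    rw [injective_iff_map_eq_zero]
    intro x hx
    have hz : pZ ℂ x = 0 := by rw [← hpf, hx, map_zero]
    have z0 : ∀ k, x (.inr k) = 0 := fun k => congrFun hz k
    have h6 := hf x
    rw [hx, z0, z0, z0] at h6
    simp only [zero_smul, add_zero, ← map_smul, ← map_add] at h6
    have h7 : x (.inl 0) • a + x (.inl 1) • b + x (.inl 2) • D = 0 := by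
      have := congrArg (pY ℂ) h6
      simpa using this.symm
    have h8 : x (.inl 2) = 0 := by
      by_contra hne
      apply hd'
      have h9 : x (.inl 2) • d' = (- x (.inl 0) + x (.inl 2) * (c.T (iY ℂ a) (iY ℂ d') (ez 2))) • a +
          (- x (.inl 1) - x (.inl 2) * (c.T (iY ℂ a) (iY ℂ d') (ez 1))) • b := by
        rw [hD] at h7
        have h10 : x (.inl 2) • d' = x (.inl 2) • d' - (x (.inl 0) • a + x (.inl 1) • b +
          x (.inl 2) • (d' + (-(c.T (iY ℂ a) (iY ℂ d') (ez 2))) • a +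
            (c.T (iY ℂ a) (iY ℂ d') (ez 1)) • b)) := by rw [h7, sub_zero]
        rw [h10]
        module
      have h11 : d' = (x (.inl 2))⁻¹ • (x (.inl 2) • d') := by
        rw [smul_smul, inv_mul_cancel₀ hne, one_smul]
      rw [h11, h9]
      apply Submodule.smul_mem
      apply Submodule.add_mem
      · exact Submodule.smul_mem _ _ (Submodule.subset_span (by simp))
      · exact Submodule.smul_mem _ _ (Submodule.subset_span (by simp))
    rw [h8, zero_smul, add_zero] at h7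
    obtain ⟨h12, h13⟩ := hind _ _ h7
    funext i
    rcases i with i | i
    · fin_cases i
      · exact h12
      · exact h13
      · exact h8
    · exact z0 i
  let e : (I6 → ℂ) ≃ₗ[ℂ] (I6 → ℂ) := LinearEquiv.ofInjectiveEndo f hinj
  have he : ∀ x, e x = f x := fun x => rfl
  have hE0 : e (E (.inl 0)) = iY ℂ a := by rw [he, hf]; simp [E]
  have hE1 : e (E (.inl 1)) = iY ℂ b := by rw [he, hf]; simp [E]
  have hTx : ∀ u v : Fin 3 → ℂ, ∀ x, c.T (iY ℂ u) (iY ℂ v) (e x) =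
      c.T (iY ℂ u) (iY ℂ v) (iZ ℂ (pZ ℂ x)) := by
    intro u v x
    rw [decomp (e x)]
    rw [map_add, h3Y, zero_add, he, hpf]
  have e'D : ∀ w : I6 → ℂ, ∀ i, c.T w (e' i) (iY ℂ D) = c.T w (iY ℂ D) (e' i) := fun w i =>
    c.s23 _ _ _
  have haDe : ∀ i, c.T (iY ℂ a) (iY ℂ D) (e' i) = 0 := by
    intro i
    simp only [e']
    rw [map_add, hDa, h3Y, add_zero]
  have hbDe : ∀ i, c.T (iY ℂ b) (iY ℂ D) (e' i) = 0 := by
    intro i
    simp only [e']
    rw [map_add, hDb, h3Y, add_zero]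
  refine ⟨e, ?_, ?_, ?_, ?_, ?_, ?_⟩
  · intro x hx
    rw [Cub.comap_apply]
    apply hP
    rw [mem_P0] at hx ⊢
    rw [he, hpf, hx]
  · intro x
    rw [Cub.comap_apply, hE0, hTx, haa]
    rfl
  · intro x
    rw [Cub.comap_apply, hE0, hE1, hTx, hab]
    rfl
  · intro x
    rw [Cub.comap_apply, hE1, hTx, hbb]
    rfl
  · intro u v hu0 hu1 hv0 hv1
    rw [Cub.comap_apply, hE0, he, he, hf, hf, hu0, hu1, hv0, hv1]
    simp only [zero_smul, zero_add, map_add, map_smul, LinearMap.add_apply, LinearMap.smul_apply,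
      smul_eq_mul, e'D, haDe, hAe, h3Y, mul_zero, add_zero]
  · intro u v hu0 hu1 hv0 hv1
    rw [Cub.comap_apply, hE1, he, he, hf, hf, hu0, hu1, hv0, hv1]
    simp only [zero_smul, zero_add, map_add, map_smul, LinearMap.add_apply, LinearMap.smul_apply,
      smul_eq_mul, e'D, hbDe, hBe, h3Y, mul_zero, add_zero]

end Pool.Agent.Helper29.TR
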