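import Pool.Agent.Helper29.TR.Defs

set_option autoImplicit false

namespace Pool.Agent.Helper29.TR

open MvPolynomial Module Pool.Agent.Helper16

private theorem dual_of_hom1 {n : ℕ} {G : MvPolynomial (Fin n) ℂ} (hG : G.IsHomogeneous 1) :
    ∃ f : (Fin n → ℂ) →ₗ[ℂ] ℂ, ∀ x, f x = eval x G := by
  refine ⟨∑ i, (eval 0 (pderiv i G)) • LinearMap.proj i, fun x => ?_⟩
  have h1 := euler_eval hG x
  simp only [Nat.cast_one, one_mul] at h1
  rw [h1, LinearMap.sum_apply]
  refine Finset.sum_congr rfl fun i _ => ?_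
  rw [LinearMap.smul_apply, LinearMap.proj_apply, smul_eq_mul,
    eval_const_of_hom0 (hG.pderiv (i := i)) x, mul_comm]

/-- diagonal form of a conic -/
private theorem conic_diag {κ : R3} (h2 : κ.IsHomogeneous 2) :
    ∃ (g0 : (Fin 3 → ℂ) ≃ₗ[ℂ] (Fin 3 → ℂ)) (a : Fin 3 → ℂ),
      ∀ z, eval z κ = ∑ i, a i * (g0 z i * g0 z i) := by
  have hf : ∀ i, ∃ f : (Fin 3 → ℂ) →ₗ[ℂ] ℂ, ∀ x, f x = eval x (pderiv i κ) := by
    intro i
    exact dual_of_hom1 (h2.pderiv (i := i))
  choose f hf using hf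
  let B : (Fin 3 → ℂ) →ₗ[ℂ] (Fin 3 → ℂ) →ₗ[ℂ] ℂ :=
    LinearMap.mk₂ ℂ (fun x y => (1 / 2) * ∑ i, x i * f i y)
      (by intro x x' y
          simp only [Pi.add_apply, add_mul, Finset.sum_add_distrib, mul_add])
      (by intro c x y
          simp only [Pi.smul_apply, smul_eq_mul, mul_assoc]
          rw [← Finset.mul_sum]; ring)
      (by intro x y y'
          simp only [map_add, mul_add, Finset.sum_add_distrib])
      (by intro c x y
          simp only [map_smul, smul_eq_mul]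
          have : ∀ i, x i * (c * f i y) = c * (x i * f i y) := fun i => by ring
          simp only [this]
          rw [← Finset.mul_sum]; ring)
  have hB : ∀ x, B x x = eval x κ := by
    intro x
    have h := euler_eval h2 x
    simp only [Nat.cast_ofNat] at h
    show (1 / 2 : ℂ) * ∑ i, x i * f i x = _
    simp only [hf]
    rw [← h]; ring
  let Q : QuadraticForm ℂ (Fin 3 → ℂ) := LinearMap.BilinMap.toQuadraticMap B
  have hQ : ∀ x, Q x = eval x κ := fun x => hB x
  obtain ⟨w, ⟨e⟩⟩ := Q.equivalent_weightedSumSquares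
  have hn : Module.finrank ℂ (Fin 3 → ℂ) = 3 := by simp
  refine ⟨e.toLinearEquiv.trans (LinearEquiv.funCongrLeft ℂ ℂ (finCongr hn.symm)),
    fun i => w (finCongr hn.symm i), fun z => ?_⟩
  rw [← hQ z, ← e.map_app z, QuadraticMap.weightedSumSquares_apply]
  rw [← Equiv.sum_comp (finCongr hn.symm)]
  rfl

private theorem not_unit_linp {n : ℕ} (l : (Fin n → ℂ) →ₗ[ℂ] ℂ) : ¬ IsUnit (linp l) := by
  intro h
  have h1 := h.map (eval (0 : Fin n → ℂ))
  rw [eval_linp, map_zero] at h1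
  exact not_isUnit_zero h1

private theorem conic_two {κ : R3} (hκ : Irreducible κ) (l m : (Fin 3 → ℂ) →ₗ[ℂ] ℂ) (a b : ℂ)
    (h : ∀ z, eval z κ = a * (l z * l z) + b * (m z * m z)) : False := by
  obtain ⟨s, hs⟩ := IsAlgClosed.exists_pow_nat_eq a (n := 2) (by norm_num)
  obtain ⟨t, ht⟩ := IsAlgClosed.exists_pow_nat_eq b (n := 2) (by norm_num)
  have hfac : κ = linp (s • l + (Complex.I * t) • m) * linp (s • l - (Complex.I * t) • m) := by
    apply MvPolynomial.funext
    intro z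
    rw [h z, map_mul, eval_linp, eval_linp]
    simp only [LinearMap.add_apply, LinearMap.sub_apply, LinearMap.smul_apply, smul_eq_mul]
    have hI := Complex.I_sq
    rw [← hs, ← ht]
    linear_combination (t ^ 2 * m z ^ 2) * hI
  rcases hκ.isUnit_or_isUnit hfac with h1 | h1
  · exact not_unit_linp _ h1
  · exact not_unit_linp _ h1

/-- Piece C1. Normal form of an irreducible conic. -/
theorem conic_nf {κ : R3} (hκ : Irreducible κ) (h2 : κ.IsHomogeneous 2) :
    ∃ (g : (Fin 3 → ℂ) ≃ₗ[ℂ] (Fin 3 → ℂ)) (r : ℂ), r ≠ 0 ∧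
      ∀ z, eval (g z) κ = r * (z 0 * z 2 - z 1 ^ 2) := by
  obtain ⟨g0, a, hg⟩ := conic_diag h2
  have hl : ∀ (i : Fin 3) z, ((LinearMap.proj i : (Fin 3 → ℂ) →ₗ[ℂ] ℂ) ∘ₗ g0.toLinearMap) z
      = g0 z i := fun i z => rfl
  have h0 : a 0 ≠ 0 := by
    intro h
    apply conic_two hκ ((LinearMap.proj 1 : (Fin 3 → ℂ) →ₗ[ℂ] ℂ) ∘ₗ g0.toLinearMap)
      ((LinearMap.proj 2 : (Fin 3 → ℂ) →ₗ[ℂ] ℂ) ∘ₗ g0.toLinearMap) (a 1) (a 2)
    intro z
    rw [hg z, Fin.sum_univ_three, h, hl, hl]; ring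
  have h1 : a 1 ≠ 0 := by
    intro h
    apply conic_two hκ ((LinearMap.proj 0 : (Fin 3 → ℂ) →ₗ[ℂ] ℂ) ∘ₗ g0.toLinearMap)
      ((LinearMap.proj 2 : (Fin 3 → ℂ) →ₗ[ℂ] ℂ) ∘ₗ g0.toLinearMap) (a 0) (a 2)
    intro z
    rw [hg z, Fin.sum_univ_three, h, hl, hl]; ring
  have h2' : a 2 ≠ 0 := by
    intro h
    apply conic_two hκ ((LinearMap.proj 0 : (Fin 3 → ℂ) →ₗ[ℂ] ℂ) ∘ₗ g0.toLinearMap)
      ((LinearMap.proj 1 : (Fin 3 → ℂ) →ₗ[ℂ] ℂ) ∘ₗ g0.toLinearMap) (a 0) (a 1)
    intro z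
    rw [hg z, Fin.sum_univ_three, h, hl, hl]; ring
  obtain ⟨s0, hs0⟩ := IsAlgClosed.exists_pow_nat_eq (a 0) (n := 2) (by norm_num)
  obtain ⟨s1, hs1⟩ := IsAlgClosed.exists_pow_nat_eq (a 1) (n := 2) (by norm_num)
  obtain ⟨s2, hs2⟩ := IsAlgClosed.exists_pow_nat_eq (a 2) (n := 2) (by norm_num)
  have n0 : s0 ≠ 0 := by rintro rfl; apply h0; rw [← hs0]; norm_num
  have n1 : s1 ≠ 0 := by rintro rfl; apply h1; rw [← hs1]; norm_num
  have n2 : s2 ≠ 0 := by rintro rfl; apply h2'; rw [← hs2]; norm_num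
  have hI := Complex.I_sq
  have hI0 := Complex.I_ne_zero
  let y : (Fin 3 → ℂ) ≃ₗ[ℂ] (Fin 3 → ℂ) :=
    { toFun := fun z => ![(z 0 + z 2) / (2 * s0), (z 0 - z 2) / (2 * Complex.I * s1),
        Complex.I * z 1 / s2]
      map_add' := by
        intro z z'
        funext i
        fin_cases i <;> simp <;> ring
      map_smul' := by
        intro c z
        funext i
        fin_cases i <;> simp <;> ring
      invFun := fun y => ![s0 * y 0 + Complex.I * s1 * y 1, -Complex.I * s2 * y 2,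
        s0 * y 0 - Complex.I * s1 * y 1]
      left_inv := by
        intro z
        funext i
        fin_cases i
        · simp
          field_simp
          ring
        · simp
          field_simp
          linear_combination (-z 1) * hI
        · simp
          field_simp
          ring
      right_inv := by
        intro z
        funext i
        fin_cases i
        · simp
          field_simp
          ring
        · simp
          field_simp
          ring
        · simp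
          field_simp
          linear_combination (-z 2) * hI }
  refine ⟨y.trans g0.symm, 1, one_ne_zero, fun z => ?_⟩
  rw [hg, Fin.sum_univ_three, LinearEquiv.trans_apply, LinearEquiv.apply_symm_apply]
  have y0 : y z 0 = (z 0 + z 2) / (2 * s0) := rfl
  have y1 : y z 1 = (z 0 - z 2) / (2 * Complex.I * s1) := rfl
  have y2 : y z 2 = Complex.I * z 1 / s2 := rfl
  rw [y0, y1, y2, ← hs0, ← hs1, ← hs2]
  have e0 : s0 ^ 2 * ((z 0 + z 2) / (2 * s0) * ((z 0 + z 2) / (2 * s0))) = (z 0 + z 2) ^ 2 / 4 := by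
    field_simp
    ring
  have e1 : s1 ^ 2 * ((z 0 - z 2) / (2 * Complex.I * s1) * ((z 0 - z 2) / (2 * Complex.I * s1)))
      = - ((z 0 - z 2) ^ 2 / 4) := by
    rw [show ((z 0 - z 2) / (2 * Complex.I * s1) * ((z 0 - z 2) / (2 * Complex.I * s1)))
      = (z 0 - z 2) ^ 2 / (4 * Complex.I ^ 2 * s1 ^ 2) by field_simp; ring, hI]
    field_simp
  have e2 : s2 ^ 2 * (Complex.I * z 1 / s2 * (Complex.I * z 1 / s2)) = - z 1 ^ 2 := by
    rw [show (Complex.I * z 1 / s2 * (Complex.I * z 1 / s2)) = Complex.I ^ 2 * z 1 ^ 2 / s2 ^ 2 by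
      field_simp, hI]
    field_simp
  rw [e0, e1, e2]
  ring

end Pool.Agent.Helper29.TR
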