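import Pool.Agent.Helper29.TR.Defs

set_option autoImplicit false

namespace Pool.Agent.Helper29.TR

open MvPolynomial Module Pool.Agent.Helper16

/-- Piece N1. The discriminant does not vanish identically. -/
theorem disc_ne_zero {c : Cub (I6 → ℂ)} (hP : c.Iso P0) : c.disc ≠ 0 := by
  intro hdisc
  obtain ⟨v, hv0, hv⟩ := Matrix.exists_mulVec_eq_zero_iff.mpr hdisc
  obtain ⟨i, hi⟩ := Function.ne_iff.mp hv0
  have hi : v i ≠ 0 := hi
  -- a point where `v` does not vanish
  have hprod : v i * X 0 ≠ 0 := mul_ne_zero hi (X_ne_zero 0)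
  obtain ⟨b, hb⟩ : ∃ b : Fin 3 → ℂ, eval b (v i * X 0) ≠ 0 := by
    by_contra hcon
    push Not at hcon
    apply hprod
    apply MvPolynomial.funext
    intro z
    rw [hcon z, map_zero]
  rw [map_mul, eval_X] at hb
  have hb1 : eval b (v i) ≠ 0 := left_ne_zero_of_mul hb
  have hb2 : b ≠ 0 := by
    rintro rfl
    exact right_ne_zero_of_mul hb rfl
  set v0 : Fin 4 → ℂ := fun j => eval b (v j) with hv0def
  have hnf : ∀ w : Fin 4 → R3, c.nf (X : Fin 3 → R3) v w = 0 := by
    intro w
    rw [c.nf_symm, Cub.nf_eq_dot, hv, dotProduct_zero]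
  have hRad : c.Rad b v0 := by
    intro w
    have h1 := congrArg (aeval b : R3 →ₐ[ℂ] ℂ) (hnf (fun j => C (w j)))
    rw [Cub.map_nf] at h1
    simp only [aeval_X, aeval_C, Algebra.algebraMap_self, RingHom.id_apply, map_zero] at h1
    simpa only [aeval_eq_eval] using h1
  have hzero : v0 = 0 := by
    refine Cub.Rad.eq_zero hP hb2 hRad fun k => ?_
    rw [← Cub.eval_pderiv_nf]
    set w : Fin 4 → R3 := fun j => C (v0 j) - v j with hw
    have hwb : ∀ j, eval b (w j) = 0 := by
      intro j
      simp [hw, hv0def]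
    have hsplit : (fun j => C (v0 j) : Fin 4 → R3) = w + v := by
      funext j
      simp [hw]
    have h1 : c.nf (X : Fin 3 → R3) (fun j => C (v0 j)) (fun j => C (v0 j)) =
        c.nf (X : Fin 3 → R3) w w := by
      rw [hsplit, map_add (c.nf (X : Fin 3 → R3)) w v, LinearMap.add_apply, hnf, add_zero,
        map_add, c.nf_symm _ w v, hnf, add_zero]
    rw [h1, Cub.nf_eq_dot]
    simp only [dotProduct, Matrix.mulVec, map_sum, Derivation.leibniz, smul_eq_mul, map_add,
      map_mul, hwb, zero_mul, mul_zero, add_zero, Finset.sum_const_zero]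
  exact hb1 (congrFun hzero i)

end Pool.Agent.Helper29.TR
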