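import Pool.Agent.Helper29.TR.Defs

set_option autoImplicit false

namespace Pool.Agent.Helper29.TR

open MvPolynomial Module Pool.Agent.Helper16

/-- Piece L1. A null vector without zeros. -/
theorem prim_null (M : Matrix (Fin 4) (Fin 4) (Polynomial ℂ)) (h : M.det = 0) :
    ∃ v : Fin 4 → Polynomial ℂ, M.mulVec v = 0 ∧ ∀ t : ℂ, (fun i => (v i).eval t) ≠ 0 := by
  classical
  obtain ⟨v, hv, hMv⟩ := Matrix.exists_mulVec_eq_zero_iff.2 h
  obtain ⟨g, hg, hg1⟩ := Finset.extract_gcd v (s := Finset.univ) Finset.univ_nonempty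
  have hd : Finset.univ.gcd v ≠ 0 := by
    intro h0
    apply hv
    funext i
    have := (Finset.gcd_eq_zero_iff.1 h0) i (Finset.mem_univ i)
    exact this
  have hvg : v = (Finset.univ.gcd v) • g := by
    funext i
    rw [Pi.smul_apply, smul_eq_mul]
    exact hg i (Finset.mem_univ i)
  refine ⟨g, ?_, ?_⟩
  · rw [hvg, Matrix.mulVec_smul] at hMv
    rcases smul_eq_zero.1 hMv with h1 | h1
    · exact absurd h1 hd
    · exact h1
  · intro t ht
    have h1 : (Polynomial.X - Polynomial.C t) ∣ Finset.univ.gcd g := by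
      apply Finset.dvd_gcd
      intro i _
      rw [Polynomial.dvd_iff_isRoot]
      exact congrFun ht i
    rw [hg1] at h1
    exact Polynomial.not_isUnit_X_sub_C t (isUnit_of_dvd_one h1)

end Pool.Agent.Helper29.TR
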