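import Mathlib
import Pool.Agent.Helper16.CubicSing

set_option autoImplicit false

namespace Pool.Agent.Helper29.TR

open MvPolynomial Module Pool.Agent.Helper16

/-- Piece E6. A matrix of rank one over a unique factorisation domain is a column times a row. -/
theorem rank_one (M : Matrix (Fin 3) (Fin 3) R3)
    (h : ∀ i j k l, M i j * M k l = M i l * M k j) :
    ∃ v u : Fin 3 → R3, ∀ i j, M i j = v i * u j := by
  classical
  let _ : StrongNormalizationMonoid R3 := UniqueFactorizationMonoid.strongNormalizationMonoid
  let _ : NormalizedGCDMonoid R3 := UniqueFactorizationMonoid.toNormalizedGCDMonoid R3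
  by_cases hM : ∀ i j, M i j = 0
  · exact ⟨fun _ => 0, fun _ => 0, fun i j => by rw [hM i j, zero_mul]⟩
  · push Not at hM
    obtain ⟨i0, j0, hij⟩ := hM
    obtain ⟨u, hu, hg⟩ := Finset.extract_gcd (s := Finset.univ) (fun j => M i0 j)
      Finset.univ_nonempty
    set g := Finset.univ.gcd (fun j => M i0 j) with hgdef
    have hg0 : g ≠ 0 := by
      intro h0
      apply hij
      rw [hu j0 (Finset.mem_univ _), h0, zero_mul]
    have huj0 : u j0 ≠ 0 := by
      intro h0
      apply hij
      rw [hu j0 (Finset.mem_univ _), h0, mul_zero]
    have key : ∀ i j k, M i j * u k = M i k * u j := by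
      intro i j k
      have h1 := h i j i0 k
      rw [hu k (Finset.mem_univ _), hu j (Finset.mem_univ _)] at h1
      apply mul_left_cancel₀ hg0
      linear_combination h1
    have hdvd : ∀ i, u j0 ∣ M i j0 := by
      intro i
      have h1 : u j0 ∣ Finset.univ.gcd (fun k => M i j0 * u k) := by
        apply Finset.dvd_gcd
        intro k _
        rw [key i j0 k]
        exact Dvd.intro_left _ rfl
      have h2 := Finset.gcd_mul_left' Finset.univ u (M i j0)
      rw [hg, mul_one] at h2
      exact h1.trans h2.dvd
    choose v hv using hdvd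
    refine ⟨v, u, fun i j => ?_⟩
    apply mul_right_cancel₀ huj0
    rw [key i j j0, hv i]
    ring

end Pool.Agent.Helper29.TR
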