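import Pool.Agent.Helper29.TR.Defs

set_option autoImplicit false

namespace Pool.Agent.Helper29.TR

open MvPolynomial Module Pool.Agent.Helper16

/-- Piece E5. Splitting the cubic. -/
theorem exists_split {c : Cub (I6 → ℂ)} (hP : c.Iso P0) (k : (Fin 3 → ℂ) →ₗ[ℂ] (Fin 3 → ℂ))
    (hk : ∀ y z,
      2 * c.T (iY ℂ y) (iY ℂ (k z)) (iZ ℂ z) + c.T (iY ℂ y) (iZ ℂ z) (iZ ℂ z) = 0) :
    ∃ e : (I6 → ℂ) ≃ₗ[ℂ] (I6 → ℂ), (c.comap e).Iso P0 ∧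
      ∀ y z z', (c.comap e).T (iY ℂ y) (iZ ℂ z) (iZ ℂ z') = 0 := by
  let f : (I6 → ℂ) →ₗ[ℂ] (I6 → ℂ) := iY ℂ ∘ₗ (pY ℂ + k ∘ₗ pZ ℂ) + iZ ℂ ∘ₗ pZ ℂ
  let g : (I6 → ℂ) →ₗ[ℂ] (I6 → ℂ) := iY ℂ ∘ₗ (pY ℂ - k ∘ₗ pZ ℂ) + iZ ℂ ∘ₗ pZ ℂ
  have hf : ∀ x, f x = iY ℂ (pY ℂ x + k (pZ ℂ x)) + iZ ℂ (pZ ℂ x) := fun x => rfl
  have hg : ∀ x, g x = iY ℂ (pY ℂ x - k (pZ ℂ x)) + iZ ℂ (pZ ℂ x) := fun x => rfl
  have hY : ∀ a b : Fin 3 → ℂ, pY ℂ (iY ℂ a + iZ ℂ b) = a := fun a b => by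
    rw [map_add, pY_iY, pY_iZ, add_zero]
  have hZ : ∀ a b : Fin 3 → ℂ, pZ ℂ (iY ℂ a + iZ ℂ b) = b := fun a b => by
    rw [map_add, pZ_iY, pZ_iZ, zero_add]
  have hfg : ∀ x, f (g x) = x := by
    intro x
    apply vec_ext
    · rw [hf, hY, hg, hY, hZ, sub_add_cancel]
    · rw [hf, hZ, hg, hZ]
  have hgf : ∀ x, g (f x) = x := by
    intro x
    apply vec_ext
    · rw [hg, hY, hf, hY, hZ, add_sub_cancel_right]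
    · rw [hg, hZ, hf, hZ]
  let e : (I6 → ℂ) ≃ₗ[ℂ] (I6 → ℂ) :=
    LinearEquiv.ofLinearMap f g (LinearMap.ext hfg) (LinearMap.ext hgf)
  have heY : ∀ y, e (iY ℂ y) = iY ℂ y := by
    intro y
    change f (iY ℂ y) = iY ℂ y
    rw [hf, pY_iY, pZ_iY]
    simp
  have heZ : ∀ z, e (iZ ℂ z) = iY ℂ (k z) + iZ ℂ z := by
    intro z
    change f (iZ ℂ z) = _
    rw [hf, pY_iZ, pZ_iZ]
    simp
  refine ⟨e, ?_, ?_⟩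
  · intro x hx
    rw [eq_iY_of_mem hx, Cub.comap_apply, heY]
    exact hP _ (iY_mem _)
  · intro y z z'
    rw [Cub.comap_apply, heY, heZ, heZ]
    have h1 := hk y (z + z')
    have h2 := hk y z
    have h3 := hk y z'
    have h4 : c.T (iY ℂ y) (iY ℂ (k z)) (iY ℂ (k z')) = 0 :=
      hP.three (iY_mem _) (iY_mem _) (iY_mem _)
    simp only [map_add, LinearMap.add_apply] at h1 ⊢
    rw [h4]
    have h5 : c.T (iY ℂ y) (iZ ℂ z) (iY ℂ (k z')) = c.T (iY ℂ y) (iY ℂ (k z')) (iZ ℂ z) :=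
      c.s23 _ _ _
    have h6 : c.T (iY ℂ y) (iZ ℂ z') (iZ ℂ z) = c.T (iY ℂ y) (iZ ℂ z) (iZ ℂ z') :=
      c.s23 _ _ _
    rw [h5]
    rw [h6] at h1
    linear_combination (1/2) * h1 - (1/2) * h2 - (1/2) * h3

end Pool.Agent.Helper29.TR
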