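import Mathlib
import Pool.Agent.Helper16.CubicData

set_option autoImplicit false

namespace Pool.Agent.Helper29.TR

open MvPolynomial Module Pool.Agent.Helper16

private theorem th0_cyc
    (S : (Fin 3 → ℂ) →ₗ[ℂ] (Fin 3 → ℂ) →ₗ[ℂ] (Fin 3 → ℂ) →ₗ[ℂ] ℂ)
    (hs : ∀ u v w, S u v w = S v u w) (h : ∀ z, S z z z = 0) (u v w : Fin 3 → ℂ) :
    S u v w + S v w u + S w u v = 0 := by
  have e1 := h (u + v + w)
  have e2 := h (u + v)
  have e3 := h (u + w)
  have e4 := h (v + w)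
  have e5 := h u
  have e6 := h v
  have e7 := h w
  simp only [map_add, LinearMap.add_apply] at e1 e2 e3 e4
  have a1 := hs v u w
  have a2 := hs w v u
  have a3 := hs u w v
  linear_combination (e1 - e2 - e3 - e4 + e5 + e6 + e7 - a1 - a2 - a3) / 2

private theorem th0_exp (z : Fin 3 → ℂ) :
    z = z 0 • (Pi.single 0 1 : Fin 3 → ℂ) + z 1 • (Pi.single 1 1 : Fin 3 → ℂ) +
      z 2 • (Pi.single 2 1 : Fin 3 → ℂ) := by
  funext i
  fin_cases i <;> simp

private theorem th0_koszul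
    (S : (Fin 3 → ℂ) →ₗ[ℂ] (Fin 3 → ℂ) →ₗ[ℂ] (Fin 3 → ℂ) →ₗ[ℂ] ℂ)
    (hs : ∀ u v w, S u v w = S v u w) (h : ∀ z, S z z z = 0) :
    ∃ W : (Fin 3 → ℂ) →ₗ[ℂ] (Fin 3 → ℂ), ∀ z w, S z z w =
      (z 1 * W z 2 - z 2 * W z 1) * w 0 + (z 2 * W z 0 - z 0 * W z 2) * w 1 +
      (z 0 * W z 1 - z 1 * W z 0) * w 2 := by
  have hc := th0_cyc S hs h
  obtain ⟨e, he⟩ : ∃ e : Fin 3 → (Fin 3 → ℂ), ∀ z : Fin 3 → ℂ,
      z = z 0 • e 0 + z 1 • e 1 + z 2 • e 2 :=
    ⟨fun i => Pi.single i 1, th0_exp⟩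
  refine ⟨Matrix.toLin' !![0, -S (e 1) (e 1) (e 2), S (e 2) (e 2) (e 1);
      S (e 0) (e 0) (e 2), 2 * S (e 0) (e 1) (e 2), -S (e 2) (e 2) (e 0);
      -S (e 0) (e 0) (e 1), S (e 1) (e 1) (e 0), -2 * S (e 0) (e 2) (e 1)], fun z w => ?_⟩
  have hz : S z z w = S (z 0 • e 0 + z 1 • e 1 + z 2 • e 2) (z 0 • e 0 + z 1 • e 1 + z 2 • e 2)
      (w 0 • e 0 + w 1 • e 1 + w 2 • e 2) := by
    rw [← he z, ← he w]
  rw [hz]
  simp only [map_add, map_smul, LinearMap.add_apply, LinearMap.smul_apply, smul_eq_mul,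
    Matrix.toLin'_apply, Matrix.mulVec, dotProduct, Fin.sum_univ_three]
  simp only [Matrix.of_apply, Matrix.cons_val', Matrix.cons_val_zero, Matrix.cons_val_one,
    Matrix.cons_val_fin_one, Matrix.cons_val]
  have hA : ∀ u v, S u v u = -S u u v / 2 := fun u v => by
    linear_combination (hc u u v - hs v u u) / 2
  have hB : ∀ u v, S v u u = -S u u v / 2 := fun u v => by
    linear_combination (hc u u v + hs v u u) / 2
  have h120 : S (e 1) (e 2) (e 0) = -S (e 0) (e 1) (e 2) - S (e 0) (e 2) (e 1) := by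
    linear_combination hc (e 0) (e 1) (e 2) - hs (e 2) (e 0) (e 1)
  have h210 : S (e 2) (e 1) (e 0) = -S (e 0) (e 1) (e 2) - S (e 0) (e 2) (e 1) := by
    rw [hs, h120]
  rw [h (e 0), h (e 1), h (e 2), hA (e 0) (e 1), hA (e 0) (e 2), hA (e 1) (e 0), hA (e 1) (e 2),
    hA (e 2) (e 0), hA (e 2) (e 1), hB (e 0) (e 1), hB (e 0) (e 2), hB (e 1) (e 0), hB (e 1) (e 2),
    hB (e 2) (e 0), hB (e 2) (e 1), h120, h210, hs (e 1) (e 0) (e 2), hs (e 2) (e 0) (e 1)]
  ring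

private theorem th0_main (S : (Fin 3 → ℂ) →ₗ[ℂ] (Fin 3 → ℂ) →ₗ[ℂ] (Fin 3 → ℂ) →ₗ[ℂ] ℂ)
    (hs : ∀ u v w, S u v w = S v u w) (hS : ∀ y, y ≠ 0 → S y y ≠ 0)
    (K : (Fin 3 → ℂ) →ₗ[ℂ] (Fin 3 → ℂ)) (h : ∀ z, S (K z) (K z) z = 0) : K = 0 := by
  obtain ⟨W, hW⟩ := th0_koszul (S.compl₁₂ K K) (fun u v w => hs _ _ _) (fun z => h z)
  have hW' : ∀ z w, S (K z) (K z) w =
      (z 1 * W z 2 - z 2 * W z 1) * w 0 + (z 2 * W z 0 - z 0 * W z 2) * w 1 +
      (z 0 * W z 1 - z 1 * W z 0) * w 2 := hW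
  obtain ⟨μ, hμ⟩ := Module.End.exists_eigenvalue W
  obtain ⟨z0, hz0⟩ := hμ.exists_hasEigenvector
  have hz0' := hz0.apply_eq_smul
  have hz00 := hz0.2
  -- eigenvectors lie in the kernel of `K`
  have hker : ∀ z, W z = μ • z → K z = 0 := by
    intro z hz
    by_contra hne
    apply hS _ hne
    refine LinearMap.ext fun w => ?_
    rw [hW', hz]
    simp only [Pi.smul_apply, smul_eq_mul, LinearMap.zero_apply]
    ring
  have hK0 := hker z0 hz0'
  -- the image of `W - μ` is spanned by `z0`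
  have hcr : ∀ z w : Fin 3 → ℂ, (z0 1 * (W z 2 - μ * z 2) - z0 2 * (W z 1 - μ * z 1)) * w 0 +
      (z0 2 * (W z 0 - μ * z 0) - z0 0 * (W z 2 - μ * z 2)) * w 1 +
      (z0 0 * (W z 1 - μ * z 1) - z0 1 * (W z 0 - μ * z 0)) * w 2 = 0 := by
    intro z w
    have e1 := hW' z w
    have e2 := hW' (z + z0) w
    rw [map_add, hK0, add_zero, map_add, hz0'] at e2
    simp only [Pi.add_apply, Pi.smul_apply, smul_eq_mul] at e2
    linear_combination e1 - e2
  have hc0 : ∀ z, z0 1 * (W z 2 - μ * z 2) - z0 2 * (W z 1 - μ * z 1) = 0 := fun z => by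
    simpa using hcr z ![1, 0, 0]
  have hc1 : ∀ z, z0 2 * (W z 0 - μ * z 0) - z0 0 * (W z 2 - μ * z 2) = 0 := fun z => by
    simpa using hcr z ![0, 1, 0]
  have hc2 : ∀ z, z0 0 * (W z 1 - μ * z 1) - z0 1 * (W z 0 - μ * z 0) = 0 := fun z => by
    simpa using hcr z ![0, 0, 1]
  obtain ⟨k, hk⟩ := Function.ne_iff.mp hz00
  rw [Pi.zero_apply] at hk
  have hker2 : ∀ z, W z k - μ * z k = 0 → K z = 0 := by
    intro z hz
    apply hker
    have a0 := hc0 z
    have a1 := hc1 z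
    have a2 := hc2 z
    funext i
    rw [Pi.smul_apply, smul_eq_mul]
    apply mul_left_cancel₀ hk
    fin_cases k <;> fin_cases i <;>
      simp only [Fin.zero_eta, Fin.mk_one, Fin.reduceFinMk, Fin.isValue] at hz a0 a1 a2 ⊢ <;>
      first
      | linear_combination z0 0 * hz
      | linear_combination z0 1 * hz
      | linear_combination z0 2 * hz
      | linear_combination a0 + z0 2 * hz
      | linear_combination a0 + z0 1 * hz
      | linear_combination -a0 + z0 2 * hz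
      | linear_combination -a0 + z0 1 * hz
      | linear_combination a1 + z0 2 * hz
      | linear_combination a1 + z0 0 * hz
      | linear_combination -a1 + z0 2 * hz
      | linear_combination -a1 + z0 0 * hz
      | linear_combination a2 + z0 0 * hz
      | linear_combination a2 + z0 1 * hz
      | linear_combination -a2 + z0 0 * hz
      | linear_combination -a2 + z0 1 * hz
  by_contra hK
  obtain ⟨z1, hz1⟩ : ∃ z1, K z1 ≠ 0 := by
    by_contra hcon
    push Not at hcon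
    exact hK (LinearMap.ext hcon)
  have hφ1 : W z1 k - μ * z1 k ≠ 0 := fun h0 => hz1 (hker2 z1 h0)
  apply hS _ hz1
  refine LinearMap.ext fun z => ?_
  rw [LinearMap.zero_apply]
  -- split off the component of `z` along `z1`
  obtain ⟨t, ht⟩ : ∃ t : ℂ, W z k - μ * z k = t * (W z1 k - μ * z1 k) :=
    ⟨(W z k - μ * z k) / (W z1 k - μ * z1 k), by field_simp⟩
  have hu : K (z - t • z1) = 0 := by
    apply hker2
    rw [map_sub, map_smul]
    simp only [Pi.sub_apply, Pi.smul_apply, smul_eq_mul]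
    linear_combination ht
  have h1 := h z1
  have h2 := h (z1 + (z - t • z1))
  have h3 : K (z1 + (z - t • z1)) = K z1 := by rw [map_add, hu, add_zero]
  rw [h3, map_add, map_sub, map_smul, h1, smul_zero, zero_add, sub_zero] at h2
  exact h2

/-- Piece E7. The first injectivity statement. -/
theorem theta_inj0 {c : Cub (I6 → ℂ)} (hP : c.Iso P0) (K : (Fin 3 → ℂ) →ₗ[ℂ] (Fin 3 → ℂ))
    (h : ∀ z, c.T (iY ℂ (K z)) (iY ℂ (K z)) (iZ ℂ z) = 0) : K = 0 := by
  refine th0_main ((c.T.compl₁₂ (iY ℂ) (iY ℂ)).compr₂ (LinearMap.lcomp ℂ ℂ (iZ ℂ)))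
    (fun u v w => ?_) (fun y hy h0 => ?_) K (fun z => ?_)
  · exact c.s12 _ _ _
  · exact c.tl_ne_zero hP hy h0
  · exact h z

end Pool.Agent.Helper29.TR
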