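import Mathlib
import Pool.Agent.Helper29.TR.Defs
import Pool.Agent.Helper29.TR.St.RankOne
import Pool.Agent.Helper29.TR.St.Theta0
import Pool.Agent.Helper16.CubicBasic

set_option autoImplicit false

namespace Pool.Agent.Helper29.TR

open MvPolynomial Module Pool.Agent.Helper16

namespace Theta1Aux

/-- determinant of a symmetric matrix plus a skew matrix -/
theorem det_add_crs (A : Matrix (Fin 3) (Fin 3) ℂ) (hA : ∀ i j, A i j = A j i) (k : Fin 3 → ℂ) :
    (A + crs k).det = A.det + ∑ i, ∑ j, k i * k j * A i j := by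
  have h01 := hA 1 0
  have h02 := hA 2 0
  have h12 := hA 2 1
  simp only [Matrix.det_fin_three, Matrix.add_apply, crs, Matrix.of_apply, Matrix.cons_val',
    Matrix.cons_val_zero, Matrix.cons_val_one, Matrix.cons_val, Fin.sum_univ_three]
  rw [h01, h02, h12]
  ring

theorem quad_crs (k y : Fin 3 → ℂ) : ∑ i, ∑ j, y i * y j * crs k i j = 0 := by
  simp only [crs, Matrix.of_apply, Matrix.cons_val',
    Matrix.cons_val_zero, Matrix.cons_val_one, Matrix.cons_val, Fin.sum_univ_three]
  ring

variable {c : Cub (I6 → ℂ)}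

theorem Am_symm (z : Fin 3 → ℂ) (i j : Fin 3) : Am c z i j = Am c z j i := by
  simp only [Am, Matrix.of_apply]
  rw [c.ext12]

theorem T_iY (y y' z : Fin 3 → ℂ) :
    c.T (iY ℂ y) (iY ℂ y') (iZ ℂ z) = ∑ i, ∑ j, y i * y' j * Am c z i j := by
  have hy : ∀ y : Fin 3 → ℂ, iY ℂ y = ∑ i, y i • iY ℂ (Pi.single i 1) := by
    intro y
    conv_lhs => rw [show y = ∑ i, y i • (Pi.single i 1 : Fin 3 → ℂ) from by
      funext i
      simp only [Finset.sum_apply, Pi.smul_apply, smul_eq_mul, Pi.single_apply]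
      simp]
    rw [map_sum]
    simp only [map_smul]
  rw [hy y, hy y', map_sum c.T, LinearMap.sum_apply, LinearMap.sum_apply]
  refine Finset.sum_congr rfl fun i _ => ?_
  rw [map_smul c.T, LinearMap.smul_apply, LinearMap.smul_apply, map_sum (c.T _),
    LinearMap.sum_apply, Finset.smul_sum]
  refine Finset.sum_congr rfl fun j _ => ?_
  rw [map_smul (c.T _), LinearMap.smul_apply]
  simp only [Am, Matrix.of_apply, c.ext_complex, smul_eq_mul]
  ring

/-- the entries of `A(z)` as linear functionals of `z` -/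
noncomputable def aL (c : Cub (I6 → ℂ)) (i j : Fin 3) : (Fin 3 → ℂ) →ₗ[ℂ] ℂ :=
  (c.T (iY ℂ (Pi.single i 1)) (iY ℂ (Pi.single j 1))).comp (iZ ℂ)

/-- the coordinates of `K` -/
noncomputable def kL (K : (Fin 3 → ℂ) →ₗ[ℂ] (Fin 3 → ℂ)) (i : Fin 3) : (Fin 3 → ℂ) →ₗ[ℂ] ℂ :=
  (LinearMap.proj i).comp K

/-- the matrix `A + [K]` -/
noncomputable def Bp (c : Cub (I6 → ℂ)) (K : (Fin 3 → ℂ) →ₗ[ℂ] (Fin 3 → ℂ)) :
    Matrix (Fin 3) (Fin 3) R3 :=
  (Matrix.of fun i j => linp (aL c i j)) + crs fun i => linp (kL K i)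

theorem eval_Bp (K : (Fin 3 → ℂ) →ₗ[ℂ] (Fin 3 → ℂ)) (z : Fin 3 → ℂ) (i j : Fin 3) :
    eval z (Bp c K i j) = (Am c z + crs (K z)) i j := by
  have h1 : eval z (linp (aL c i j)) = Am c z i j := by
    rw [eval_linp]
    simp only [Am, Matrix.of_apply, c.ext_complex]
    rfl
  have h2 : ∀ i, eval z (linp (kL K i)) = K z i := by
    intro i; rw [eval_linp]; rfl
  rw [Bp, Matrix.add_apply, Matrix.add_apply, map_add, Matrix.of_apply, h1]
  congr 1
  fin_cases i <;> fin_cases j <;> simp [crs, h2]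

theorem hom_Bp (K : (Fin 3 → ℂ) →ₗ[ℂ] (Fin 3 → ℂ)) (i j : Fin 3) :
    (Bp c K i j).IsHomogeneous 1 := by
  rw [Bp, Matrix.add_apply, Matrix.of_apply]
  refine (linp_hom _).add ?_
  fin_cases i <;> fin_cases j <;>
    first
      | exact isHomogeneous_zero _ _ _
      | exact linp_hom _
      | exact (linp_hom _).neg

/-- the quadratic form of `B` is that of `A` -/
theorem quad_Bp (K : (Fin 3 → ℂ) →ₗ[ℂ] (Fin 3 → ℂ)) (y z : Fin 3 → ℂ) :
    ∑ i, ∑ j, y i * y j * eval z (Bp c K i j) = c.T (iY ℂ y) (iY ℂ y) (iZ ℂ z) := by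
  rw [T_iY]
  have h := quad_crs (K z) y
  have : ∑ i, ∑ j, y i * y j * eval z (Bp c K i j) =
      ∑ i, ∑ j, y i * y j * Am c z i j + ∑ i, ∑ j, y i * y j * crs (K z) i j := by
    rw [← Finset.sum_add_distrib]
    refine Finset.sum_congr rfl fun i _ => ?_
    rw [← Finset.sum_add_distrib]
    refine Finset.sum_congr rfl fun j _ => ?_
    rw [eval_Bp, Matrix.add_apply]; ring
  rw [this, h, add_zero]

/-- factors of a rank one matrix with homogeneous entries -/
theorem fac {M : Matrix (Fin 3) (Fin 3) R3} {n : ℕ} (hM : ∀ i j, (M i j).IsHomogeneous n)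
    (hne : M ≠ 0) {v u : Fin 3 → R3} (h : ∀ i j, M i j = v i * u j) :
    ∃ a b, a + b = n ∧ (∀ i, (v i).IsHomogeneous a) ∧ (∀ j, (u j).IsHomogeneous b) ∧
      v ≠ 0 ∧ u ≠ 0 := by
  obtain ⟨i₀, j₀, h0⟩ : ∃ i j, M i j ≠ 0 := by
    by_contra hcon
    push Not at hcon
    exact hne (by ext1 i j; exact hcon i j)
  have hv0 : v i₀ ≠ 0 := fun hh => h0 (by rw [h, hh, zero_mul])
  have hu0 : u j₀ ≠ 0 := fun hh => h0 (by rw [h, hh, mul_zero])
  obtain ⟨a, b, ha, hb, hab⟩ := hom_factor (p := v i₀) (q := u j₀) (by rw [← h]; exact hM _ _)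
    (mul_ne_zero hv0 hu0)
  refine ⟨a, b, hab, ?_, ?_, fun hh => hv0 (congrFun hh _), fun hh => hu0 (congrFun hh _)⟩
  · intro i
    by_cases hi : v i = 0
    · rw [hi]; exact isHomogeneous_zero _ _ _
    · obtain ⟨a', b', ha', hb', hab'⟩ := hom_factor (p := v i) (q := u j₀)
        (by rw [← h]; exact hM _ _) (mul_ne_zero hi hu0)
      have : b' = b := hb'.inj_right hb hu0
      have : a' = a := by omega
      rw [← this]; exact ha'
  · intro j
    by_cases hj : u j = 0
    · rw [hj]; exact isHomogeneous_zero _ _ _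
    · obtain ⟨a', b', ha', hb', hab'⟩ := hom_factor (p := v i₀) (q := u j)
        (by rw [← h]; exact hM _ _) (mul_ne_zero hv0 hj)
      have : a' = a := ha'.inj_right ha hv0
      have : b' = b := by omega
      rw [← this]; exact hb'

theorem const_of_hom0 {w : Fin 3 → R3} (hw : ∀ i, (w i).IsHomogeneous 0) :
    ∃ y : Fin 3 → ℂ, ∀ i, w i = C (y i) := by
  refine ⟨fun i => coeff 0 (w i), fun i => ?_⟩
  have := hw i
  rw [← totalDegree_zero_iff_isHomogeneous, totalDegree_eq_zero_iff_eq_C] at this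
  exact this

/-- no constant isotropic vector -/
theorem no_const (hP : c.Iso P0) {y : Fin 3 → ℂ} (hy : y ≠ 0)
    (h : ∀ z, c.T (iY ℂ y) (iY ℂ y) (iZ ℂ z) = 0) : False := by
  apply Cub.tl_ne_zero hP hy
  apply LinearMap.ext
  intro z
  exact h z

theorem lin_of_hom1 {w : Fin 3 → R3} (hw : ∀ i, (w i).IsHomogeneous 1) :
    ∃ V : (Fin 3 → ℂ) →ₗ[ℂ] (Fin 3 → ℂ), ∀ z i, V z i = eval z (w i) := by
  refine ⟨LinearMap.pi fun i => ∑ k, (eval 0 (pderiv k (w i))) • LinearMap.proj k, ?_⟩
  intro z i
  have h := euler_eval (hw i) z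
  rw [Nat.cast_one, one_mul] at h
  rw [h, LinearMap.pi_apply, LinearMap.sum_apply]
  refine Finset.sum_congr rfl fun k _ => ?_
  rw [LinearMap.smul_apply, LinearMap.proj_apply, smul_eq_mul, mul_comm,
    eval_const_of_hom0 ((hw i).pderiv : (pderiv k (w i)).IsHomogeneous 0) z]

/-- the sign of a permutation of three indices -/
def eps (i j k : Fin 3) : ℤ :=
  if i = j ∨ j = k ∨ i = k then 0
  else if (j : ℕ) = ((i : ℕ) + 1) % 3 then 1 else -1

/-- the two by two minors in terms of the adjugate -/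
theorem minors {R : Type*} [CommRing R] (B : Matrix (Fin 3) (Fin 3) R) (i j k l : Fin 3) :
    B i j * B k l - B i l * B k j =
      ∑ m, ∑ n, (eps i k m : R) * (eps j l n : R) * B.adjugate n m := by
  rw [Matrix.adjugate_fin_three]
  fin_cases i <;> fin_cases k <;> fin_cases j <;> fin_cases l <;>
    simp [eps, Fin.sum_univ_three] <;> ring

theorem adj_hom {B : Matrix (Fin 3) (Fin 3) R3} (hBh : ∀ i j, (B i j).IsHomogeneous 1)
    (i j : Fin 3) : (B.adjugate i j).IsHomogeneous 2 := by
  have h1 : ∀ i j k l, (B i j * B k l).IsHomogeneous 2 := fun i j k l => (hBh i j).mul (hBh k l)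
  have h2 : ∀ i j k l i' j' k' l', (B i j * B k l - B i' j' * B k' l').IsHomogeneous 2 :=
    fun i j k l i' j' k' l' => (h1 i j k l).sub (h1 i' j' k' l')
  have h3 : ∀ i j k l i' j' k' l', (-(B i j * B k l) + B i' j' * B k' l').IsHomogeneous 2 :=
    fun i j k l i' j' k' l' => (h1 i j k l).neg.add (h1 i' j' k' l')
  rw [Matrix.adjugate_fin_three]
  fin_cases i <;> fin_cases j
  · exact h2 1 1 2 2 1 2 2 1
  · exact h3 0 1 2 2 0 2 2 1
  · exact h2 0 1 1 2 0 2 1 1
  · exact h3 1 0 2 2 1 2 2 0
  · exact h2 0 0 2 2 0 2 2 0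
  · exact h3 0 0 1 2 0 2 1 0
  · exact h2 1 0 2 1 1 1 2 0
  · exact h3 0 0 2 1 0 1 2 0
  · exact h2 0 0 1 1 0 1 1 0

/-- a nonzero vector of forms of degree at most one which is isotropic -/
theorem no_vec (hP : c.Iso P0) {w : Fin 3 → R3} {d : ℕ} (hd : d ≤ 1)
    (hw : ∀ i, (w i).IsHomogeneous d) (hne : w ≠ 0)
    (h : ∀ z, c.T (iY ℂ fun i => eval z (w i)) (iY ℂ fun i => eval z (w i)) (iZ ℂ z) = 0) :
    False := by
  rcases Nat.le_one_iff_eq_zero_or_eq_one.1 hd with rfl | rfl
  · obtain ⟨y, hy⟩ := const_of_hom0 hw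
    have hy0 : y ≠ 0 := by
      rintro rfl
      apply hne
      funext i
      rw [hy]; simp
    refine no_const hP hy0 fun z => ?_
    have := h z
    simp only [hy, eval_C] at this
    exact this
  · obtain ⟨V, hV⟩ := lin_of_hom1 hw
    have hV' : ∀ z, V z = fun i => eval z (w i) := fun z => funext fun i => hV z i
    have h0 : V = 0 := theta_inj0 hP V fun z => by rw [hV']; exact h z
    apply hne
    funext i
    apply MvPolynomial.funext
    intro z
    rw [← hV, h0]; simp

/-- a constant vector orthogonal to a given one -/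
theorem exists_orth (v : Fin 3 → ℂ) : ∃ y : Fin 3 → ℂ, y ≠ 0 ∧ ∑ i, y i * v i = 0 := by
  by_cases h : v 0 = 0
  · refine ⟨![1, 0, 0], ?_, ?_⟩
    · intro hh
      have := congrFun hh 0
      simp at this
    · simp [Fin.sum_univ_three, h]
  · refine ⟨![v 1, -v 0, 0], ?_, ?_⟩
    · intro hh
      have := congrFun hh 1
      simp at this
      exact h this
    · simp [Fin.sum_univ_three]; ring

end Theta1Aux

open Theta1Aux

/-- Piece E8. The second injectivity statement. -/
theorem theta_inj1 {c : Cub (I6 → ℂ)} (hP : c.Iso P0) (K : (Fin 3 → ℂ) →ₗ[ℂ] (Fin 3 → ℂ))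
    (h : ∀ z, (Am c z).det + c.T (iY ℂ (K z)) (iY ℂ (K z)) (iZ ℂ z) = 0) : False := by
  set B := Bp c K with hB
  have hdet : B.det = 0 := by
    apply MvPolynomial.funext
    intro z
    rw [RingHom.map_det, map_zero]
    have h1 : (eval z).mapMatrix B = Am c z + crs (K z) := by
      ext i j
      rw [RingHom.mapMatrix_apply, Matrix.map_apply, hB, eval_Bp]
    rw [h1, det_add_crs _ (fun i j => Am_symm z i j), ← T_iY]
    exact h z
  by_cases hadj : B.adjugate = 0
  · -- `B` has rank one
    have hmin : ∀ i j k l, B i j * B k l = B i l * B k j := by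
      intro i j k l
      have := minors B i j k l
      rw [hadj] at this
      simp only [Matrix.zero_apply, mul_zero, Finset.sum_const_zero] at this
      exact sub_eq_zero.1 this
    obtain ⟨v, u, huv⟩ := rank_one B hmin
    have hconst : ∀ y : Fin 3 → ℂ, y ≠ 0 → (∀ z, ∑ i, ∑ j, y i * y j * eval z (B i j) = 0) →
        False := by
      intro y hy hyz
      refine no_const hP hy fun z => ?_
      rw [← quad_Bp K y z]
      exact hyz z
    by_cases hB0 : B = 0
    · refine hconst ![1, 0, 0] (fun hh => by simpa using congrFun hh 0) fun z => ?_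
      rw [hB0]; simp
    obtain ⟨a, b, hab, hv, hu, hv0, hu0⟩ := fac (n := 1) (fun i j => hom_Bp K i j) hB0 huv
    have hsplit : ∀ (y z : Fin 3 → ℂ), ∑ i, ∑ j, y i * y j * eval z (B i j) =
        (∑ i, y i * eval z (v i)) * ∑ j, y j * eval z (u j) := by
      intro y z
      rw [Finset.sum_mul_sum]
      refine Finset.sum_congr rfl fun i _ => Finset.sum_congr rfl fun j _ => ?_
      rw [huv, map_mul]; ring
    rcases Nat.eq_zero_or_pos a with ha | ha
    · rw [ha] at hv
      obtain ⟨y, hy⟩ := const_of_hom0 hv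
      obtain ⟨x, hx0, hx⟩ := exists_orth y
      refine hconst x hx0 fun z => ?_
      rw [hsplit]
      simp only [hy, eval_C]
      rw [hx, zero_mul]
    · have hb : b = 0 := by omega
      rw [hb] at hu
      obtain ⟨y, hy⟩ := const_of_hom0 hu
      obtain ⟨x, hx0, hx⟩ := exists_orth y
      refine hconst x hx0 fun z => ?_
      rw [hsplit]
      simp only [hy, eval_C]
      rw [hx, mul_zero]
  · -- the adjugate has rank one
    have hmin : ∀ i j k l, B.adjugate i j * B.adjugate k l =
        B.adjugate i l * B.adjugate k j := by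
      intro i j k l
      have := minors B.adjugate i j k l
      rw [Matrix.adjugate_adjugate B (by simp), hdet] at this
      simp only [Fintype.card_fin, Nat.reduceSub, pow_one, zero_smul, Matrix.zero_apply, mul_zero,
        Finset.sum_const_zero] at this
      exact sub_eq_zero.1 this
    obtain ⟨v, u, huv⟩ := rank_one B.adjugate hmin
    have hom2 : ∀ i j, (B.adjugate i j).IsHomogeneous 2 := adj_hom fun i j => hom_Bp K i j
    obtain ⟨a, b, hab, hv, hu, hv0, hu0⟩ := fac (n := 2) hom2 hadj huv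
    obtain ⟨j₀, hj₀⟩ : ∃ j, u j ≠ 0 := by
      by_contra hcon
      push Not at hcon
      exact hu0 (funext hcon)
    obtain ⟨i₀, hi₀⟩ : ∃ i, v i ≠ 0 := by
      by_contra hcon
      push Not at hcon
      exact hv0 (funext hcon)
    have hBv : ∀ i, ∑ k, B i k * v k = 0 := by
      intro i
      have h1 : (B * B.adjugate) i j₀ = 0 := by
        rw [Matrix.mul_adjugate, hdet, zero_smul]; rfl
      rw [Matrix.mul_apply] at h1
      have h2 : (∑ k, B i k * v k) * u j₀ = 0 := by
        rw [Finset.sum_mul, ← h1]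
        refine Finset.sum_congr rfl fun k _ => ?_
        rw [huv]; ring
      exact (mul_eq_zero.1 h2).resolve_right hj₀
    have huB : ∀ j, ∑ k, u k * B k j = 0 := by
      intro j
      have h1 : (B.adjugate * B) i₀ j = 0 := by
        rw [Matrix.adjugate_mul, hdet, zero_smul]; rfl
      rw [Matrix.mul_apply] at h1
      have h2 : v i₀ * (∑ k, u k * B k j) = 0 := by
        rw [Finset.mul_sum, ← h1]
        refine Finset.sum_congr rfl fun k _ => ?_
        rw [huv]; ring
      exact (mul_eq_zero.1 h2).resolve_left hi₀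
    rcases Nat.lt_or_ge a 2 with ha | ha
    · refine no_vec hP (by omega) hv hv0 fun z => ?_
      rw [← quad_Bp K]
      have : ∀ i, ∑ j, eval z (v i) * eval z (v j) * eval z (B i j) = 0 := by
        intro i
        have h3 := congrArg (eval z) (hBv i)
        rw [map_sum, map_zero] at h3
        have h4 : ∑ j, eval z (v i) * eval z (v j) * eval z (B i j) =
            eval z (v i) * ∑ k, eval z (B i k * v k) := by
          rw [Finset.mul_sum]
          refine Finset.sum_congr rfl fun k _ => ?_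
          rw [map_mul]; ring
        rw [h4, h3, mul_zero]
      exact Finset.sum_eq_zero fun i _ => this i
    · refine no_vec hP (by omega) hu hu0 fun z => ?_
      rw [← quad_Bp K, Finset.sum_comm]
      have : ∀ j, ∑ i, eval z (u i) * eval z (u j) * eval z (B i j) = 0 := by
        intro j
        have h3 := congrArg (eval z) (huB j)
        rw [map_sum, map_zero] at h3
        have h4 : ∑ i, eval z (u i) * eval z (u j) * eval z (B i j) =
            eval z (u j) * ∑ k, eval z (u k * B k j) := by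
          rw [Finset.mul_sum]
          refine Finset.sum_congr rfl fun k _ => ?_
          rw [map_mul]; ring
        rw [h4, h3, mul_zero]
      exact Finset.sum_eq_zero fun j _ => this j

end Pool.Agent.Helper29.TR
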