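import Mathlib
import Pool.Agent.Helper29.TR.St.QuadZero
import Pool.Agent.Helper29.TR.St.Theta1

set_option autoImplicit false

namespace Pool.Agent.Helper29.TR

open MvPolynomial Module Pool.Agent.Helper16

/-- the matrix of the net at a complex point -/
private theorem am_apply (c : Cub (I6 → ℂ)) (z : Fin 3 → ℂ) (i j : Fin 3) :
    Am c z i j = c.T (iY ℂ (Pi.single i 1)) (iY ℂ (Pi.single j 1)) (iZ ℂ z) := by
  rw [Am, Matrix.of_apply, Cub.ext_complex]

/-- the matrix of the net evaluated at a point -/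
private theorem am_map (c : Cub (I6 → ℂ)) (z : Fin 3 → ℂ) :
    (Am c (X : Fin 3 → R3)).map (aeval z : R3 →ₐ[ℂ] ℂ) = Am c z := by
  ext i j
  rw [Matrix.map_apply, Am, Matrix.of_apply, Cub.map_ext, Am, Matrix.of_apply]
  congr 1
  · congr 1
    · congr 1
      funext m
      rcases m with m | m
      · simp only [iY_inl, Pi.single_apply]
        split_ifs <;> simp
      · simp
    · funext m
      rcases m with m | m
      · simp only [iY_inl, Pi.single_apply]
        split_ifs <;> simp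
      · simp
  · funext m
    rcases m with m | m
    · simp
    · simp

private theorem eval_det (c : Cub (I6 → ℂ)) (z : Fin 3 → ℂ) :
    eval z (Am c (X : Fin 3 → R3)).det = (Am c z).det := by
  rw [← aeval_eq_eval, AlgHom.map_det, AlgHom.mapMatrix_apply, am_map]

private theorem am_smul (c : Cub (I6 → ℂ)) (a : ℂ) (z : Fin 3 → ℂ) :
    Am c (a • z) = a • Am c z := by
  ext i j
  rw [Matrix.smul_apply, am_apply, am_apply, map_smul, map_smul]

/-- the vector of linear forms of a linear map -/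
private noncomputable def vec (K : (Fin 3 → ℂ) →ₗ[ℂ] (Fin 3 → ℂ)) : Fin 3 → R3 :=
  fun i => linp ((LinearMap.proj i).comp K)

private theorem eval_vec (K : (Fin 3 → ℂ) →ₗ[ℂ] (Fin 3 → ℂ)) (z : Fin 3 → ℂ) (i : Fin 3) :
    eval z (vec K i) = K z i := by
  rw [vec, eval_linp]; rfl

/-- the polynomial of the quadratic map -/
private noncomputable def pol (c : Cub (I6 → ℂ)) (K : (Fin 3 → ℂ) →ₗ[ℂ] (Fin 3 → ℂ)) (s : ℂ)
    (K' : (Fin 3 → ℂ) →ₗ[ℂ] (Fin 3 → ℂ)) (s' : ℂ) : R3 :=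
  C (s * s') * (Am c (X : Fin 3 → R3)).det +
    c.ext R3 (iY R3 (vec K)) (iY R3 (vec K')) (iZ R3 X)

private theorem eval_pol (c : Cub (I6 → ℂ)) (K : (Fin 3 → ℂ) →ₗ[ℂ] (Fin 3 → ℂ)) (s : ℂ)
    (K' : (Fin 3 → ℂ) →ₗ[ℂ] (Fin 3 → ℂ)) (s' : ℂ) (z : Fin 3 → ℂ) :
    eval z (pol c K s K' s') = s * s' * (Am c z).det +
      c.T (iY ℂ (K z)) (iY ℂ (K' z)) (iZ ℂ z) := by
  rw [pol, map_add, map_mul, eval_C, eval_det]
  congr 1
  rw [← aeval_eq_eval, Cub.map_ext, ← Cub.ext_complex]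
  congr 1
  · congr 1
    · congr 1
      funext m
      rcases m with m | m
      · rw [iY_inl, iY_inl, aeval_eq_eval, eval_vec]
      · simp
    · funext m
      rcases m with m | m
      · rw [iY_inl, iY_inl, aeval_eq_eval, eval_vec]
      · simp
  · funext m
    rcases m with m | m
    · simp
    · simp

private theorem pol_hom (c : Cub (I6 → ℂ)) (K : (Fin 3 → ℂ) →ₗ[ℂ] (Fin 3 → ℂ)) (s : ℂ)
    (K' : (Fin 3 → ℂ) →ₗ[ℂ] (Fin 3 → ℂ)) (s' : ℂ) :
    (pol c K s K' s').IsHomogeneous 3 := by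
  refine isHomogeneous_of_eval fun a z => ?_
  rw [eval_pol, eval_pol, am_smul, Matrix.det_smul, Fintype.card_fin]
  simp only [map_smul, LinearMap.smul_apply, smul_eq_mul]
  ring

/-- the bilinear map -/
private noncomputable def bil (c : Cub (I6 → ℂ)) :
    (((Fin 3 → ℂ) →ₗ[ℂ] (Fin 3 → ℂ)) × ℂ) →ₗ[ℂ] (((Fin 3 → ℂ) →ₗ[ℂ] (Fin 3 → ℂ)) × ℂ) →ₗ[ℂ]
      homogeneousSubmodule (Fin 3) ℂ 3 :=
  LinearMap.mk₂ ℂ (fun p q => ⟨pol c p.1 p.2 q.1 q.2, pol_hom c p.1 p.2 q.1 q.2⟩)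
    (fun p p' q => by
      refine Subtype.ext (MvPolynomial.funext fun z => ?_)
      simp only [Submodule.coe_add, map_add, eval_pol, Prod.fst_add, Prod.snd_add,
        LinearMap.add_apply]
      ring)
    (fun a p q => by
      refine Subtype.ext (MvPolynomial.funext fun z => ?_)
      simp only [Submodule.coe_smul, smul_eval, eval_pol, Prod.smul_fst, Prod.smul_snd,
        LinearMap.smul_apply, map_smul, smul_eq_mul]
      ring)
    (fun p q q' => by
      refine Subtype.ext (MvPolynomial.funext fun z => ?_)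
      simp only [Submodule.coe_add, map_add, eval_pol, Prod.fst_add, Prod.snd_add,
        LinearMap.add_apply]
      ring)
    (fun a p q => by
      refine Subtype.ext (MvPolynomial.funext fun z => ?_)
      simp only [Submodule.coe_smul, smul_eval, eval_pol, Prod.smul_fst, Prod.smul_snd,
        LinearMap.smul_apply, map_smul, smul_eq_mul]
      ring)

private theorem eval_bil (c : Cub (I6 → ℂ)) (p q : ((Fin 3 → ℂ) →ₗ[ℂ] (Fin 3 → ℂ)) × ℂ)
    (z : Fin 3 → ℂ) :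
    eval z (bil c p q : R3) = p.2 * q.2 * (Am c z).det +
      c.T (iY ℂ (p.1 z)) (iY ℂ (q.1 z)) (iZ ℂ z) := by
  rw [bil, LinearMap.mk₂_apply, eval_pol]

/-- Piece E9. Every ternary cubic is in the image of the quadratic map. -/
theorem theta_surj {c : Cub (I6 → ℂ)} (hP : c.Iso P0) {γ : R3} (hγ : γ.IsHomogeneous 3) :
    ∃ (K : (Fin 3 → ℂ) →ₗ[ℂ] (Fin 3 → ℂ)) (s : ℂ), ∀ z,
      eval z γ = s ^ 2 * (Am c z).det + c.T (iY ℂ (K z)) (iY ℂ (K z)) (iZ ℂ z) := by
  have hfr : finrank ℂ (homogeneousSubmodule (Fin 3) ℂ 3) =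
      finrank ℂ (((Fin 3 → ℂ) →ₗ[ℂ] (Fin 3 → ℂ)) × ℂ) := by
    rw [finrank_hom3, finrank_prod, finrank_linearMap, finrank_fin_fun, finrank_self]
    decide
  have h0 : ∀ p : ((Fin 3 → ℂ) →ₗ[ℂ] (Fin 3 → ℂ)) × ℂ, bil c p p = 0 → p = 0 := by
    rintro ⟨K, s⟩ h
    have hz : ∀ z, s * s * (Am c z).det + c.T (iY ℂ (K z)) (iY ℂ (K z)) (iZ ℂ z) = 0 := by
      intro z
      have h1 := eval_bil c (K, s) (K, s) z
      rw [h] at h1
      simpa using h1.symm
    by_cases hs : s = 0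
    · subst hs
      have hK : K = 0 := theta_inj0 hP K fun z => by simpa using hz z
      rw [hK]; rfl
    · exfalso
      refine theta_inj1 hP (s⁻¹ • K) fun z => ?_
      have h1 := hz z
      simp only [LinearMap.smul_apply, map_smul, smul_eq_mul]
      have h2 : (Am c z).det + s⁻¹ * (s⁻¹ * c.T (iY ℂ (K z)) (iY ℂ (K z)) (iZ ℂ z)) =
          s⁻¹ * s⁻¹ * (s * s * (Am c z).det + c.T (iY ℂ (K z)) (iY ℂ (K z)) (iZ ℂ z)) := by
        field_simp
      rw [h2, h1, mul_zero]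
  obtain ⟨⟨K, s⟩, hp⟩ := quad_surj (bil c) hfr h0 ⟨γ, hγ⟩
  refine ⟨K, s, fun z => ?_⟩
  have h1 := eval_bil c (K, s) (K, s) z
  rw [hp] at h1
  rw [sq]
  exact h1

end Pool.Agent.Helper29.TR
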